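import Pool.Agent.Lib.MP_72e2e6_nt.W2.R.Defs
import Pool.Agent.Lib.MP_72e2e6_nt.W2.G.Spec

/-!
# MP_72e2e6_nt, theorem T3, part R: the reciprocity law and the count of the classes `u`

The proofs are complete in the docstrings; every module is independent (used statements are
hypotheses): file `W2/R/<Name>.lean` (import this file only) with `theorem t<Name> : S_<Name>` or
`theorem t<Name> (h1 : S_X) (h2 : S_Y) .. : S_<Name>` (in the order of the docstring), namespace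
`Pool.Agent.MP72W`, other declarations `private`. `F` is a finite field of characteristic two,
`q = Nat.card F`, `K = F(t)`, `K^s = Kgs F`, `N = 2 ^ k`; `a ≡ b` means `EqN N a b` (an equivalence
relation on nonzero elements, compatible with products and automorphisms). `H = (Kgeo F).fixingSubgroup`
is the group of the geometric elements (`IsGeo`, `S_FrG` (3)). In characteristic two
`s ^ N = s' ^ N` implies `s = s'` (`N = 2 ^ k`). Functions of the form `σ ↦ σ x` are locally constant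
(stabilizers are open).
-/

namespace Pool.Agent.MP72W

open Polynomial IntermediateField

/-- **H90** (200 lines). Hilbert's theorem 90, multiplicative and additive, for the closed subgroup
`H = E.fixingSubgroup` of `Gal(L/K)` (`L / K` Galois, possibly infinite).

Proof. `H` is closed in the compact group `Gal(L/K)`, so compact. `s` is locally constant on `H` with
finitely many values, `s 1 = 1` (resp. `0`), so there is an open normal subgroup `U` of `Gal(L/K)` with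
`s u = 1` for `u ∈ U ∩ H` and such that `U` fixes all the values of `s` (each value is algebraic). Let `M` be
the fixed field of `U`, finite and Galois over `K`. For `σ ∈ H`, `u ∈ U ∩ H`: `s (σ u) = s σ`. So `s` factors
through the finite group `Γ = H / (U ∩ H)` = the image of `H` in `Gal(M/K)`, with values in `M`. The
elements of `Γ` are different homomorphisms `M → M`, so they are linearly independent over `M` (Dedekind,
`linearIndependent_monoidHom`). Multiplicative: there is `x ∈ M` with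
`b = ∑_{γ ∈ Γ} s γ * γ x ≠ 0`, and `τ b = ∑ τ (s γ) * τ γ x = (s τ)⁻¹ * b` (`s (τ γ) = s τ * τ (s γ)`), so
`y = b⁻¹` satisfies `τ y / y = s τ`. Additive: there is `x ∈ M` with `c = ∑ γ x ≠ 0`; `c` is fixed by `Γ`,
replace `x` by `x / c`, so `c = 1`. Let `y = - ∑ s γ * γ x`; `∑ τ (s γ) * τ γ x = ∑ (s (τ γ) - s τ) * τ γ x`,
so `τ y = y + s τ`. -/
def S_H90 : Prop :=
  ∀ (K L : Type) [Field K] [Field L] [Algebra K L] [IsGalois K L] (E : IntermediateField K L),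
    (∀ s : E.fixingSubgroup → L, IsLocallyConstant s → (∀ σ, s σ ≠ 0) →
      (∀ σ τ : E.fixingSubgroup, s (σ * τ) = s σ * (σ : Gal(L/K)) (s τ)) →
      ∃ y : L, y ≠ 0 ∧ ∀ σ : E.fixingSubgroup, s σ = (σ : Gal(L/K)) y / y) ∧
    ∀ s : E.fixingSubgroup → L, IsLocallyConstant s →
      (∀ σ τ : E.fixingSubgroup, s (σ * τ) = s σ + (σ : Gal(L/K)) (s τ)) →
      ∃ y : L, ∀ σ : E.fixingSubgroup, s σ = (σ : Gal(L/K)) y - y

/-- **Tb** (150 lines). The operator `C` and the logarithmic derivative for a field with `2`-basis `t`.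

Proof. If `a ^ 2 + t b ^ 2 = a' ^ 2 + t b' ^ 2` with `b ≠ b'` then `t = ((a - a') / (b - b')) ^ 2`
(characteristic two); so `b` and `a` are determined by `f`: this is (1). (2), (3): add, multiply by
`g ^ 2`. (4): `σ f = (σ a) ^ 2 + t (σ b) ^ 2`. (5): `u = a ^ 2 + t b ^ 2`, `v = c ^ 2 + t d ^ 2`,
`u v = (a c + t b d) ^ 2 + t (a d + b c) ^ 2`, and
`b ^ 2 / u + d ^ 2 / v = (b ^ 2 v + d ^ 2 u) / (u v) = (b c + a d) ^ 2 / (u v)`. (6): `Lg u = 0` iff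
`C u = 0` iff `u = a ^ 2`. (7): `C (1 / u) = C (u / u ^ 2) = C u / u`, so
`C (Lg u) = C u * C (1 / u) = Lg u`. (8): `C (1 / f) = C f / f = 1`, `Lg (1 / f) = 1 / (1 / f) = f`. -/
def S_Tb : Prop :=
  ∀ (L : Type) [Field L] [CharP L 2] (t : L), TB L t →
    (∀ a b : L, Cop t (a ^ 2 + t * b ^ 2) = b) ∧
    (∀ f g : L, Cop t (f + g) = Cop t f + Cop t g) ∧
    (∀ f g : L, Cop t (g ^ 2 * f) = g * Cop t f) ∧
    (∀ (σ : L →+* L), σ t = t → ∀ f : L, Cop t (σ f) = σ (Cop t f) ∧ Lg t (σ f) = σ (Lg t f)) ∧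
    (∀ u v : L, u ≠ 0 → v ≠ 0 → Lg t (u * v) = Lg t u + Lg t v) ∧
    (∀ u : L, u ≠ 0 → (Lg t u = 0 ↔ ∃ s, u = s ^ 2)) ∧
    (∀ u : L, u ≠ 0 → Cop t (Lg t u) = Lg t u) ∧
    ∀ f : L, f ≠ 0 → Cop t f = f → Lg t (1 / f) = f

/-- **TbG** (120 lines). `t` is a `2`-basis of `K^s`.

Proof. For `K = F(t)`: every element of `F` is a square (finite of characteristic two), so a polynomial
is `A ^ 2 + t B ^ 2` (even and odd exponents), and `a / b = (a b) / b ^ 2`. For `f ∈ K^s`: `f` is separable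
over `K`, so `f ∈ K(f ^ 2)` (`f` is separable over `K(f ^ 2)` and a root of `X ^ 2 - f ^ 2 = (X - f) ^ 2`), so
`f = ∑ p_i f ^ (2 i)` with `p_i = a_i ^ 2 + t b_i ^ 2 ∈ K`, and
`f = (∑ a_i f ^ i) ^ 2 + t (∑ b_i f ^ i) ^ 2`. (For the first step one may use
`PerfectField`/`Field.adjoin_simple..expChar`: `IntermediateField.adjoin_eq_adjoin_pow_expChar_of_isSeparable`
or similar.) If `s ^ 2 = t` in `K^s` then `s` is purely inseparable and separable over `K`, so `s ∈ K`, and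
`intDegree (s ^ 2)` is even. -/
def S_TbG : Prop :=
  ∀ (F : Type) [Field F] [Finite F] [CharP F 2], TB (Kgs F) (tt F)

/-- **Gst** (250 lines, uses `S_Cst`, `S_FrG`). The structure of `Kgeo F = F̄(t)`, `F̄ = Cst`.

Proof. By `S_Cst` `F̄ = Cst q K^s` is a subfield of `K^s` (closed under `+`, `*`, inverses), and it is
algebraically closed: a monic polynomial with coefficients in `F̄` has coefficients in a finite subfield
(the `x` with `x ^ (q ^ n) = x`); it is a product of irreducible polynomials over this finite (perfect)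
field, which are separable, so they have roots in `K^s`; a root of a polynomial over a finite field
lies in a finite field, so in `F̄` (the field generated by it is finite over a finite field; or:
it generates a finite ring stable under the Frobenius). `Kgeo F` is the set of the quotients `a / b` of
polynomials in `t` with coefficients in `F̄` (this set is a field containing `F̄` and `t`, and every
element of `K` is such a quotient). (1) Polynomials over `F̄` split: `a(t) = α ∏ (t - c)`. (2) Let `I` be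
as in the statement and let `S` be the additive group generated by the `a t ^ n` and `a / (t - c) ^ i`,
`a, c ∈ F̄`, `i ≥ 1`. `S` is closed under products with `F̄`, with `t` (`t / (t - c) = 1 + c / (t - c)`,
induction on `i`) and with `1 / (t - d)`: `1 / ((t - c) (t - d)) = (1 / (t - c) - 1 / (t - d)) / (c - d)` for
`c ≠ d`, so by induction `1 / ((t - c) ^ i (t - d)) ∈ S`, and
`t ^ n / (t - d) = t ^ (n - 1) + d t ^ (n - 1) / (t - d)`. So `S` contains all quotients `a / b`. -/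
def S_Gst : Prop :=
  ∀ (F : Type) [Field F] [Finite F] [CharP F 2],
    (∀ ρ ∈ Kgeo F, ρ ≠ 0 → ∃ a ∈ Cst (Nat.card F) (Kgs F), a ≠ 0 ∧
      ∃ (T : Finset (Kgs F)) (n : Kgs F → ℤ), (∀ c ∈ T, c ∈ Cst (Nat.card F) (Kgs F)) ∧
        ρ = a * ∏ c ∈ T, (tt F - c) ^ n c) ∧
    ∀ I : AddSubgroup (Kgs F), (∀ a ∈ Cst (Nat.card F) (Kgs F), ∀ n : ℕ, a * tt F ^ n ∈ I) →
      (∀ a ∈ Cst (Nat.card F) (Kgs F), ∀ c ∈ Cst (Nat.card F) (Kgs F), ∀ i : ℕ, 1 ≤ i →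
        a / (tt F - c) ^ i ∈ I) → ∀ e ∈ Kgeo F, e ∈ I

/-- **CGe** (150 lines, uses `S_Cst`, `S_FrG`, `S_Tb`, `S_TbG`, `S_Gst`). The operator `C + 1` is
surjective on `Kgeo F = F̄(t)`.

Proof. `C = Cop (tt F)` maps `Kgeo F` to itself: the elements of `H` commute with `C` (`S_Tb` (4)) and
`Kgeo F` is the fixed field of `H` (`InfiniteGalois.fixedField_fixingSubgroup`). Let
`I = {e | ∃ h ∈ Kgeo F, C h + h = e}`, an additive subgroup. For every `e ∈ Kgeo F`: `C e + e ∈ I`, so if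
`C e ∈ I` (for instance `C e = 0`) then `e ∈ I`. Every `a ∈ F̄` has a square root in `F̄`
(`a = a ^ (q ^ n)`, `q` a power of two). (a) `C (a t ^ (2 m)) = 0`, `C (a t ^ (2 m + 1)) = √a t ^ m`; so
`a t ^ n ∈ I` by strong induction on `n`. (b) Let `c = γ ^ 2`, `γ ∈ F̄`, `τ = t - c`. As
`A ^ 2 + τ B ^ 2 = (A + γ B) ^ 2 + t B ^ 2`, `C (A ^ 2 + τ B ^ 2) = B`. So `C (a / τ ^ (2 m)) = 0` and
`C (a / τ ^ (2 m - 1)) = C (τ (√a / τ ^ m) ^ 2) = √a / τ ^ m`, `m < 2 m - 1` if `m ≥ 2`: induction. For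
`i = 1`: let `β ^ 2 + β = a`, `β ∈ F̄` (`S_Cst` (5)), `b = β ^ 2`; `C (b / τ) + b / τ = (β + b) / τ = a / τ`.
Now use `S_Gst` (2). -/
def S_CGe : Prop :=
  ∀ (F : Type) [Field F] [Finite F] [CharP F 2],
    (∀ f ∈ Kgeo F, Cop (tt F) f ∈ Kgeo F) ∧
    ∀ e ∈ Kgeo F, ∃ h ∈ Kgeo F, Cop (tt F) h + h = e

/-- **TS** (200 lines, uses `S_H90`, `S_Tb`, `S_TbG`, `S_CGe`). Crossed homomorphisms modulo `2 ^ k`-th
powers on the geometric group are trivial.

Proof by induction on `k` (for all `μ`). `k = 0`: `Y = 1`, `s = μ σ`. Step to `k + 1`: let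
`C = Cop (tt F)`, `a σ = Lg (tt F) (μ σ)`. By `S_Tb` (5), (6) (a `2 ^ (k + 1)`-th power is a square), (4):
`a (σ τ) = a σ + σ (a τ)`, and `C (a σ) = a σ`; `a` is locally constant. By `S_H90` (additive, `E = Kgeo F`,
characteristic two) `a σ = σ e + e`, `e ∈ K^s`. The element `e' = C e + e` is fixed by `H`, as
`σ e' + e' = C (a σ) + a σ = 0`, so `e' ∈ Kgeo F` and by `S_CGe` `e' = C h + h`, `h ∈ Kgeo F`. Let
`e₁ = e + h`: `C e₁ = e₁` and `a σ = σ e₁ + e₁`. Let `Y₀ = 1 / e₁` if `e₁ ≠ 0`, `Y₀ = 1` if `e₁ = 0`; so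
`Lg Y₀ = e₁` (`S_Tb` (8); `Lg 1 = 0` by (6)). Then `Lg (μ σ * Y₀ / σ Y₀) = a σ + e₁ + σ e₁ = 0` (note
`Lg (1 / u) = Lg u` by (5), (6)), so `μ σ * Y₀ / σ Y₀ = ν σ ^ 2` with a unique `ν σ ≠ 0`; `ν` is locally
constant, and `ν (σ τ) ^ 2 = ν σ ^ 2 * σ (ν τ) ^ 2 * s ^ (2 ^ (k + 1))`, so
`ν (σ τ) = ν σ * σ (ν τ) * s ^ (2 ^ k)`. By induction `ν σ = (σ Y₁ / Y₁) * s ^ (2 ^ k)`; take
`Y = Y₀ * Y₁ ^ 2`. -/
def S_TS : Prop :=
  ∀ (F : Type) [Field F] [Finite F] [CharP F 2] (k : ℕ) (μ : (Kgeo F).fixingSubgroup → Kgs F),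
    IsLocallyConstant μ → (∀ σ, μ σ ≠ 0) →
    (∀ σ τ : (Kgeo F).fixingSubgroup,
      EqN (2 ^ k) (μ (σ * τ)) (μ σ * (σ : Gal(Kgs F/RatFunc F)) (μ τ))) →
    ∃ Y : Kgs F, Y ≠ 0 ∧ ∀ σ : (Kgeo F).fixingSubgroup,
      EqN (2 ^ k) (μ σ) ((σ : Gal(Kgs F/RatFunc F)) Y / Y)

/-- **Rho** (150 lines, uses `S_FrG`, `S_H90`, `S_TS`). The value at a Frobenius element.

Proof. `S_TS` for the restriction of `μ` to `H` gives `Y`. Let `ρ' = μ Fr * Y / Fr Y`. For `τ ∈ H` let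
`τ'' = Fr⁻¹ τ Fr ∈ H` (the constants are stable under all automorphisms, and `Fr` acts on them as
`x ↦ x ^ q`, which commutes with everything). Then
`μ (τ Fr) ≡ μ τ * τ (μ Fr) ≡ (τ Y / Y) * τ (Fr Y / Y) * τ ρ' = (τ Fr Y / Y) * τ ρ'` and
`μ (Fr τ'') ≡ μ Fr * Fr (μ τ'') ≡ (Fr Y / Y) * ρ' * Fr (τ'' Y / Y) = (Fr τ'' Y / Y) * ρ'`; so `τ ρ' ≡ ρ'`:
`τ ρ' = ρ' * s_τ ^ N` with a unique `s_τ ≠ 0`, locally constant in `τ`, and
`σ τ ρ' = ρ' * s_σ ^ N * σ (s_τ) ^ N` gives `s_{σ τ} = s_σ * σ s_τ`. By `S_H90` (`E = Kgeo F`)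
`s_τ = τ y / y`, and `ρ = ρ' / y ^ N` is fixed by `H`, so `ρ ∈ Kgeo F`
(`InfiniteGalois.fixedField_fixingSubgroup`). -/
def S_Rho : Prop :=
  ∀ (F : Type) [Field F] [Finite F] [CharP F 2] (k : ℕ) (μ : Gal(Kgs F/RatFunc F) → Kgs F),
    NCoc (2 ^ k) μ → ∀ Fr : Gal(Kgs F/RatFunc F), IsFro (Nat.card F) (Nat.card F) Fr →
    ∃ Y ρ : Kgs F, Y ≠ 0 ∧ ρ ≠ 0 ∧ ρ ∈ Kgeo F ∧
      (∀ σ : Gal(Kgs F/RatFunc F), IsGeo (Nat.card F) σ → EqN (2 ^ k) (μ σ) (σ Y / Y)) ∧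
      EqN (2 ^ k) (μ Fr) (Fr Y / Y * ρ)

/-- **LvU** (120 lines, uses `S_Lc1`, `S_Lc2`, `S_Nr`, `S_H90`). Local invariants are unique modulo `N`.

Proof. Let `y, r` and `y', r'` be as in `LV`, and `Y = y / y'`. For geometric `g` (i.e. `g` fixes `Knr`,
`S_Nr` (6)): `g Y / Y = s_g ^ N` with a unique `s_g`, a locally constant crossed homomorphism; by
`S_H90` (`E = Knr v`) `s_g = g s / s`; so `b = Y / s ^ N` is fixed by all geometric `g` and `b ∈ Knr v`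
(`InfiniteGalois.fixedField_fixingSubgroup`). From the values at `g₀`: `r' / r = (g₀ Y / Y) * s₁ ^ N =
(g₀ b / b) * s₂ ^ N` with `s₂ = s₁ * g₀ s / s`. `g₀ b ∈ Knr v` (`g₀` permutes the constants), so
`s₂ ^ N ∈ Knr v` and `s₂ ∈ Knr v` (`S_Nr` (5)), `nm s₂ = v ϖ ^ n` (`S_Nr` (1)). As `nm (g₀ b) = nm b`,
`v ϖ ^ x' = v ϖ ^ x * v ϖ ^ (N n)`, and `0 < v ϖ < 1`. -/
def S_LvU : Prop :=
  ∀ (F : Type) [Field F] [Finite F] [CharP F 2] (v : AbsoluteValue (RatFunc F) ℝ) (d : ℕ)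
    (ϖ : RatFunc F) (R : Finset (RatFunc F)), LF v d ϖ R →
    ∀ (k : ℕ) (g₀ : Gal(Kvs v/v.Completion)) (μ : Gal(Kvs v/v.Completion) → Kvs v) (x x' : ℤ),
      LV v (2 ^ k) ϖ g₀ μ x → LV v (2 ^ k) ϖ g₀ μ x' → (2 ^ k : ℤ) ∣ x - x'

/-- **LvA** (120 lines, uses `S_Lc1`, `S_Lc2`). Rules for local invariants.

Proof. (1) `y y'`, `r r'`. (2) `y⁻¹`, `r⁻¹`. (3) `y ^ n`, `r ^ n`. (4) clear. (5) `y`, `r = 1`.
(6) `y ^ 2`, `r ^ 2`: `(b s ^ N) ^ 2 = b ^ 2 s ^ (2 N)`. (7) the same `y`, `r`: a `2 ^ (k + j)`-th power is a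
`2 ^ k`-th power. `nm` is multiplicative (`S_Lc2`). -/
def S_LvA : Prop :=
  ∀ (F : Type) [Field F] [Finite F] [CharP F 2] (v : AbsoluteValue (RatFunc F) ℝ) (d : ℕ)
    (ϖ : RatFunc F) (R : Finset (RatFunc F)), LF v d ϖ R →
    ∀ (k : ℕ) (g₀ : Gal(Kvs v/v.Completion)) (μ μ' : Gal(Kvs v/v.Completion) → Kvs v) (x x' : ℤ),
      (LV v (2 ^ k) ϖ g₀ μ x → LV v (2 ^ k) ϖ g₀ μ' x' →
        LV v (2 ^ k) ϖ g₀ (fun g => μ g * μ' g) (x + x')) ∧
      (LV v (2 ^ k) ϖ g₀ μ x → LV v (2 ^ k) ϖ g₀ (fun g => (μ g)⁻¹) (-x)) ∧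
      (∀ n : ℕ, LV v (2 ^ k) ϖ g₀ μ x → LV v (2 ^ k) ϖ g₀ (fun g => μ g ^ n) (n * x)) ∧
      ((∀ g, EqN (2 ^ k) (μ' g) (μ g)) → LV v (2 ^ k) ϖ g₀ μ x → LV v (2 ^ k) ϖ g₀ μ' x) ∧
      (∀ y : Kvs v, y ≠ 0 → LV v (2 ^ k) ϖ g₀ (fun g => g y / y) 0) ∧
      (LV v (2 ^ k) ϖ g₀ μ x → LV v (2 ^ (k + 1)) ϖ g₀ (fun g => μ g ^ 2) (2 * x)) ∧
      ∀ j : ℕ, LV v (2 ^ (k + j)) ϖ g₀ μ x → LV v (2 ^ k) ϖ g₀ μ x

/-- **Val** (250 lines, uses `S_Lc1`, `S_Lc2`, `S_Nr`, `S_FrG`, `S_Res`, `S_Rho`). The local invariants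
of a global crossed homomorphism.

Proof. (1) `r g = rsH ι g` is the restriction of `g` along `ι` (`S_Res`: `g (ι x) = ι (r g x)`). If `g` is
geometric then `r g` is (`S_FrG` (5)), so with `y = ι Y`: `ι (μ (r g)) ≡ ι (r g Y / Y) = g y / y`. `r g₀`
acts on the constants as `x ↦ x ^ (q ^ d)` (`S_FrG` (5)), so `τ' = Fr ^ (- d) * r g₀` is geometric. By
induction on `i`: `μ (Fr ^ i) ≡ (Fr ^ i Y / Y) * ∏_{j < i} Fr ^ j ρ` (`μ 1 ≡ 1` from
`μ 1 ≡ μ 1 * μ 1`; `μ (Fr * Fr ^ i) ≡ μ Fr * Fr (μ (Fr ^ i))`). So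
`μ (r g₀) = μ (Fr ^ d * τ') ≡ μ (Fr ^ d) * Fr ^ d (τ' Y / Y) ≡ (r g₀ Y / Y) * ∏_{j < d} Fr ^ j ρ`. Put
`r = ι (∏_{j < d} Fr ^ j ρ)`; it is in `Knr v`, since `ι` maps the constants to constants and `K` to
`K_v`, and `Fr` maps `Kgeo F` to itself. (2) By `S_Rho` (a Frobenius element exists by `S_FrG` (2)) and
(1): the `x` exists by `S_Nr` (1) (the product is a nonzero element of `Knr v`). -/
def S_Val : Prop :=
  ∀ (F : Type) [Field F] [Finite F] [CharP F 2] (k : ℕ) (μ : Gal(Kgs F/RatFunc F) → Kgs F),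
    NCoc (2 ^ k) μ → ∀ (v : AbsoluteValue (RatFunc F) ℝ) (d : ℕ) (ϖ : RatFunc F)
      (R : Finset (RatFunc F)), LF v d ϖ R → ∀ (ι : Kgs F →ₐ[RatFunc F] Kvs v)
      (g₀ : Gal(Kvs v/v.Completion)), IsFro (Nat.card F) (Nat.card F ^ d) g₀ →
    (∀ (Y ρ : Kgs F) (Fr : Gal(Kgs F/RatFunc F)), Y ≠ 0 → ρ ≠ 0 → ρ ∈ Kgeo F →
      IsFro (Nat.card F) (Nat.card F) Fr →
      (∀ σ : Gal(Kgs F/RatFunc F), IsGeo (Nat.card F) σ → EqN (2 ^ k) (μ σ) (σ Y / Y)) →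
      EqN (2 ^ k) (μ Fr) (Fr Y / Y * ρ) →
      ∀ x : ℤ, nm v (∏ i ∈ Finset.range d, ι ((Fr ^ i) ρ)) = v ϖ ^ x →
        LV v (2 ^ k) ϖ g₀ (lcl ι μ) x) ∧
    ∃ x : ℤ, LV v (2 ^ k) ϖ g₀ (lcl ι μ) x

/-- **Cfr** (150 lines, uses `S_Cst`, `S_FrG`). The constants and the monic irreducible polynomials.
`P(c) = P.eval₂ (cF F) c`.

Proof. (1) `c ^ (q ^ n) = c`; the elements of `F` satisfy `a ^ q = a`; `c` is a root of the polynomial
`X ^ (q ^ n) - X ∈ F[X]`, so of one of its monic irreducible factors. (2) Two different monic irreducible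
polynomials are coprime, `a P + b P' = 1`. (3) Let `P(c) = 0`, `d = deg P`. `c` is a root of
`P`, so the field `F(c)` has degree `d` over `F` and `q ^ d` elements, `c ^ (q ^ d) = c`, and the
`c ^ (q ^ i)`, `i < d`, are different (if `c ^ (q ^ i) = c ^ (q ^ j)`, `i < j < d`, then
`c ^ (q ^ (j - i)) = c` by injectivity of the Frobenius, so all elements of `F(c)` satisfy
`x ^ (q ^ (j - i)) = x`, too many roots). They are roots of `P` (`P(c) ^ q = P(c ^ q)`), so they are all the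
roots, and `P = ∏_{i < d} (X - c ^ (q ^ i))`. (Mathlib: `GaloisField`/`FiniteField`,
`minpoly`, `AdjoinRoot`.) (4) `P(c) ^ (q ^ i) = P(c ^ (q ^ i)) = 0`. -/
def S_Cfr : Prop :=
  ∀ (F : Type) [Field F] [Finite F] [CharP F 2],
    (∀ c ∈ Cst (Nat.card F) (Kgs F), ∃ P : F[X], P.Monic ∧ Irreducible P ∧
      P.eval₂ (cF F) c = 0) ∧
    (∀ (P P' : F[X]) (c : Kgs F), P.Monic → Irreducible P → P'.Monic → Irreducible P' →
      P.eval₂ (cF F) c = 0 → P'.eval₂ (cF F) c = 0 → P = P') ∧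
    (∀ P : F[X], P.Monic → Irreducible P → ∃ c ∈ Cst (Nat.card F) (Kgs F),
      P.eval₂ (cF F) c = 0) ∧
    (∀ (P : F[X]) (c : Kgs F), P.Monic → Irreducible P → P.eval₂ (cF F) c = 0 →
      c ∈ Cst (Nat.card F) (Kgs F) ∧
      (∀ i < P.natDegree, ∀ j < P.natDegree, c ^ (Nat.card F) ^ i = c ^ (Nat.card F) ^ j → i = j) ∧
      P.map (cF F) = ∏ i ∈ Finset.range P.natDegree, (X - C (c ^ (Nat.card F) ^ i))) ∧
    ∀ (P : F[X]) (c : Kgs F) (i : ℕ), P.eval₂ (cF F) (c ^ (Nat.card F) ^ i) = 0 →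
      P.eval₂ (cF F) c = 0

/-- **Dpl** (120 lines, uses `S_LfP`, `S_LfI`, `S_Lc1`, `S_Lc2`, `S_Cst`, `S_FrG`, `S_Cfr`). The norms
of `t - c`.

Proof. (1) `nm (ι t) = v t > 1` and `nm (ι c) ≤ 1`; ultrametric. (2) By `S_Cfr` (3), (4)
`P(t) = ∏_{i < d} (t - c ^ (q ^ i))` for a root `c`; the norms of the factors are at most `1`
(`v t ≤ 1`) and their product is `v P = 1 / 2 < 1`, so some factor has norm less than `1`; let `c₀` be
this root of `P`. For a constant `c ≠ c₀`: `t - c = (t - c₀) + (c₀ - c)`, and `c₀ - c` is a nonzero constant,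
of norm `1`; so `nm (t - c) = 1`. In particular the other factors have norm `1`, and
`nm (t - c₀) = v P`. -/
def S_Dpl : Prop :=
  ∀ (F : Type) [Field F] [Finite F] [CharP F 2] (v : AbsoluteValue (RatFunc F) ℝ)
    (ι : Kgs F →ₐ[RatFunc F] Kvs v),
    (IsPl none v → ∀ c ∈ Cst (Nat.card F) (Kgs F), nm v (ι (tt F - c)) = v RatFunc.X) ∧
    ∀ P : F[X], IsPl (some P) v → ∃ c₀ ∈ Cst (Nat.card F) (Kgs F), P.eval₂ (cF F) c₀ = 0 ∧
      nm v (ι (tt F - c₀)) = v (algebraMap F[X] (RatFunc F) P) ∧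
      ∀ c ∈ Cst (Nat.card F) (Kgs F), c ≠ c₀ → nm v (ι (tt F - c)) = 1

/-- **Rec** (300 lines, uses `S_LfP`, `S_LfI`, `S_Lc1`, `S_Lc2`, `S_Cst`, `S_FrG`, `S_Gst`, `S_Rho`,
`S_LvU`, `S_Val`, `S_Cfr`, `S_Dpl`). THE RECIPROCITY LAW.

Proof. Let `Fr`, `Y`, `ρ` be as in `S_FrG` (2), `S_Rho`, and `ρ = a ∏_{c ∈ T} (t - c) ^ (n c)` (`S_Gst` (1)).
For a monic irreducible `P` let `s_P` be the sum of the `n c`, `c ∈ T`, `P(c) = 0`. Let `v` be the place of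
`P`, `d = deg P`, `ϖ = P`. `Fr ^ i ρ = a ^ (q ^ i) ∏ (t - c ^ (q ^ i)) ^ (n c)`, so by `S_Dpl`
`nm (∏_{i < d} ι (Fr ^ i ρ)) = v ϖ ^ (∑_c n c * #{i < d | c ^ (q ^ i) = c₀})`. If `P(c) = 0` this number of
`i` is `1` (`S_Cfr` (4): `c₀` is one of the `c ^ (q ^ i)`, which are different), and it is `0` otherwise
(`S_Cfr` (5)). So by `S_Val` (1) `s_P` is a local invariant at `P`. At infinity (`d = 1`, `ϖ = 1 / t`)
`nm (ι ρ) = v t ^ (∑ n c) = v ϖ ^ (- ∑ n c)`. By `S_LvU` and the hypotheses `N ∣ s_P` for `P ∉ PP`, `x w ≡ s_P`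
modulo `N` for `w = some P`, `x none ≡ - ∑ n c`. By `S_Cfr` (1), (2) every `c ∈ T` is a root of exactly one
`P`, so `∑ n c` is the sum of the `s_P` over the finitely many `P` with a root in `T`; the sum of
all the `x w` is congruent to `- ∑_{P ∉ PP} s_P ≡ 0`. -/
def S_Rec : Prop :=
  ∀ (F : Type) [Field F] [Finite F] [CharP F 2] (PP : Finset F[X]),
    (∀ P ∈ PP, P.Monic ∧ Irreducible P) → ∀ (k : ℕ) (μ : Gal(Kgs F/RatFunc F) → Kgs F),
    NCoc (2 ^ k) μ →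
    (∀ P : F[X], P.Monic → Irreducible P → P ∉ PP → ∃ v, IsPl (some P) v ∧
      ∃ (ι : Kgs F →ₐ[RatFunc F] Kvs v) (g₀ : Gal(Kvs v/v.Completion)),
        IsFro (Nat.card F) (Nat.card F ^ P.natDegree) g₀ ∧
        ∃ x : ℤ, LV v (2 ^ k) (algebraMap F[X] (RatFunc F) P) g₀ (lcl ι μ) x ∧
          (2 ^ k : ℤ) ∣ x) →
    ∀ (av : Option PP → AbsoluteValue (RatFunc F) ℝ),
      (∀ w, IsPl (w.map Subtype.val) (av w)) →
    ∀ (ι : ∀ w, Kgs F →ₐ[RatFunc F] Kvs (av w))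
      (g₀ : ∀ w, Gal(Kvs (av w)/(av w).Completion)),
      (∀ w, IsFro (Nat.card F) (Nat.card F ^ dgP (w.map Subtype.val)) (g₀ w)) →
    ∀ x : Option PP → ℤ,
      (∀ w, LV (av w) (2 ^ k) (unP (w.map Subtype.val)) (g₀ w) (lcl (ι w) μ) (x w)) →
      (2 ^ k : ℤ) ∣ ∑ w, x w

/-- **Rgo** (80 lines, uses `S_Twb`, `S_Res`, `S_Asr`, `S_Hlo`). The restriction homomorphisms.

Proof. `Om / K` is Galois (`S_Twb` (5), with `A = AS PP`), `rG` is the restriction homomorphism (`S_Res`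
for the embedding of `Om` in `K^s`). `rG (rsH ι g)` and `rOm ι g` are both restrictions of `g` along
`ι ∘ val`: `g (ι x) = ι (rsH ι g x) = ι (rG (rsH ι g) x)` for `x ∈ Om`; uniqueness in `S_Res` (3). The last
statement is the definition of `mz`, `lz`, `lcl`. -/
def S_Rgo : Prop :=
  ∀ (F : Type) [Field F] [Finite F] [CharP F 2] (PP : Finset F[X]),
    (∀ P ∈ PP, P.Monic ∧ Irreducible P) →
    Continuous (rG PP) ∧
    (∀ (σ : Gal(Kgs F/RatFunc F)) (x : Om (AS PP) (RatFunc F) (Kgs F)),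
      σ (x : Kgs F) = ((rG PP σ) x : Om (AS PP) (RatFunc F) (Kgs F))) ∧
    (∀ (v : AbsoluteValue (RatFunc F) ℝ) (ι : Kgs F →ₐ[RatFunc F] Kvs v)
      (g : Gal(Kvs v/v.Completion)), rG PP (rsH (M := v.Completion) ι g) = rOm (PP := PP) ι g) ∧
    ∀ (v : AbsoluteValue (RatFunc F) ℝ) (ι : Kgs F →ₐ[RatFunc F] Kvs v) (k : ℕ) (u : Kgs F)
      (z : GS PP → ZMod (2 ^ k)), lcl ι (mz u z) = lz ι u z

/-- **Exp** (100 lines). Exponents modulo `N = 2 ^ k`.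

Proof. If `m ≡ n` modulo `N` then `u ^ m ≡ u ^ n` (`u ^ (n + N j) = u ^ n * (u ^ j) ^ N`). The residues
`(a + b).val`, `a.val + b.val` are congruent modulo `N`, etc. (`ZMod.val_add`, `ZMod.val_mul`,
`ZMod.natCast_zmod_val`). -/
def S_Exp : Prop :=
  ∀ (L : Type) [Field L] (k : ℕ) (u : L), u ≠ 0 →
    (∀ a b : ZMod (2 ^ k), EqN (2 ^ k) (u ^ (a + b).val) (u ^ a.val * u ^ b.val)) ∧
    (∀ a b : ZMod (2 ^ k), EqN (2 ^ k) (u ^ (a * b).val) ((u ^ a.val) ^ b.val)) ∧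
    (∀ n : ℕ, EqN (2 ^ k) (u ^ ((n : ZMod (2 ^ k))).val) (u ^ n)) ∧
    (∀ m n : ℕ, (m : ZMod (2 ^ k)) = n → EqN (2 ^ k) (u ^ m) (u ^ n)) ∧
    (∀ a : ZMod (2 ^ (k + 1)), EqN (2 ^ k) (u ^ a.val) (u ^ (rdK k a).val)) ∧
    (∀ (u' : L) (n : ℕ), EqN (2 ^ k) u u' → EqN (2 ^ k) (u ^ n) (u' ^ n)) ∧
    ∀ a b c : L, EqN (2 ^ k) a b → b ≠ 0 → (EqN (2 ^ k) b a ∧ (EqN (2 ^ k) b c →
      EqN (2 ^ k) a c))

/-- **Mu** (120 lines, uses `S_Rgo`, `S_Exp`). `u ^ z` is a crossed homomorphism modulo `N`-th powers.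

Proof. `μ σ = u ^ (z (rG σ)).val`: `loc`: `rG` is continuous. With `a = rG σ`, `b = rG τ`:
`μ σ * σ (μ τ) = u ^ (z a).val * (σ u) ^ (z b).val ≡ u ^ (z a).val * (u ^ (χ a).val) ^ (z b).val ≡
u ^ (z a + χ a * z b).val = u ^ (z (a b)).val`. -/
def S_Mu : Prop :=
  ∀ (F : Type) [Field F] [Finite F] [CharP F 2] (PP : Finset F[X]),
    (∀ P ∈ PP, P.Monic ∧ Irreducible P) → ∀ (k : ℕ) (χ z : GS PP → ZMod (2 ^ k)) (u : Kgs F),
    u ≠ 0 → (∀ σ : Gal(Kgs F/RatFunc F), EqN (2 ^ k) (σ u) (u ^ (χ (rG PP σ)).val)) →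
    Coc (fun g x => χ g * x) z → NCoc (2 ^ k) (mz u z)

/-- **Onr** (120 lines, uses `S_LfP`, `S_Lc1`, `S_Lc2`, `S_Cst`, `S_Nr`, `S_Twb`, `S_Res`, `S_Asr`).
`Om` is unramified outside `PP` and infinity.

Proof. (1) By `S_Twb` (2) it suffices to show `ι(M) ⊂ Knr v` for every tower `M`; induction. `⊥`: `K` maps to
`K_v`. Step: `θ ^ 2 + θ = m ∈ M`, `m` integral over `AS PP`; `ι m ∈ Knr v`, and `nm (ι m) ≤ 1`, since the
elements of `AS PP` have absolute value at most `1` at `P ∉ PP` (`S_Asr` (4)) and `nm` is multiplicative and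
ultrametric (an integral equation with coefficients of norm at most `1`). By `S_Nr` (3) there is
`θ' ∈ Knr v` with `θ' ^ 2 + θ' = ι m`, and `ι θ = θ'` or `θ' + 1`. So `ι(M(θ)) ⊂ Knr v`. (2) a geometric `g`
is trivial on `Knr v` (`S_Nr` (6)), so its restriction `rOm ι g` is trivial (`S_Res` (3)). -/
def S_Onr : Prop :=
  ∀ (F : Type) [Field F] [Finite F] [CharP F 2] (PP : Finset F[X]),
    (∀ P ∈ PP, P.Monic ∧ Irreducible P) →
    ∀ (P : F[X]) (v : AbsoluteValue (RatFunc F) ℝ), P ∉ PP → IsPl (some P) v →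
    ∀ ι : Kgs F →ₐ[RatFunc F] Kvs v,
      (∀ x ∈ Om (AS PP) (RatFunc F) (Kgs F), ι x ∈ Knr v) ∧
      ∀ g : Gal(Kvs v/v.Completion), IsGeo (Nat.card F) g → rOm (PP := PP) ι g = 1

/-- **LvP** (100 lines, uses `S_Av`, `S_LfP`, `S_Lc1`, `S_Lc2`, `S_Fr`, `S_Rgo`, `S_Exp`, `S_Onr`).
The local invariants of `u ^ z` outside `PP` and infinity.

Proof. Take `v` from `S_Av`, an embedding `ι : K^s → Kvs v` (`IsSepClosed.lift`), `g₀` from `S_Fr` (1).
`lcl ι (mz u z) = lz ι u z` (`S_Rgo` (4)). For geometric `g`: `rOm ι g = 1` (`S_Onr`), `z 1 = 0` (crossed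
homomorphism), so the value is `1 = g 1 / 1`. At `g₀`: let `r, x` be as in `Adm.unr`; with
`n = (z (rOm ι g₀)).val` the value is `(ι u) ^ n ≡ r ^ n`, of norm `v P ^ (n x)`. So `n x` is a local
invariant (with `y = 1`), divisible by `N`. -/
def S_LvP : Prop :=
  ∀ (F : Type) [Field F] [Finite F] [CharP F 2] (PP : Finset F[X]),
    (∀ P ∈ PP, P.Monic ∧ Irreducible P) → ∀ (k : ℕ) (χ z : GS PP → ZMod (2 ^ k)) (u : Kgs F),
    Adm PP k χ u → Coc (fun g x => χ g * x) z →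
    ∀ P : F[X], P.Monic → Irreducible P → P ∉ PP → ∃ v, IsPl (some P) v ∧
      ∃ (ι : Kgs F →ₐ[RatFunc F] Kvs v) (g₀ : Gal(Kvs v/v.Completion)),
        IsFro (Nat.card F) (Nat.card F ^ P.natDegree) g₀ ∧
        ∃ x : ℤ, LV v (2 ^ k) (algebraMap F[X] (RatFunc F) P) g₀ (lcl ι (mz u z)) x ∧
          (2 ^ k : ℤ) ∣ x

/-- **Zex** (200 lines, uses `S_Uni`, `S_Lin`). The crossed homomorphisms `z w` exist.

Proof. `ρ g x = χ g * x` is of type `Act2`. Abbreviation: a datum is a family of crossed homomorphisms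
`Zw w` on the `W w` and a value at `φ none`; by `S_Uni` it has a unique solution. `w = none`: the
solution for the data `0`, `1`. `w = some v₀` (`k ≥ 1`; for `k = 0` everything is trivial): (i) lifting:
every `Hom2` `H` on `G` is the reduction modulo `2` of a crossed homomorphism `z̃ : G → ZMod (2 ^ k)` for `χ`:
induction on `k`: let `z'` be a lift modulo `2 ^ k`, `z''` its composition with a section
`ZMod (2 ^ k) → ZMod (2 ^ (k + 1))`; the defect `z'' (g h) - z'' g - χ g * z'' h` is in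
`2 ^ k ZMod (2 ^ (k + 1)) ≅ ZMod 2` and a cocycle, so by `H2Z` it is a coboundary and `z''` can be
corrected (as in `S_Uni`). (ii) By `A.ax1` (`w = none ≠ some v₀`) there is `δ ∈ A.𝔇 none e` with
`A.h δ (A.φ (some v₀)) = 1`, and `A.h δ = 0` on `A.W (some v₀)` by `A.off`. Let `z̃` be a lift of `A.h δ`, and
`Z` the solution for the data `z̃` on `W w'` for `w' ≠ some v₀`, `0` on `W (some v₀)`, `z̃ (φ none)` at `φ none`.
Modulo `2` both `Z` and `A.h δ` have the same data, so they agree modulo `2` (uniqueness in `S_Uni` for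
`M = ZMod 2`, or `A.uex`). So `Z (φ (some v₀))` is odd, a unit `c`; take `c⁻¹ * Z`. -/
def S_Zex : Prop :=
  ∀ (G : Type) [Group G] [TopologicalSpace G] [IsTopologicalGroup G] (ι : Type) [Fintype ι]
    [DecidableEq ι] (X : Type) [AddCommGroup X] (A : Fam G ι X), A.Good →
    ∀ (k : ℕ) (χ : G → ZMod (2 ^ k)), Chr χ → ∀ w : Option ι,
      ∃ z : G → ZMod (2 ^ k), Coc (fun g x => χ g * x) z ∧ (∀ g ∈ A.W w, z g = 0) ∧
        z (A.φ w) = 1

/-- **Loc** (120 lines, uses `S_Uni`, `S_Sep`, `S_Rgo`, `S_Hlo`). A crossed homomorphism on `GS PP` is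
determined on the local Galois group by its values on `W w` and at `φ w`.

Proof. On `Γ = Gal(Kvs/K_v)` (`v = A.av w`) the functions `z ∘ rOm`, `z' ∘ rOm` are locally constant
crossed homomorphisms for the character `χ ∘ rOm` (`rOm` is a continuous homomorphism, `S_Hlo` (3)); `UEx`
holds for `A.W w`, `A.φ w` (`A.Ok.uex`), `H2Z` by `S_Sep`; use the uniqueness in `S_Uni` (the operators
`x ↦ χ (rOm g) * x` are of type `Act2`). -/
def S_Loc : Prop :=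
  ∀ (F : Type) [Field F] [Finite F] [CharP F 2] (κ : F) (PP : Finset F[X]),
    (∀ P ∈ PP, P.Monic ∧ Irreducible P) → ∀ A : Dat F PP, A.Ok κ →
    ∀ (k : ℕ) (χ : GS PP → ZMod (2 ^ k)), Chr χ → ∀ z z' : GS PP → ZMod (2 ^ k),
      Coc (fun g x => χ g * x) z → Coc (fun g x => χ g * x) z' → ∀ w : Option PP,
      (∀ g ∈ (famC κ A).W w, z g = z' g) → z ((famC κ A).φ w) = z' ((famC κ A).φ w) →
      ∀ g : Gal(Kvs (A.av w)/(A.av w).Completion),
        z (rOm (PP := PP) (A.emb w) g) = z' (rOm (PP := PP) (A.emb w) g)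

/-- **Dec** (200 lines, uses `S_Lin`, `S_Goo`, `S_Loc`). The local decomposition of the half of `Zf`.

Proof. `hf K` is additive on even elements, `hf K (c * x) = rdK K c * hf K x` for even `x`, and
`2 x = 0` iff .. (`x = 2 y` with `y ∈ ZMod (2 ^ (K + 1))`: `hf K (2 y) = rdK K y`). `1 - χ g` is even (`χ g`
is a unit of a ring whose units are odd, if `K + 1 ≥ 1`), so `λ g = hf K (1 - χ g)` is a crossed
homomorphism for `rdK K ∘ χ`: `1 - χ (g h) = (1 - χ g) + χ g (1 - χ h)`. `Z = Zf W φ χ a` is a crossed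
homomorphism with even values: the reduction modulo `2` is a solution for the data `0` (`S_Lin` (5),
(2)), or: it is a `Hom2` which is `0` on the `W w` and at `φ none`. So `z = hf K ∘ Z` is a
crossed homomorphism for `rdK K ∘ χ`, `z = rdK (a w) * λ` on `W w`, and
`z (φ w) = rdK (a w) * λ (φ w) + hf K (T w)`, where `T w = Tv W φ χ a v` for `w = some v` and `T none = 0`. The
function `rdK (a w) * λ + hf K (T w) * z w` is a crossed homomorphism with the same values on `W w` and at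
`φ w`; use `S_Loc`. -/
def S_Dec : Prop :=
  ∀ (F : Type) [Field F] [Finite F] [CharP F 2] (κ : F), eps κ = 1 → ∀ (PP : Finset F[X]),
    (∀ P ∈ PP, P.Monic ∧ Irreducible P) → ∀ A : Dat F PP, A.Ok κ →
    ∀ (K : ℕ) (χ : GS PP → ZMod (2 ^ (K + 1))), Chr χ →
      Coc (fun g x => rdK K (χ g) * x) (fun g => hf K (1 - χ g)) ∧
      ∀ a : Option PP → ZMod (2 ^ (K + 1)),
        Coc (fun g x => rdK K (χ g) * x)
          (fun g => hf K (Zf (famC κ A).W (famC κ A).φ χ a g)) ∧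
        ∀ z : Option PP → GS PP → ZMod (2 ^ K), IsZw κ A K (fun g => rdK K (χ g)) z →
          ∀ (w : Option PP) (g : Gal(Kvs (A.av w)/(A.av w).Completion)),
            hf K (Zf (famC κ A).W (famC κ A).φ χ a (rOm (PP := PP) (A.emb w) g)) =
              rdK K (a w) * hf K (1 - χ (rOm (PP := PP) (A.emb w) g)) +
              (match w with
                | none => 0
                | some v => hf K (Tv (famC κ A).W (famC κ A).φ χ a v)) *
                z w (rOm (PP := PP) (A.emb w) g)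

/-- **Or1** (200 lines, uses `S_LfP`, `S_LfI`, `S_Lc1`, `S_Lc2`, `S_LvU`, `S_LvA`, `S_Val`, `S_Rec`,
`S_Rgo`, `S_Exp`, `S_Mu`, `S_LvP`, `S_Dec`). Orthogonality.

Proof. Let `z = hf K ∘ Zf χ a`, `μ = mz u z`, an `NCoc (2 ^ K)` (`S_Mu`, `S_Dec`), `x w` its local invariants
(`S_Val` (2)). By `S_Rec` (with `S_LvP`) `N ∣ ∑ x w`, `N = 2 ^ K`. At `w`: `lcl ι μ = lz ι u z`, and by `S_Dec`,
`S_Exp` its values are `≡ (lz ι u λ) ^ ((rdK (a w)).val) * (lz ι u (z w)) ^ ((hf K (T w)).val)`. The local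
invariants `ℓ` of `lz ι u λ` (they exist by `S_Val`, `λ` is a crossed homomorphism) are divisible by `N`
(`Iso`); so by `S_LvA` (1), (3), (4) and `S_LvU` `x w ≡ (hf K (T w)).val * θ w` modulo `N`. For `w = none` this
is `0`. So `∑_{v ∈ PP} (hf K (T v)).val * θ (some v) ≡ 0` modulo `N`. Finally `T v` is even, so
`T v = 2 * (hf K (T v)).val` in `ZMod (2 ^ (K + 1))`, and for `θ' v` with `rdK (θ' v) = θ (some v)`:
`∑ θ' v * T v = 2 * ∑ θ' v * (hf K (T v)).val`, which is `0` as the sum is `0` modulo `2 ^ K`. -/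
def S_Or1 : Prop :=
  ∀ (F : Type) [Field F] [Finite F] [CharP F 2] (κ : F), eps κ = 1 → ∀ (PP : Finset F[X]),
    (∀ P ∈ PP, P.Monic ∧ Irreducible P) → ∀ A : Dat F PP, A.Ok κ →
    ∀ g₀, IsG0 A g₀ → ∀ (K : ℕ) (χ : GS PP → ZMod (2 ^ (K + 1))), Chr χ →
    ∀ z : Option PP → GS PP → ZMod (2 ^ K), IsZw κ A K (fun g => rdK K (χ g)) z →
    ∀ u : Kgs F, Adm PP K (fun g => rdK K (χ g)) u → Iso A g₀ K χ u →
    ∀ θ : Option PP → ℤ, (∀ w, LVw A g₀ K w (lz (A.emb w) u (z w)) (θ w)) →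
    ∀ θ' : PP → ZMod (2 ^ (K + 1)), (∀ v : PP, rdK K (θ' v) = (θ (some v) : ZMod (2 ^ K))) →
    ∀ a, ∑ v : PP, θ' v * Tv (famC κ A).W (famC κ A).φ χ a v = 0

/-- **Or2** (150 lines, uses `S_Uni`, `S_LfP`, `S_LfI`, `S_Lc1`, `S_Lc2`, `S_LvU`, `S_LvA`, `S_Val`,
`S_Rec`, `S_Rgo`, `S_Exp`, `S_Mu`, `S_LvP`, `S_Loc`, `S_Goo`). The invariant at infinity.

Proof. By `S_Uni` (`S_Goo` gives `UEx` and `H2Z`) there is a crossed homomorphism `b` for `χ`, `0` on all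
`W w`, with `b (φ none) = 1`. By `S_Loc` `b ∘ rOm = b (φ w) * z w ∘ rOm` on the local Galois group at `w` (both
vanish on `W w` and agree at `φ w`). So the local invariant of `mz u b` at `w` is `≡ (b (φ w)).val * θ w`
(`S_Exp`, `S_LvA` (3), (4), `S_LvU`): it is `≡ 0` for `w ∈ PP` and `≡ θ none` for `w = none`. By `S_Rec`
(`S_Mu`, `S_LvP`, existence of the invariants by `S_Val` (2)) `N ∣ θ none`. -/
def S_Or2 : Prop :=
  ∀ (F : Type) [Field F] [Finite F] [CharP F 2] (κ : F), eps κ = 1 → ∀ (PP : Finset F[X]),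
    (∀ P ∈ PP, P.Monic ∧ Irreducible P) → ∀ A : Dat F PP, A.Ok κ →
    ∀ g₀, IsG0 A g₀ → ∀ (K : ℕ) (χ : GS PP → ZMod (2 ^ K)), Chr χ →
    ∀ z : Option PP → GS PP → ZMod (2 ^ K), IsZw κ A K χ z →
    ∀ u : Kgs F, Adm PP K χ u →
    ∀ θ : Option PP → ℤ, (∀ w, LVw A g₀ K w (lz (A.emb w) u (z w)) (θ w)) →
    (∀ v : PP, (2 ^ K : ℤ) ∣ θ (some v)) → (2 ^ K : ℤ) ∣ θ none

/-- **Sqe** (100 lines, uses `S_Av`). An element of `K` with even valuations at all finite places is a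
square.

Proof. Let `g = a / b` with `a, b` coprime polynomials. For a monic irreducible `P` let `v` be its absolute
value (`S_Av`): `v g = (1 / 2) ^ (m(a) - m(b))` with the multiplicities `m`, so `m(a) - m(b)` is even, and
one of them is `0`; so both are even. So `a b = c h ^ 2` with a constant `c` (unique factorization), which is
a square (`F` is finite of characteristic two), and `g = a b / b ^ 2`. -/
def S_Sqe : Prop :=
  ∀ (F : Type) [Field F] [Finite F] [CharP F 2] (g : RatFunc F), g ≠ 0 →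
    (∀ (P : F[X]) (v : AbsoluteValue (RatFunc F) ℝ), IsPl (some P) v →
      ∃ n : ℤ, v g = v (algebraMap F[X] (RatFunc F) P) ^ (2 * n)) → ∃ h : RatFunc F, g = h ^ 2

/-- **Adm** (250 lines, uses `S_Av`, `S_LfP`, `S_LfI`, `S_Lc1`, `S_Lc2`, `S_Nr`, `S_Fr`, `S_Has`, `S_Eps`,
`S_Hlo`, `S_H90`, `S_LvU`, `S_LvA`, `S_Val`, `S_Rgo`, `S_Exp`, `S_Mu`, `S_Sqe`). The first step of the
injectivity: `u` is a square.

Proof. (i) The values of `χ` are odd (units of `ZMod (2 ^ (K + 1))`), so `σ u = u * s_σ ^ 2` with a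
unique `s_σ`, a locally constant crossed homomorphism; by `S_H90` (`E = ⊥`) `s_σ = σ y / y`, and
`g = u / y ^ 2` is fixed by all `σ`, so `g ∈ K`. (ii) Let `P ∉ PP`, `v` its place, `ι` an embedding. By
`Adm.unr` `ι u = r * s ^ (2 ^ (K + 1))`, so `g = r * (s ^ (2 ^ K) / ι y) ^ 2`; by `S_Nr` (5) the element
`s ^ (2 ^ K) / ι y` is in `Knr v`, so `v g = nm r * nm(..) ^ 2 = v P ^ (x + 2 n)` with `x` even (`S_Nr` (1)).
(iii) Let `P ∈ PP`, `w = some P`, `v = A.av w`, `ι = A.emb w`. Let `‖f₁‖ ≤ 1`, `eps f₁ = 1` (`S_Eps` (3)). The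
reduction modulo `2` of `z w ∘ rOm` is a `Hom2` on the local Galois group (`χ` is odd), `0` on `A.W w` and
`1` at `A.φ w`, and so is `hAS f₁` (`A.Ok.wz`, `A.Ok.ph`); so they are equal (`A.Ok.uex`, uniqueness). By `S_Fr`
`hAS f₁` is `0` at the geometric elements and `1` at `g₀ w`. So the values of `lz ι u (z w)` are squares
at geometric elements, and at `g₀ w` the value is `≡ ι u ≡ g` modulo squares. So the integer `x₁` with
`v g = v P ^ x₁` is a local invariant modulo `2` (`y = 1`, `r = g`). A local invariant `x` modulo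
`2 ^ (K + 1)` of `lz ι u (z w) = lcl ι (mz u (z w))` exists (`S_Val` (2), `S_Mu`), by hypothesis
`2 ^ (K + 1) ∣ x`, and it is a local invariant modulo `2` (`S_LvA` (7)); so `x₁` is even (`S_LvU`).
(iv) So by `S_Sqe` `g` is a square, and `u = (h y) ^ 2`. -/
def S_Adm : Prop :=
  ∀ (F : Type) [Field F] [Finite F] [CharP F 2] (κ : F), eps κ = 1 → ∀ (PP : Finset F[X]),
    (∀ P ∈ PP, P.Monic ∧ Irreducible P) → ∀ A : Dat F PP, A.Ok κ →
    ∀ g₀, IsG0 A g₀ → ∀ (K : ℕ) (χ : GS PP → ZMod (2 ^ (K + 1))), Chr χ →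
    ∀ z : Option PP → GS PP → ZMod (2 ^ (K + 1)), IsZw κ A (K + 1) χ z →
    ∀ u : Kgs F, Adm PP (K + 1) χ u →
    (∀ (w : Option PP) (x : ℤ), LVw A g₀ (K + 1) w (lz (A.emb w) u (z w)) x →
      (2 ^ (K + 1) : ℤ) ∣ x) →
    ∃ u₁ : Kgs F, u = u₁ ^ 2

/-- **Inj** (250 lines, uses `S_LfP`, `S_LfI`, `S_Lc1`, `S_Lc2`, `S_Nr`, `S_LvU`, `S_LvA`, `S_Val`,
`S_Rgo`, `S_Exp`, `S_Mu`, `S_Adm`). Injectivity.

Proof by induction on `K` (for all `χ`, `z`, `u`). `K = 0`: `s = u`. Step to `K + 1`: by `S_Adm`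
`u = u₁ ^ 2`. Let `χ̄ = rdK K ∘ χ`, `z̄ = rdK K ∘ z`; `IsZw κ A K χ̄ z̄`. `Adm PP K χ̄ u₁`: `gal`:
`(σ u₁) ^ 2 = u₁ ^ (2 (χ σ).val) * s ^ (2 ^ (K + 1))`, so `σ u₁ = u₁ ^ (χ σ).val * s ^ (2 ^ K)` (injectivity of
the square), and use `S_Exp` (5). `unr`: `(ι u₁) ^ 2 = r * s ^ (2 ^ (K + 1))`, so `r = r₁ ^ 2` with
`r₁ = ι u₁ / s ^ (2 ^ K) ∈ Knr v` (`S_Nr` (5)), and `nm r₁ ^ 2 = v P ^ x` with `x = 2 ^ (K + 1) m` gives
`nm r₁ = v P ^ (2 ^ K m)`. Local invariants: let `x'` be a local invariant at `w` of `lz ι u₁ (z̄ w)` modulo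
`2 ^ K`. By `S_LvA` (6) `2 x'` is a local invariant modulo `2 ^ (K + 1)` of the square
`(ι u) ^ (z̄ w).val`, and `(z̄ w).val ≡ (z w).val` modulo `2 ^ K`, so `(ι u) ^ (z̄ w).val` and
`(ι u) ^ (z w).val` differ by a power of `(ι u) ^ (2 ^ K) = (ι u₁) ^ (2 ^ (K + 1))`; so (`S_LvA` (4)) `2 x'` is a
local invariant of `lz ι u (z w)`, hence divisible by `2 ^ (K + 1)` by hypothesis. By induction
`u₁ = s ^ (2 ^ K)`, `u = s ^ (2 ^ (K + 1))`. -/
def S_Inj : Prop :=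
  ∀ (F : Type) [Field F] [Finite F] [CharP F 2] (κ : F), eps κ = 1 → ∀ (PP : Finset F[X]),
    (∀ P ∈ PP, P.Monic ∧ Irreducible P) → ∀ A : Dat F PP, A.Ok κ →
    ∀ g₀, IsG0 A g₀ → ∀ (K : ℕ) (χ : GS PP → ZMod (2 ^ K)), Chr χ →
    ∀ z : Option PP → GS PP → ZMod (2 ^ K), IsZw κ A K χ z →
    ∀ u : Kgs F, Adm PP K χ u →
    (∀ (w : Option PP) (x : ℤ), LVw A g₀ K w (lz (A.emb w) u (z w)) x → (2 ^ K : ℤ) ∣ x) →
    EqN (2 ^ K) u 1

/-- **FCn** (250 lines, uses `S_LfP`, `S_LfI`, `S_Lc1`, `S_Lc2`, `S_LvU`, `S_LvA`, `S_Val`, `S_Rgo`,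
`S_Exp`, `S_Mu`, `S_DuK`, `S_Goo`, `S_Zex`, `S_Dec`, `S_Or1`, `S_Or2`, `S_Inj`). THE COUNT.

Proof. Let `χ̄ = rdK K ∘ χ` and `z w` as in `S_Zex` (for the family `famC κ A`, `Good` by `S_Goo`):
`IsZw κ A K χ̄ z`. For `u ∈ U` choose local invariants `θ_u w` of `lz (A.emb w) u (z w)` (`S_Mu`, `S_Val` (2),
`S_Rgo` (4)). The reductions `(θ_u (some v))_v ∈ PP → ZMod (2 ^ K)` lie in the set of `S_DuK`, by
`S_Or1`. If `u, u' ∈ U` have the same reductions then `u'' = u / u'` satisfies `Adm` (quotients: `gal`: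
`σ u / σ u' ≡ (u / u') ^ χ`; `unr`: `r / r'`, `x - x'`), and `θ_u w - θ_{u'} w` are local invariants of
`lz (A.emb w) u'' (z w)` (`S_LvA` (1), (2), (4)), divisible by `N = 2 ^ K` for `w = some v`, so also for
`w = none` by `S_Or2`; all other local invariants are congruent to them (`S_LvU`); so by `S_Inj` `u'' ≡ 1`,
i.e. `u ≡ u'`, and `u = u'` by hypothesis. So `#U` is at most the number of elements of the set of
`S_DuK`. -/
def S_FCn : Prop :=
  ∀ (F : Type) [Field F] [Finite F] [CharP F 2] (κ : F), eps κ = 1 → ∀ (PP : Finset F[X]),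
    (∀ P ∈ PP, P.Monic ∧ Irreducible P) → ∀ A : Dat F PP, A.Ok κ →
    ∀ g₀, IsG0 A g₀ → ∀ (K : ℕ) (χ : GS PP → ZMod (2 ^ (K + 1))), Chr χ →
    ∀ U : Set (Kgs F), (∀ u ∈ U, Adm PP K (fun g => rdK K (χ g)) u ∧ Iso A g₀ K χ u) →
    (∀ u ∈ U, ∀ u' ∈ U, EqN (2 ^ K) u u' → u = u') →
    U.Finite ∧ U.ncard * 2 ^ (K + 1 + PP.card) ≤ XX (famC κ A).W (famC κ A).φ χ

end Pool.Agent.MP72W
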