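import Pool.Agent.Lib.MP_72e2e6_nt.W2.R.Spec

/-!
# MP_72e2e6_nt, theorem T3, R/Sqe: elements of `F(t)` with even valuations are squares
-/

namespace Pool.Agent.MP72W

open Polynomial IntermediateField

private theorem sqe_fin {F : Type} [Field F] {P a : F[X]} (hP : Irreducible P) (ha : a ≠ 0) :
    FiniteMultiplicity P a :=
  FiniteMultiplicity.of_not_isUnit hP.not_isUnit ha

private theorem sqe_mul {F : Type} [Field F] {P a b : F[X]} (hP : Irreducible P) (ha : a ≠ 0)
    (hb : b ≠ 0) : multiplicity P (a * b) = multiplicity P a + multiplicity P b :=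
  multiplicity_mul hP.prime (sqe_fin hP (mul_ne_zero ha hb))

private theorem sqe_poly {F : Type} [Field F] [Finite F] [CharP F 2] : ∀ (n : ℕ) (p : F[X]),
    p.natDegree ≤ n → p ≠ 0 →
    (∀ P : F[X], P.Monic → Irreducible P → Even (multiplicity P p)) → ∃ h, p = h ^ 2 := by
  intro n
  induction n with
  | zero =>
    intro p hn hp _h
    obtain ⟨c, hc⟩ := Polynomial.natDegree_eq_zero.1 (Nat.le_zero.1 hn)
    obtain ⟨d, hd⟩ := FiniteField.isSquare_of_char_two (ringChar.eq F 2) c
    exact ⟨C d, by rw [← hc, hd, C_mul, sq]⟩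
  | succ n ih =>
    intro p hn hp h
    by_cases hu : IsUnit p
    · obtain ⟨c, -, hc⟩ := Polynomial.isUnit_iff.1 hu
      obtain ⟨d, hd⟩ := FiniteField.isSquare_of_char_two (ringChar.eq F 2) c
      exact ⟨C d, by rw [← hc, hd, C_mul, sq]⟩
    · obtain ⟨P, hPm, hPi, hPd⟩ := Polynomial.exists_monic_irreducible_factor p hu
      have h0 : multiplicity P p ≠ 0 := fun h1 => multiplicity_eq_zero.1 h1 hPd
      have h2 : 2 ≤ multiplicity P p := by
        obtain ⟨m, hm⟩ := h P hPm hPi
        omega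
      obtain ⟨p', hp'⟩ := dvd_trans (pow_dvd_pow P h2) (pow_multiplicity_dvd P p)
      have hp0 : p' ≠ 0 := by
        rintro rfl
        exact hp (by rw [hp', mul_zero])
      have hP0 : P ≠ 0 := hPi.ne_zero
      have hdeg : p.natDegree = 2 * P.natDegree + p'.natDegree := by
        rw [hp', natDegree_mul (pow_ne_zero 2 hP0) hp0, natDegree_pow]
      have hPdeg : 0 < P.natDegree := hPi.natDegree_pos
      obtain ⟨h', hh'⟩ := ih p' (by omega) hp0 (fun Q hQm hQi => by
        have h3 := h Q hQm hQi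
        rw [hp', sq, mul_assoc, sqe_mul hQi hP0 (mul_ne_zero hP0 hp0), sqe_mul hQi hP0 hp0] at h3
        rcases h3 with ⟨m, hm⟩
        rw [Nat.even_iff]
        omega)
      exact ⟨P * h', by rw [hp', hh', mul_pow]⟩

theorem tSqe (hAv : S_Av) : S_Sqe := by
  intro F _ _ _ g hg h
  obtain ⟨hex, -, -⟩ := hAv F
  have hnd : algebraMap F[X] (RatFunc F) g.num / algebraMap F[X] (RatFunc F) g.denom = g :=
    RatFunc.num_div_denom g
  have ha : g.num ≠ 0 := RatFunc.num_ne_zero hg
  have hb : g.denom ≠ 0 := RatFunc.denom_ne_zero g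
  have hcop : IsCoprime g.num g.denom := RatFunc.isCoprime_num_denom g
  have hb' : algebraMap F[X] (RatFunc F) g.denom ≠ 0 := by
    intro h0
    exact hb ((map_eq_zero_iff _ (RatFunc.algebraMap_injective F)).1 h0)
  obtain ⟨p, hp⟩ := sqe_poly (F := F) (g.num * g.denom).natDegree (g.num * g.denom) le_rfl
    (mul_ne_zero ha hb) (by
      intro P hPm hPi
      obtain ⟨v, hv⟩ := hex P hPm hPi
      obtain ⟨n, hn⟩ := h P v hv
      obtain ⟨-, -, hv⟩ := hv
      rw [sqe_mul hPi ha hb]
      rw [← hnd, map_div₀, hv _ ha, hv _ hb, hv P hPi.ne_zero] at hn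
      have h1 : multiplicity P P = 1 := multiplicity_self
      rw [h1, pow_one] at hn
      have h2 : ((1 / 2 : ℝ)) ^ ((multiplicity P g.num : ℤ) - multiplicity P g.denom) =
          (1 / 2 : ℝ) ^ (2 * n) := by
        rw [← hn, zpow_sub₀ (by norm_num), zpow_natCast, zpow_natCast]
      have h3 := zpow_right_injective₀ (by norm_num) (by norm_num) h2
      by_cases h4 : P ∣ g.num
      · have h5 : ¬ P ∣ g.denom := fun h6 => hPi.not_isUnit (hcop.isUnit_of_dvd' h4 h6)
        have h7 : multiplicity P g.denom = 0 := multiplicity_eq_zero.2 h5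
        rw [h7, Nat.even_iff]
        omega
      · have h7 : multiplicity P g.num = 0 := multiplicity_eq_zero.2 h4
        rw [h7, Nat.even_iff]
        omega)
  refine ⟨algebraMap F[X] (RatFunc F) p / algebraMap F[X] (RatFunc F) g.denom, ?_⟩
  rw [div_pow, ← map_pow, ← hp, map_mul, sq, mul_div_mul_right _ _ hb', hnd]

end Pool.Agent.MP72W
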