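import Pool.Agent.Lib.MP_72e2e6_nt.W2.R.Spec

/-!
# MP_72e2e6_nt, theorem T3, part R: the first step of the injectivity (`u` is a square)
-/

set_option autoImplicit false

namespace Pool.Agent.MP72W

open Polynomial IntermediateField

private theorem adm_sq_inj {L : Type} [Field L] (h2 : (2 : L) = 0) {x y : L} (h : x ^ 2 = y ^ 2) :
    x = y := by
  have h1 : (x - y) ^ 2 = 0 := by linear_combination h + (y ^ 2 - x * y) * h2
  exact sub_eq_zero.1 (pow_eq_zero_iff two_ne_zero |>.1 h1)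

private theorem adm_locc {K L : Type} [Field K] [Field L] [Algebra K L] [Algebra.IsAlgebraic K L]
    (x : L) : IsLocallyConstant (fun σ : Gal(L/K) => σ x) := by
  rw [IsLocallyConstant.iff_exists_open]
  intro σ
  have hfd : FiniteDimensional K K⟮x⟯ :=
    IntermediateField.adjoin.finiteDimensional (Algebra.IsIntegral.isIntegral x)
  have hop : IsOpen ((K⟮x⟯.fixingSubgroup : Subgroup Gal(L/K)) : Set Gal(L/K)) :=
    IntermediateField.fixingSubgroup_isOpen _
  refine ⟨(fun τ => σ * τ) '' (K⟮x⟯.fixingSubgroup : Set Gal(L/K)), (isOpenMap_mul_left σ) _ hop,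
    ⟨1, one_mem _, mul_one σ⟩, ?_⟩
  rintro _ ⟨τ, hτ, rfl⟩
  have h1 : τ x = x := (IntermediateField.mem_fixingSubgroup_iff _ _).1 hτ x
    (IntermediateField.mem_adjoin_simple_self K x)
  show σ (τ x) = σ x
  rw [h1]

open Classical in
private noncomputable def adm_sq {L : Type} [Field L] (x : L) : L :=
  if h : ∃ s : L, s ^ 2 = x then h.choose else 0

private theorem adm_sq_spec {L : Type} [Field L] {x : L} (h : ∃ s : L, s ^ 2 = x) :
    adm_sq x ^ 2 = x := by
  unfold adm_sq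
  rw [dif_pos h]
  exact h.choose_spec

private theorem adm_fix (hH90 : S_H90) (F : Type) [Field F] [Finite F] [CharP F 2]
    (h2 : (2 : Kgs F) = 0) (u : Kgs F) (hu : u ≠ 0)
    (h : ∀ σ : Gal(Kgs F/RatFunc F), ∃ s : Kgs F, σ u = u * s ^ 2) :
    ∃ (g : RatFunc F) (y : Kgs F), g ≠ 0 ∧ y ≠ 0 ∧ u = algebraMap (RatFunc F) (Kgs F) g * y ^ 2 := by
  have hs : ∀ σ : Gal(Kgs F/RatFunc F), adm_sq (σ u / u) ^ 2 = σ u / u := by
    intro σ
    refine adm_sq_spec ?_
    obtain ⟨s, hs⟩ := h σ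
    exact ⟨s, by rw [hs, mul_div_cancel_left₀ _ hu]⟩
  have hsu : ∀ σ : Gal(Kgs F/RatFunc F), σ u = u * adm_sq (σ u / u) ^ 2 := by
    intro σ
    rw [hs σ, mul_div_cancel₀ _ hu]
  have hσu : ∀ σ : Gal(Kgs F/RatFunc F), σ u ≠ 0 := by
    intro σ
    rw [Ne, map_eq_zero]
    exact hu
  have hloc : IsLocallyConstant (fun σ : Gal(Kgs F/RatFunc F) => adm_sq (σ u / u)) :=
    (adm_locc u).comp (fun x => adm_sq (x / u))
  obtain ⟨y, hy, hsy⟩ := (hH90 (RatFunc F) (Kgs F) ⊥).1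
    (fun σ => adm_sq ((σ : Gal(Kgs F/RatFunc F)) u / u))
    (hloc.comp_continuous continuous_subtype_val)
    (by
      intro σ h0
      have h1 := hs (σ : Gal(Kgs F/RatFunc F))
      rw [h0, zero_pow two_ne_zero] at h1
      exact div_ne_zero (hσu σ) hu h1.symm)
    (by
      intro σ τ
      apply adm_sq_inj h2
      show adm_sq (((σ : Gal(Kgs F/RatFunc F)) * (τ : Gal(Kgs F/RatFunc F))) u / u) ^ 2 =
        (adm_sq ((σ : Gal(Kgs F/RatFunc F)) u / u) *
          (σ : Gal(Kgs F/RatFunc F)) (adm_sq ((τ : Gal(Kgs F/RatFunc F)) u / u))) ^ 2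
      rw [hs, mul_pow, hs, ← map_pow, hs, map_div₀]
      show (σ : Gal(Kgs F/RatFunc F)) ((τ : Gal(Kgs F/RatFunc F)) u) / u = _
      have h3 := hσu (σ : Gal(Kgs F/RatFunc F))
      field_simp)
  have hall : ∀ σ : Gal(Kgs F/RatFunc F), adm_sq (σ u / u) = σ y / y := by
    intro σ
    have hmem : σ ∈ (⊥ : IntermediateField (RatFunc F) (Kgs F)).fixingSubgroup := by
      rw [IntermediateField.fixingSubgroup_bot]
      exact Subgroup.mem_top σ
    exact hsy ⟨σ, hmem⟩
  have hfix : ∀ σ : Gal(Kgs F/RatFunc F), σ (u / y ^ 2) = u / y ^ 2 := by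
    intro σ
    have h1 := hsu σ
    rw [hall σ] at h1
    have h4 : σ y ≠ 0 := by
      rw [Ne, map_eq_zero]
      exact hy
    rw [map_div₀, map_pow, h1]
    field_simp
  have hbot : u / y ^ 2 ∈ (⊥ : IntermediateField (RatFunc F) (Kgs F)) :=
    (InfiniteGalois.mem_bot_iff_fixed _).2 hfix
  rw [IntermediateField.mem_bot] at hbot
  obtain ⟨g, hg⟩ := hbot
  refine ⟨g, y, ?_, hy, ?_⟩
  · rintro rfl
    rw [map_zero] at hg
    exact div_ne_zero hu (pow_ne_zero 2 hy) hg.symm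
  · rw [hg]
    field_simp

private theorem adm_nm (hLc1 : S_Lc1) (hLc2 : S_Lc2) {F : Type} [Field F] [Finite F] [CharP F 2]
    {v : AbsoluteValue (RatFunc F) ℝ} {d : ℕ} {ϖ : RatFunc F} {R : Finset (RatFunc F)}
    (hR : LF v d ϖ R) (ι : Kgs F →ₐ[RatFunc F] Kvs v) (g : RatFunc F) :
    nm v (ι (algebraMap (RatFunc F) (Kgs F) g)) = v g ∧
      ι (algebraMap (RatFunc F) (Kgs F) g) ∈ Knr v := by
  have h1 : ι (algebraMap (RatFunc F) (Kgs F) g) =
      algebraMap v.Completion (Kvs v) (algebraMap (RatFunc F) v.Completion g) := by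
    rw [AlgHom.commutes, IsScalarTower.algebraMap_apply (RatFunc F) v.Completion (Kvs v)]
  constructor
  · rw [h1, (hLc2 F v d ϖ R hR).2.2.2.2.1, (hLc1 F v d ϖ R hR).1]
  · rw [h1]
    exact (Knr v).algebraMap_mem _

private theorem adm_av_eq {F : Type} [Field F] {P : F[X]} {v v' : AbsoluteValue (RatFunc F) ℝ}
    (h : IsPl (some P) v) (h' : IsPl (some P) v') (f : RatFunc F) : v f = v' f := by
  obtain ⟨-, -, h1⟩ := h
  obtain ⟨-, -, h1'⟩ := h'
  have key : ∀ p : F[X], v (algebraMap F[X] (RatFunc F) p) = v' (algebraMap F[X] (RatFunc F) p) := by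
    intro p
    by_cases hp : p = 0
    · rw [hp, map_zero, map_zero, map_zero]
    · rw [h1 p hp, h1' p hp]
  rw [← RatFunc.num_div_denom f, map_div₀, map_div₀, key, key]

private def adm_c2 (K : ℕ) : ZMod (2 ^ (K + 1)) →+* ZMod 2 :=
  ZMod.castHom (dvd_pow_self 2 (Nat.succ_ne_zero K)) (ZMod 2)

private theorem adm_c2_val (K : ℕ) (x : ZMod (2 ^ (K + 1))) : adm_c2 K x = ((x.val : ℕ) : ZMod 2) := by
  rw [ZMod.natCast_val]
  rfl

private theorem adm_even (K : ℕ) (x : ZMod (2 ^ (K + 1))) (h : adm_c2 K x = 0) :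
    ∃ m : ℕ, x.val = 2 * m := by
  rw [adm_c2_val, ZMod.natCast_eq_zero_iff] at h
  exact h

private theorem adm_odd (K : ℕ) (x : ZMod (2 ^ (K + 1))) (h : adm_c2 K x = 1) :
    ∃ m : ℕ, x.val = 2 * m + 1 := by
  rcases Nat.even_or_odd' x.val with ⟨m, hm | hm⟩
  · exfalso
    rw [adm_c2_val, hm] at h
    push_cast at h
    have h2 : (2 : ZMod 2) = 0 := by decide
    rw [h2, zero_mul] at h
    exact absurd h (by decide)
  · exact ⟨m, hm⟩

private theorem adm_chr_one {G : Type} [Group G] [TopologicalSpace G] (K : ℕ)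
    (χ : G → ZMod (2 ^ (K + 1))) (hχ : Chr χ) (g : G) : adm_c2 K (χ g) = 1 := by
  have h1 : χ g * χ g⁻¹ = 1 := by rw [← hχ.mul, mul_inv_cancel, hχ.one]
  have h2 := congrArg (adm_c2 K) h1
  rw [map_mul, map_one] at h2
  have h3 : ∀ x y : ZMod 2, x * y = 1 → x = 1 := by decide
  exact h3 _ _ h2

private theorem adm_as {L : Type} [Field L] [IsSepClosed L] (h2 : (2 : L) = 0) (m : L) :
    ∃ θ : L, θ ^ 2 + θ = m := by
  obtain ⟨x, hx⟩ := IsSepClosed.exists_root_C_mul_X_pow_add_C_mul_X_add_C (n := 2) (1 : L) 1 m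
    (by exact_mod_cast h2) le_rfl one_ne_zero
  refine ⟨x, ?_⟩
  linear_combination hx - m * h2

theorem tAdm (_ : S_Av) (hLfP : S_LfP) (_ : S_LfI) (hLc1 : S_Lc1) (hLc2 : S_Lc2) (hNr : S_Nr)
    (hFr : S_Fr) (hHas : S_Has) (hEps : S_Eps) (hHlo : S_Hlo) (hH90 : S_H90) (hLvU : S_LvU)
    (hLvA : S_LvA) (hVal : S_Val) (hRgo : S_Rgo) (_ : S_Exp) (hMu : S_Mu) (hSqe : S_Sqe) :
    S_Adm := by
  intro F _ _ _ κ hκ PP hPP A hA g₀ hg₀ K χ hχ z hz u hu hloc
  classical
  have hchar : CharP (RatFunc F) 2 := charP_of_injective_algebraMap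
    (algebraMap F (RatFunc F)).injective 2
  have h2K : (2 : RatFunc F) = 0 := CharTwo.two_eq_zero
  have h2 : (2 : Kgs F) = 0 := by
    have := congrArg (algebraMap (RatFunc F) (Kgs F)) h2K
    rwa [map_ofNat, map_zero] at this
  obtain ⟨g, y, hg, hy, huy⟩ := adm_fix hH90 F h2 u hu.ne (by
    intro σ
    obtain ⟨s, -, hs⟩ := hu.gal σ
    obtain ⟨m, hm⟩ := adm_odd K (χ (rG PP σ)) (adm_chr_one K χ hχ _)
    refine ⟨u ^ m * s ^ 2 ^ K, ?_⟩
    rw [hs, hm]
    ring)
  -- valuations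
  have hval : ∀ (P : F[X]) (v : AbsoluteValue (RatFunc F) ℝ), IsPl (some P) v →
      ∃ n : ℤ, v g = v (algebraMap F[X] (RatFunc F) P) ^ (2 * n) := by
    intro P v hv
    by_cases hP : P ∈ PP
    · -- places of `PP`
      set w : Option PP := some ⟨P, hP⟩ with hw
      have hpl : IsPl (some P) (A.av w) := hA.pl w
      rw [adm_av_eq hv hpl g, adm_av_eq hv hpl (algebraMap F[X] (RatFunc F) P)]
      obtain ⟨R, hR⟩ := hLfP F P (A.av w) hpl
      have hcK : CharP (A.av w).Completion 2 := (hLc1 F (A.av w) _ _ R hR).2.2.2.2.2.2.1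
      have hcL : CharP (Kvs (A.av w)) 2 := (hLc2 F (A.av w) _ _ R hR).2.2.2.2.2.2.2.2
      have h2L : (2 : Kvs (A.av w)) = 0 := CharTwo.two_eq_zero
      obtain ⟨f₁, hf₁, hf₁e⟩ := (hEps F (A.av w) _ _ R hR).2.2.1
      have hf₁n : ‖algebraMap (RatFunc F) (A.av w).Completion f₁‖ ≤ 1 := by
        rw [(hLc1 F (A.av w) _ _ R hR).1]
        exact hf₁
      have hfro : IsFro (Nat.card F) (Nat.card F ^ P.natDegree) (g₀ w) := hg₀ w
      -- the reduction of `z w`
      obtain ⟨hzc, hz0, hz1⟩ := hz w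
      have hcont := ((hHlo F PP hPP).2.2.1 (A.av w) (A.emb w)).1
      have hHom : Hom2 (fun γ : Gal(Kvs (A.av w)/(A.av w).Completion) =>
          adm_c2 K (z w (rOm (PP := PP) (A.emb w) γ))) := by
        refine ⟨(hzc.loc.comp_continuous hcont).comp (adm_c2 K), ?_⟩
        intro a b
        have h3 : z w (rOm (PP := PP) (A.emb w) a * rOm (PP := PP) (A.emb w) b) =
            z w (rOm (PP := PP) (A.emb w) a) +
              χ (rOm (PP := PP) (A.emb w) a) * z w (rOm (PP := PP) (A.emb w) b) := hzc.mul _ _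
        show adm_c2 K (z w (rOm (PP := PP) (A.emb w) (a * b))) = _
        rw [map_mul, h3, map_add, map_mul, adm_chr_one K χ hχ, one_mul]
      have hAShom : Hom2 (hAS (A.av w).Completion (Kvs (A.av w))
          (algebraMap (RatFunc F) (A.av w).Completion f₁)) :=
        (hHas (A.av w).Completion (Kvs (A.av w))).1 _ (adm_as h2L _)
      have heq : (fun γ : Gal(Kvs (A.av w)/(A.av w).Completion) =>
          adm_c2 K (z w (rOm (PP := PP) (A.emb w) γ))) =
          hAS (A.av w).Completion (Kvs (A.av w))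
            (algebraMap (RatFunc F) (A.av w).Completion f₁) := by
        obtain ⟨H, -, hH⟩ := hA.uex w (fun _ _ => 0) (fun _ => ⟨IsLocallyConstant.const 0,
          fun _ _ => by rw [add_zero]⟩) 1
        rw [hH _ ⟨hHom, ?_, ?_⟩, hH _ ⟨hAShom, ?_, ?_⟩]
        · intro _ γ
          exact hA.wz w _ hf₁n γ.1 γ.2
        · rw [hA.ph w _ hf₁n]
          exact hf₁e
        · intro _ γ
          show adm_c2 K (z w (rOm (PP := PP) (A.emb w) γ)) = 0
          rw [hz0 _ (Subgroup.mem_map_of_mem _ γ.2), map_zero]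
        · show adm_c2 K (z w (rOm (PP := PP) (A.emb w) (A.φ w))) = 1
          have h4 : z w (rOm (PP := PP) (A.emb w) (A.φ w)) = 1 := hz1
          rw [h4, map_one]
      have hgeo : ∀ γ : Gal(Kvs (A.av w)/(A.av w).Completion), IsGeo (Nat.card F) γ →
          adm_c2 K (z w (rOm (PP := PP) (A.emb w) γ)) = 0 := by
        intro γ hγ
        have h4 : adm_c2 K (z w (rOm (PP := PP) (A.emb w) γ)) = _ := congrFun heq γ
        rw [h4]
        exact (hFr F (A.av w) _ _ R hR).2.2 γ hγ _ hf₁n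
      have hfr1 : adm_c2 K (z w (rOm (PP := PP) (A.emb w) (g₀ w))) = 1 := by
        have h4 : adm_c2 K (z w (rOm (PP := PP) (A.emb w) (g₀ w))) = _ := congrFun heq (g₀ w)
        rw [h4, (hFr F (A.av w) _ _ R hR).2.1 (g₀ w) hfro _ hf₁n]
        exact hf₁e
      obtain ⟨hnmg, hgnr⟩ := adm_nm hLc1 hLc2 hR (A.emb w) g
      obtain ⟨x₁, hx₁⟩ := hR.disc g hg
      have hιu : A.emb w u ≠ 0 := by
        rw [Ne, map_eq_zero]
        exact hu.ne
      have hιy : A.emb w y ≠ 0 := by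
        rw [Ne, map_eq_zero]
        exact hy
      have hιg : A.emb w (algebraMap (RatFunc F) (Kgs F) g) ≠ 0 := by
        rw [Ne, map_eq_zero, map_eq_zero]
        exact hg
      have hιuy : A.emb w u = A.emb w (algebraMap (RatFunc F) (Kgs F) g) * A.emb w y ^ 2 := by
        conv_lhs => rw [huy]
        rw [map_mul, map_pow]
      have hLV1 : LV (A.av w) (2 ^ 1) (algebraMap F[X] (RatFunc F) P) (g₀ w)
          (lz (A.emb w) u (z w)) x₁ := by
        refine ⟨1, A.emb w (algebraMap (RatFunc F) (Kgs F) g), one_ne_zero, hιg, hgnr, ?_, ?_, ?_⟩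
        · intro γ hγ
          obtain ⟨m, hm⟩ := adm_even K _ (hgeo γ hγ)
          refine ⟨A.emb w u ^ m, pow_ne_zero _ hιu, ?_⟩
          show A.emb w u ^ (z w (rOm (PP := PP) (A.emb w) γ)).val = _
          rw [hm, map_one, div_one, one_mul, pow_one]
          ring
        · obtain ⟨m, hm⟩ := adm_odd K _ hfr1
          refine ⟨A.emb w u ^ m * A.emb w y, mul_ne_zero (pow_ne_zero _ hιu) hιy, ?_⟩
          show A.emb w u ^ (z w (rOm (PP := PP) (A.emb w) (g₀ w))).val = _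
          rw [hm, map_one, div_one, one_mul, pow_one, pow_succ, pow_mul]
          conv_lhs => rw [hιuy]
          rw [hιuy]
          ring
        · rw [hnmg]
          exact hx₁
      have hNC : NCoc (2 ^ (K + 1)) (mz u (z w)) := hMu F PP hPP (K + 1) χ (z w) u hu.ne hu.gal hzc
      obtain ⟨x, hx⟩ := (hVal F (K + 1) (mz u (z w)) hNC (A.av w) _ _ R hR (A.emb w) (g₀ w) hfro).2
      rw [(hRgo F PP hPP).2.2.2 (A.av w) (A.emb w) (K + 1) u (z w)] at hx
      have hdvd : (2 ^ (K + 1) : ℤ) ∣ x := hloc w x hx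
      obtain ⟨-, -, -, -, -, -, hred⟩ := hLvA F (A.av w) _ _ R hR 1 (g₀ w)
        (lz (A.emb w) u (z w)) (lz (A.emb w) u (z w)) x x
      have hx' : LV (A.av w) (2 ^ 1) (algebraMap F[X] (RatFunc F) P) (g₀ w)
          (lz (A.emb w) u (z w)) x := by
        refine hred K ?_
        rw [add_comm 1 K]
        exact hx
      have hd1 := hLvU F (A.av w) _ _ R hR 1 (g₀ w) _ x₁ x hLV1 hx'
      have hd2 : (2 : ℤ) ∣ x := (dvd_pow_self 2 (Nat.succ_ne_zero K)).trans hdvd
      rw [pow_one] at hd1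
      obtain ⟨n, hn⟩ := (dvd_sub_right hd2).mp (show (2 : ℤ) ∣ x - x₁ from by
        rw [← dvd_neg, neg_sub]
        exact hd1)
      exact ⟨n, by rw [hx₁, hn]⟩
    · -- the other places
      obtain ⟨hPm, hPi, -⟩ := id hv
      obtain ⟨R, hR⟩ := hLfP F P v hv
      set ι : Kgs F →ₐ[RatFunc F] Kvs v := IsSepClosed.lift with hι
      obtain ⟨r, hrn, hr0, ⟨s, hs0, hs⟩, x, hx, hxd⟩ := hu.unr P hPm hPi hP v hv ι
      obtain ⟨hnmg, hgnr⟩ := adm_nm hLc1 hLc2 hR ι g
      have hιy : ι y ≠ 0 := by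
        rw [Ne, map_eq_zero]
        exact hy
      have hιuy : ι u = ι (algebraMap (RatFunc F) (Kgs F) g) * ι y ^ 2 := by
        conv_lhs => rw [huy]
        rw [map_mul, map_pow]
      have hge : ι (algebraMap (RatFunc F) (Kgs F) g) = r * (s ^ 2 ^ K / ι y) ^ 2 := by
        have h3 : ι (algebraMap (RatFunc F) (Kgs F) g) * ι y ^ 2 = r * s ^ 2 ^ (K + 1) := by
          rw [← hιuy, hs]
        rw [div_pow, ← pow_mul, ← pow_succ, ← mul_div_assoc, ← h3]
        field_simp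
      have he0 : s ^ 2 ^ K / ι y ≠ 0 := div_ne_zero (pow_ne_zero _ hs0) hιy
      have hmem : s ^ 2 ^ K / ι y ∈ Knr v := by
        refine (hNr F v _ _ R hR).2.2.2.2.1 _ 1 ?_
        have h4 : (s ^ 2 ^ K / ι y) ^ 2 ^ 1 = ι (algebraMap (RatFunc F) (Kgs F) g) / r := by
          rw [hge, pow_one]
          field_simp
        rw [h4]
        exact (Knr v).div_mem hgnr hrn
      obtain ⟨n, hn⟩ := (hNr F v _ _ R hR).1 _ hmem he0
      have hmul := (hLc2 F v _ _ R hR).2.2.1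
      have hp0 : v (algebraMap F[X] (RatFunc F) P) ≠ 0 := hR.pi0.ne'
      have hxe : ∃ m : ℤ, x = 2 * m := (dvd_pow_self 2 (Nat.succ_ne_zero K)).trans hxd
      obtain ⟨m, hm⟩ := hxe
      refine ⟨m + n, ?_⟩
      rw [← hnmg, hge, hmul, sq, hmul, hn, hx, hm, ← zpow_add₀ hp0, ← zpow_add₀ hp0]
      congr 1
      ring
  obtain ⟨h, hh⟩ := hSqe F g hg hval
  refine ⟨algebraMap (RatFunc F) (Kgs F) h * y, ?_⟩
  rw [huy, hh, map_pow]
  ring

end Pool.Agent.MP72W
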