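import Pool.Agent.Lib.MP_72e2e6_nt.W2.R.Spec

/-!
# MP_72e2e6_nt, theorem T3, part R: constants and irreducible polynomials (helper25, task 12817)
-/

namespace Pool.Agent.MP72W

open Polynomial IntermediateField

private theorem Cfr_fr {F L : Type} [Field F] [Fintype F] [Field L] [Algebra F L] (x : L) :
    FiniteField.frobeniusAlgHom F L x = x ^ Nat.card F := by
  rw [Nat.card_eq_fintype_card]
  rfl

private theorem Cfr_key {F L : Type} [Field F] [Finite F] [Field L] (f : F →+* L) (P : F[X])
    (c : L) (i : ℕ) : P.eval₂ f (c ^ Nat.card F ^ i) = P.eval₂ f c ^ Nat.card F ^ i := by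
  have := Fintype.ofFinite F
  let _ := f.toAlgebra
  induction i with
  | zero => simp
  | succ i ih =>
    have h2 := aeval_algHom_apply (FiniteField.frobeniusAlgHom F L) (c ^ Nat.card F ^ i) P
    rw [Cfr_fr, Cfr_fr] at h2
    have h3 : aeval (c ^ Nat.card F ^ i) P = P.eval₂ f (c ^ Nat.card F ^ i) := rfl
    rw [h3, ih, ← pow_mul, ← pow_mul, ← pow_succ] at h2
    exact h2

private theorem Cfr_inj {F L : Type} [Field F] [Finite F] [Field L] (f : F →+* L) (i : ℕ)
    (x y : L) (h : x ^ Nat.card F ^ i = y ^ Nat.card F ^ i) : x = y := by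
  have := Fintype.ofFinite F
  let _ := f.toAlgebra
  induction i with
  | zero => simpa using h
  | succ i ih =>
    apply ih
    rw [pow_succ, pow_mul, pow_mul, ← Cfr_fr, ← Cfr_fr] at h
    exact (FiniteField.frobeniusAlgHom F L).toRingHom.injective h

private theorem Cfr_fld {F L : Type} [Field F] [Finite F] [Field L] (f : F →+* L) (P : F[X])
    (c : L) (hP : P.Monic) (hI : Irreducible P) (h0 : P.eval₂ f c = 0) :
    c ^ Nat.card F ^ P.natDegree = c ∧
      ∀ k, 1 ≤ k → c ^ Nat.card F ^ k = c → P.natDegree ≤ k := by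
  classical
  let _ := f.toAlgebra
  have := Fintype.ofFinite F
  have hq : 1 < Nat.card F := Finite.one_lt_card
  have hPm : P = minpoly F c := minpoly.eq_of_irreducible_of_monic hI h0 hP
  have hint : IsIntegral F c := ⟨P, hP, h0⟩
  have hfd : FiniteDimensional F F⟮c⟯ := adjoin.finiteDimensional hint
  have hfin : Finite F⟮c⟯ := Module.finite_of_finite F
  have := Fintype.ofFinite F⟮c⟯
  have hcard : Nat.card F⟮c⟯ = Nat.card F ^ P.natDegree := by
    rw [Nat.card_eq_fintype_card, Nat.card_eq_fintype_card, Module.card_eq_pow_finrank (K := F),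
      adjoin.finrank hint, ← hPm]
  constructor
  · have h1 := FiniteField.pow_card (⟨c, mem_adjoin_simple_self F c⟩ : F⟮c⟯)
    rw [← Nat.card_eq_fintype_card, hcard] at h1
    exact congrArg Subtype.val h1
  · intro k hk hc
    have h2 : ∀ x ∈ F⟮c⟯, x ^ Nat.card F ^ k = x := by
      intro x hx
      rw [← IntermediateField.mem_toSubalgebra, adjoin_simple_toSubalgebra_of_isAlgebraic
        hint.isAlgebraic, Algebra.adjoin_singleton_eq_range_aeval] at hx
      obtain ⟨p, rfl⟩ := hx
      have h3 := Cfr_key f p c k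
      rw [hc] at h3
      exact h3.symm
    have hqk : 1 < Nat.card F ^ k := Nat.one_lt_pow (by omega) hq
    have h3 : (F⟮c⟯ : Set L) ⊆
        (((X ^ (Nat.card F ^ k) - X : L[X]).roots.toFinset : Finset L) : Set L) := by
      intro x hx
      rw [Finset.mem_coe, Multiset.mem_toFinset,
        mem_roots (FiniteField.X_pow_card_sub_X_ne_zero L hqk), IsRoot.def, eval_sub, eval_pow,
        eval_X, h2 x hx, sub_self]
    have h4 : Nat.card F⟮c⟯ ≤ Nat.card F ^ k := by
      calc Nat.card F⟮c⟯ = (F⟮c⟯ : Set L).ncard := Nat.card_coe_set_eq _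
        _ ≤ (((X ^ (Nat.card F ^ k) - X : L[X]).roots.toFinset : Finset L) : Set L).ncard :=
            Set.ncard_le_ncard h3 (Finset.finite_toSet _)
        _ = (X ^ (Nat.card F ^ k) - X : L[X]).roots.toFinset.card := Set.ncard_coe_finset _
        _ ≤ Multiset.card (X ^ (Nat.card F ^ k) - X : L[X]).roots := Multiset.toFinset_card_le _
        _ ≤ (X ^ (Nat.card F ^ k) - X : L[X]).natDegree := card_roots' _
        _ = Nat.card F ^ k := FiniteField.X_pow_card_sub_X_natDegree_eq L hqk
    rw [hcard] at h4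
    exact (Nat.pow_le_pow_iff_right hq).1 h4

private theorem Cfr_four {F L : Type} [Field F] [Finite F] [Field L] (f : F →+* L) (P : F[X])
    (c : L) (hP : P.Monic) (hI : Irreducible P) (h0 : P.eval₂ f c = 0) :
    c ∈ Cst (Nat.card F) L ∧
      (∀ i < P.natDegree, ∀ j < P.natDegree, c ^ (Nat.card F) ^ i = c ^ (Nat.card F) ^ j → i = j) ∧
      P.map f = ∏ i ∈ Finset.range P.natDegree, (X - C (c ^ (Nat.card F) ^ i)) := by
  obtain ⟨h1, h2⟩ := Cfr_fld f P c hP hI h0
  have hd : 1 ≤ P.natDegree := hI.natDegree_pos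
  have key : ∀ i j : ℕ, i < j → j < P.natDegree →
      c ^ (Nat.card F) ^ i ≠ c ^ (Nat.card F) ^ j := by
    intro i j hij hj h
    have e : j = (j - i) + i := by omega
    rw [e, pow_add, pow_mul] at h
    have h3 := Cfr_inj f i _ _ h
    have h4 := h2 (j - i) (by omega) h3.symm
    omega
  have hinj : ∀ i < P.natDegree, ∀ j < P.natDegree,
      c ^ (Nat.card F) ^ i = c ^ (Nat.card F) ^ j → i = j := by
    intro i hi j hj h
    rcases lt_trichotomy i j with hlt | heq | hgt
    · exact absurd h (key i j hlt hj)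
    · exact heq
    · exact absurd h.symm (key j i hgt hi)
  refine ⟨⟨P.natDegree, hd, h1⟩, hinj, ?_⟩
  have hm : (∏ i ∈ Finset.range P.natDegree, (X - C (c ^ (Nat.card F) ^ i))).Monic :=
    monic_prod_of_monic _ _ fun i _ => monic_X_sub_C _
  have hdeg : (∏ i ∈ Finset.range P.natDegree, (X - C (c ^ (Nat.card F) ^ i))).natDegree =
      P.natDegree := by
    rw [natDegree_prod_of_monic _ _ fun i _ => monic_X_sub_C _]
    simp only [natDegree_X_sub_C, Finset.sum_const, Finset.card_range, smul_eq_mul, mul_one]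
  refine eq_of_monic_of_dvd_of_natDegree_le hm (hP.map f) ?_ ?_
  · refine Finset.prod_dvd_of_coprime (fun i hi j hj hij => ?_) fun i _ => ?_
    · refine isCoprime_X_sub_C_of_isUnit_sub (isUnit_iff_ne_zero.2 (sub_ne_zero.2 fun h => hij ?_))
      exact hinj i (Finset.mem_range.1 hi) j (Finset.mem_range.1 hj) h
    · rw [dvd_iff_isRoot, IsRoot.def, eval_map, Cfr_key f P c i, h0, zero_pow]
      exact pow_ne_zero _ Nat.card_pos.ne'
  · rw [hdeg, natDegree_map]

theorem tCfr : S_Cst → S_FrG → S_Cfr := by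
  intro _ _ F _ _ _
  have hq : 1 < Nat.card F := Finite.one_lt_card
  refine ⟨?_, ?_, ?_, ?_, ?_⟩
  · rintro c ⟨n, hn, hc⟩
    let _ := (cF F).toAlgebra
    have hqn : 1 < Nat.card F ^ n := Nat.one_lt_pow (by omega) hq
    have hint : IsIntegral F c := by
      refine ⟨X ^ (Nat.card F ^ n) - X, ?_, ?_⟩
      · exact monic_X_pow_sub (by
          rw [degree_X]
          exact_mod_cast hqn)
      · rw [eval₂_sub, eval₂_X_pow, eval₂_X, hc, sub_self]
    exact ⟨minpoly F c, minpoly.monic hint, minpoly.irreducible hint, minpoly.aeval F c⟩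
  · intro P P' c hP hI hP' hI' h h'
    let _ := (cF F).toAlgebra
    exact (minpoly.eq_of_irreducible_of_monic hI h hP).trans
      (minpoly.eq_of_irreducible_of_monic hI' h' hP').symm
  · intro P hP hI
    obtain ⟨c, hc⟩ := IsSepClosed.exists_eval₂_eq_zero (cF F) P
      (degree_pos_of_irreducible hI).ne' (PerfectField.separable_of_irreducible hI)
    exact ⟨c, (Cfr_four (cF F) P c hP hI hc).1, hc⟩
  · exact fun P c hP hI h => Cfr_four (cF F) P c hP hI h
  · intro P c i h
    rw [Cfr_key] at h
    exact (pow_eq_zero_iff (pow_ne_zero _ Nat.card_pos.ne')).1 h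

end Pool.Agent.MP72W
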