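import Pool.Agent.Lib.MP_72e2e6_nt.W2.R.Spec
import Pool.Agent.Lib.MP_72e2e6_nt.W2.A.Spec

/-!
# MP_72e2e6_nt, theorem T3, part R: the local decomposition of the half of `Zf`
-/

set_option autoImplicit false

namespace Pool.Agent.MP72W

open Polynomial IntermediateField

private theorem dec_hf_two (K : ℕ) (y : ZMod (2 ^ (K + 1))) : hf K (2 * y) = rdK K y := by
  have h1 : (2 * y : ZMod (2 ^ (K + 1))) = ((2 * y.val : ℕ) : ZMod (2 ^ (K + 1))) := by
    push_cast
    rw [ZMod.natCast_zmod_val]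
  have h2 : (2 * y : ZMod (2 ^ (K + 1))).val / 2 = y.val % 2 ^ K := by
    rw [h1, ZMod.val_natCast]
    generalize y.val = m
    rw [pow_succ, mul_comm (2 ^ K) 2, Nat.mul_mod_mul_left]
    omega
  unfold hf rdK
  rw [h2, ZMod.natCast_mod, ZMod.castHom_apply, ZMod.natCast_val]

private theorem dec_hf_add (K : ℕ) (x y : ZMod (2 ^ (K + 1))) (hx : ∃ a, x = 2 * a)
    (hy : ∃ b, y = 2 * b) : hf K (x + y) = hf K x + hf K y := by
  obtain ⟨a, rfl⟩ := hx
  obtain ⟨b, rfl⟩ := hy
  rw [← mul_add, dec_hf_two, dec_hf_two, dec_hf_two, map_add]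

private theorem dec_hf_mul (K : ℕ) (c x : ZMod (2 ^ (K + 1))) (hx : ∃ a, x = 2 * a) :
    hf K (c * x) = rdK K c * hf K x := by
  obtain ⟨a, rfl⟩ := hx
  rw [show c * (2 * a) = 2 * (c * a) by ring, dec_hf_two, dec_hf_two, map_mul]

/-- Reduction modulo `2`. -/
private def dec_c2 (K : ℕ) : ZMod (2 ^ (K + 1)) →+* ZMod 2 :=
  ZMod.castHom (dvd_pow_self 2 (Nat.succ_ne_zero K)) (ZMod 2)

private theorem dec_even (K : ℕ) (x : ZMod (2 ^ (K + 1))) : (∃ a, x = 2 * a) ↔ dec_c2 K x = 0 := by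
  constructor
  · rintro ⟨a, rfl⟩
    rw [map_mul, map_ofNat]
    have : (2 : ZMod 2) = 0 := by decide
    rw [this, zero_mul]
  · intro h
    have h1 : ((x.val : ℕ) : ZMod 2) = 0 := by
      rw [ZMod.natCast_val]
      exact h
    rw [ZMod.natCast_eq_zero_iff] at h1
    obtain ⟨m, hm⟩ := h1
    refine ⟨(m : ZMod (2 ^ (K + 1))), ?_⟩
    rw [← ZMod.natCast_zmod_val x, hm]
    push_cast
    ring

private theorem dec_chr_one {G : Type} [Group G] [TopologicalSpace G] (K : ℕ)
    (χ : G → ZMod (2 ^ (K + 1))) (hχ : Chr χ) (g : G) : dec_c2 K (χ g) = 1 := by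
  have h1 : χ g * χ g⁻¹ = 1 := by rw [← hχ.mul, mul_inv_cancel, hχ.one]
  have h2 := congrArg (dec_c2 K) h1
  rw [map_mul, map_one] at h2
  have h3 : ∀ x y : ZMod 2, x * y = 1 → x = 1 := by decide
  exact h3 _ _ h2

private theorem dec_lam_even {G : Type} [Group G] [TopologicalSpace G] (K : ℕ)
    (χ : G → ZMod (2 ^ (K + 1))) (hχ : Chr χ) (g : G) : ∃ a, 1 - χ g = 2 * a := by
  rw [dec_even, map_sub, map_one, dec_chr_one K χ hχ g, sub_self]

theorem tDec (hLin : S_Lin) (hGoo : S_Goo) (hLoc : S_Loc) : S_Dec := by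
  intro F _ _ _ κ hκ PP hPP A hA K χ hχ
  classical
  have hgood := hGoo F κ hκ PP hPP A hA
  obtain ⟨hL1, -, -, -, -, -, -, -⟩ :=
    hLin (GS PP) PP (famC κ A).W (famC κ A).φ hgood.uex hgood.h2 (K + 1) χ hχ
  have hlam : Coc (fun g x => rdK K (χ g) * x) (fun g => hf K (1 - χ g)) := by
    refine ⟨?_, ?_⟩
    · exact hχ.loc.comp (fun x => hf K (1 - x))
    · intro g h
      have h1 : 1 - χ (g * h) = (1 - χ g) + χ g * (1 - χ h) := by
        rw [hχ.mul]
        ring
      show hf K (1 - χ (g * h)) = hf K (1 - χ g) + rdK K (χ g) * hf K (1 - χ h)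
      rw [h1, dec_hf_add K _ _ (dec_lam_even K χ hχ g), dec_hf_mul K _ _ (dec_lam_even K χ hχ h)]
      obtain ⟨b, hb⟩ := dec_lam_even K χ hχ h
      exact ⟨χ g * b, by rw [hb]; ring⟩
  refine ⟨hlam, fun a => ?_⟩
  have hZ : IsZ (famC κ A).W (famC κ A).φ χ a (Zf (famC κ A).W (famC κ A).φ χ a) := hL1 a
  set Z := Zf (famC κ A).W (famC κ A).φ χ a with hZdef
  have hev : ∀ g, ∃ b, Z g = 2 * b := by
    have hH : (fun g => dec_c2 K (Z g)) = fun _ => 0 := by
      obtain ⟨H, -, hHu⟩ := hgood.uex (fun _ _ => 0) (fun _ => ⟨IsLocallyConstant.const 0,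
        fun _ _ => by rw [add_zero]⟩) 0
      have h1 : (fun g => dec_c2 K (Z g)) = H := by
        refine hHu _ ⟨⟨hZ.coc.loc.comp (dec_c2 K), ?_⟩, ?_, ?_⟩
        · intro g h
          have h2 : Z (g * h) = Z g + χ g * Z h := hZ.coc.mul g h
          show dec_c2 K (Z (g * h)) = dec_c2 K (Z g) + dec_c2 K (Z h)
          rw [h2, map_add, map_mul, dec_chr_one K χ hχ g, one_mul]
        · intro w g
          show dec_c2 K (Z g) = 0
          rw [hZ.res w g.1 g.2, map_mul, (dec_even K _).mp (dec_lam_even K χ hχ g.1), mul_zero]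
        · show dec_c2 K (Z _) = 0
          rw [hZ.inf, map_mul, (dec_even K _).mp (dec_lam_even K χ hχ _), mul_zero]
      have h2 : (fun _ : GS PP => (0 : ZMod 2)) = H :=
        hHu _ ⟨⟨IsLocallyConstant.const 0, fun _ _ => by rw [add_zero]⟩, fun _ _ => rfl, rfl⟩
      rw [h1, h2]
    intro g
    rw [dec_even]
    exact congrFun hH g
  have hcocZ : Coc (fun g x => rdK K (χ g) * x) (fun g => hf K (Z g)) := by
    refine ⟨hZ.coc.loc.comp (hf K), ?_⟩
    intro g h
    have h2 : Z (g * h) = Z g + χ g * Z h := hZ.coc.mul g h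
    show hf K (Z (g * h)) = hf K (Z g) + rdK K (χ g) * hf K (Z h)
    rw [h2, dec_hf_add K _ _ (hev g), dec_hf_mul K _ _ (hev h)]
    obtain ⟨b, hb⟩ := hev h
    exact ⟨χ g * b, by rw [hb]; ring⟩
  refine ⟨hcocZ, ?_⟩
  intro z hz w g
  have hchr : Chr (fun g => rdK K (χ g)) := by
    refine ⟨hχ.loc.comp (rdK K), ?_, ?_⟩
    · show rdK K (χ 1) = 1
      rw [hχ.one, map_one]
    · intro x y
      show rdK K (χ (x * y)) = rdK K (χ x) * rdK K (χ y)
      rw [hχ.mul, map_mul]
  -- the general step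
  have key : ∀ t : ZMod (2 ^ K),
      hf K (Z ((famC κ A).φ w)) = rdK K (a w) * hf K (1 - χ ((famC κ A).φ w)) + t →
      hf K (Z (rOm (PP := PP) (A.emb w) g)) =
        rdK K (a w) * hf K (1 - χ (rOm (PP := PP) (A.emb w) g)) +
          t * z w (rOm (PP := PP) (A.emb w) g) := by
    intro t ht
    obtain ⟨hzc, hz0, hz1⟩ := hz w
    have hcocR : Coc (fun g x => rdK K (χ g) * x)
        (fun g => rdK K (a w) * hf K (1 - χ g) + t * z w g) := by
      refine ⟨?_, ?_⟩
      · have h1 : IsLocallyConstant (fun g : GS PP => rdK K (a w) * hf K (1 - χ g)) :=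
          hχ.loc.comp (fun x => rdK K (a w) * hf K (1 - x))
        have h2 : IsLocallyConstant (fun g : GS PP => t * z w g) := hzc.loc.comp (fun x => t * x)
        exact h1.add h2
      · intro g h
        have h1 : hf K (1 - χ (g * h)) = hf K (1 - χ g) + rdK K (χ g) * hf K (1 - χ h) := hlam.mul g h
        have h2 : z w (g * h) = z w g + rdK K (χ g) * z w h := hzc.mul g h
        show rdK K (a w) * hf K (1 - χ (g * h)) + t * z w (g * h) =
          rdK K (a w) * hf K (1 - χ g) + t * z w g +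
            rdK K (χ g) * (rdK K (a w) * hf K (1 - χ h) + t * z w h)
        rw [h1, h2]
        ring
    refine hLoc F κ PP hPP A hA K (fun g => rdK K (χ g)) hchr (fun g => hf K (Z g))
      (fun g => rdK K (a w) * hf K (1 - χ g) + t * z w g) hcocZ hcocR w ?_ ?_ g
    · intro g hg
      show hf K (Z g) = rdK K (a w) * hf K (1 - χ g) + t * z w g
      rw [hz0 g hg, mul_zero, add_zero, hZ.res w g hg, dec_hf_mul K _ _ (dec_lam_even K χ hχ g)]
    · show hf K (Z ((famC κ A).φ w)) =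
        rdK K (a w) * hf K (1 - χ ((famC κ A).φ w)) + t * z w ((famC κ A).φ w)
      rw [hz1, mul_one]
      exact ht
  cases w with
  | none =>
    refine key 0 ?_
    rw [hZ.inf, dec_hf_mul K _ _ (dec_lam_even K χ hχ _), add_zero]
  | some v =>
    refine key (hf K (Tv (famC κ A).W (famC κ A).φ χ a v)) ?_
    have h1 : Z ((famC κ A).φ (some v)) = a (some v) * (1 - χ ((famC κ A).φ (some v))) +
        Tv (famC κ A).W (famC κ A).φ χ a v := by
      unfold Tv
      rw [← hZdef]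
      ring
    have hlam1 := dec_lam_even K χ hχ ((famC κ A).φ (some v))
    have h2 : ∃ b, a (some v) * (1 - χ ((famC κ A).φ (some v))) = 2 * b := by
      obtain ⟨b, hb⟩ := hlam1
      exact ⟨a (some v) * b, by rw [hb]; ring⟩
    have h3 : ∃ b, Tv (famC κ A).W (famC κ A).φ χ a v = 2 * b := by
      obtain ⟨b, hb⟩ := h2
      obtain ⟨c, hc⟩ := hev ((famC κ A).φ (some v))
      refine ⟨c - b, ?_⟩
      have : Tv (famC κ A).W (famC κ A).φ χ a v = Z ((famC κ A).φ (some v)) -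
          a (some v) * (1 - χ ((famC κ A).φ (some v))) := by rw [h1]; ring
      rw [this, hb, hc]
      ring
    rw [h1, dec_hf_add K _ _ h2 h3, dec_hf_mul K _ _ hlam1]

end Pool.Agent.MP72W
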