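import Pool.Agent.Lib.MP_72e2e6_nt.W2.R.Spec

/-!
# MP_72e2e6_nt, theorem T3, part R: Dpl, the norms of `t - c`
-/

set_option autoImplicit false

namespace Pool.Agent.MP72W

open Polynomial IntermediateField

private theorem Dpl_card (F : Type) [Field F] [Finite F] [CharP F 2] :
    ∃ r : ℕ, 1 ≤ r ∧ Nat.card F = 2 ^ r := by
  haveI := Fintype.ofFinite F
  obtain ⟨n, -, hn⟩ := FiniteField.card F 2
  exact ⟨n, n.2, by rw [Nat.card_eq_fintype_card, hn]⟩

/-- The evaluation of a polynomial at `t`. -/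
private theorem Dpl_eval (F : Type) [Field F] (P : F[X]) :
    (P.map (cF F)).eval (tt F) =
      algebraMap (RatFunc F) (Kgs F) (algebraMap F[X] (RatFunc F) P) := by
  rw [Polynomial.eval_map]
  induction P using Polynomial.induction_on' with
  | add p q hp hq => rw [Polynomial.eval₂_add, hp, hq, map_add, map_add]
  | monomial n a =>
    rw [Polynomial.eval₂_monomial, ← Polynomial.C_mul_X_pow_eq_monomial, map_mul, map_mul,
      map_pow, map_pow, RatFunc.algebraMap_X, RatFunc.algebraMap_C]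
    rfl

theorem tDpl (hLfP : S_LfP) (hLfI : S_LfI) (hLc1 : S_Lc1) (hLc2 : S_Lc2) (hCst : S_Cst)
    (hFrG : S_FrG) (hCfr : S_Cfr) : S_Dpl := by
  intro F _ _ _ v ι
  haveI : CharP (Kgs F) 2 :=
    charP_of_injective_algebraMap (algebraMap (RatFunc F) (Kgs F)).injective 2
  obtain ⟨r, hr, hq⟩ := Dpl_card F
  obtain ⟨cz, co, ca, ci, -, -⟩ := hCst (Nat.card F) r hr hq (Kgs F)
  obtain ⟨-, -, -, g4, -⟩ := hFrG F
  have gι : ∀ c ∈ Cst (Nat.card F) (Kgs F), ι c ∈ Cst (Nat.card F) (Kvs v) :=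
    (g4 (Kvs v) ι).1
  -- common facts
  have main : ∀ (d : ℕ) (ϖ : RatFunc F) (R : Finset (RatFunc F)), LF v d ϖ R →
      (∀ x : RatFunc F, nm v (ι (algebraMap (RatFunc F) (Kgs F) x)) = v x) ∧
      (∀ x y : Kgs F, nm v (ι (x * y)) = nm v (ι x) * nm v (ι y)) ∧
      (∀ x y : Kgs F, nm v (ι (x + y)) ≤ max (nm v (ι x)) (nm v (ι y))) ∧
      (∀ x y : Kgs F, nm v (ι (x - y)) ≤ max (nm v (ι x)) (nm v (ι y))) ∧
      (∀ c ∈ Cst (Nat.card F) (Kgs F), nm v (ι c) ≤ 1) ∧
      (∀ c ∈ Cst (Nat.card F) (Kgs F), c ≠ 0 → nm v (ι c) = 1) := by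
    intro d ϖ R hL
    obtain ⟨k1, -⟩ := hLc1 F v d ϖ R hL
    obtain ⟨h0, hz, hm, ha, hx, -, hc, -, hch⟩ := hLc2 F v d ϖ R hL
    have hcn : ∀ c ∈ Cst (Nat.card F) (Kgs F), c ≠ 0 → nm v (ι c) = 1 := by
      intro c hc' hc0
      refine hc _ (gι c hc') ?_
      intro h
      exact hc0 ((map_eq_zero ι).1 h)
    refine ⟨?_, ?_, ?_, ?_, ?_, hcn⟩
    · intro x
      rw [AlgHom.commutes, IsScalarTower.algebraMap_apply (RatFunc F) v.Completion (Kvs v), hx,
        k1]
    · intro x y
      rw [map_mul, hm]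
    · intro x y
      rw [map_add]
      exact ha _ _
    · intro x y
      rw [CharTwo.sub_eq_add, map_add]
      exact ha _ _
    · intro c hc'
      by_cases hc0 : c = 0
      · rw [hc0, map_zero, (hz 0).2 rfl]
        exact zero_le_one
      · exact (hcn c hc' hc0).le
  refine ⟨?_, ?_⟩
  · intro hv c hc
    obtain ⟨R, hL⟩ := hLfI F v hv
    obtain ⟨mx, mm, ma, ms, mc, mc'⟩ := main _ _ _ hL
    have hX : v RatFunc.X = 2 := by
      rw [hv RatFunc.X RatFunc.X_ne_zero, RatFunc.intDegree_X, zpow_one]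
    have ht : nm v (ι (tt F)) = v RatFunc.X := mx _
    apply le_antisymm
    · refine (ms _ _).trans (max_le ht.le ?_)
      rw [hX]
      linarith [mc c hc]
    · have h1 := ma (tt F - c) c
      rw [sub_add_cancel, ht] at h1
      rcases le_max_iff.1 h1 with h2 | h2
      · exact h2
      · rw [hX] at h2
        linarith [mc c hc]
  · intro P hv
    obtain ⟨R, hL⟩ := hLfP F P v hv
    obtain ⟨mx, mm, ma, ms, mc, mc'⟩ := main _ _ _ hL
    obtain ⟨hPm, hPi, hPv⟩ := hv
    obtain ⟨-, -, f3, f4, -⟩ := hCfr F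
    obtain ⟨c, hc, hc0⟩ := f3 P hPm hPi
    obtain ⟨-, finj, fprod⟩ := f4 P c hPm hPi hc0
    have ht : nm v (ι (tt F)) ≤ 1 := by
      change nm v (ι (algebraMap (RatFunc F) (Kgs F) RatFunc.X)) ≤ 1
      rw [mx, ← RatFunc.algebraMap_X, hPv _ Polynomial.X_ne_zero]
      exact pow_le_one₀ (by norm_num) (by norm_num)
    have hP0 : P ≠ 0 := hPi.ne_zero
    have hvP : v (algebraMap F[X] (RatFunc F) P) = 1 / 2 := by
      rw [hPv P hP0, multiplicity_self, pow_one]
    -- the conjugates are roots and constants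
    have hroot : ∀ j ∈ Finset.range P.natDegree, P.eval₂ (cF F) (c ^ Nat.card F ^ j) = 0 := by
      intro j hj
      rw [← Polynomial.eval_map, fprod, Polynomial.eval_prod]
      refine Finset.prod_eq_zero hj ?_
      simp
    have hcst : ∀ j ∈ Finset.range P.natDegree, c ^ Nat.card F ^ j ∈ Cst (Nat.card F) (Kgs F) :=
      fun j hj => (f4 P _ hPm hPi (hroot j hj)).1
    have hle : ∀ c' ∈ Cst (Nat.card F) (Kgs F), nm v (ι (tt F - c')) ≤ 1 :=
      fun c' hc' => (ms _ _).trans (max_le ht (mc c' hc'))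
    have hprod : ∏ i ∈ Finset.range P.natDegree, nm v (ι (tt F - c ^ Nat.card F ^ i)) = 1 / 2 := by
      have h1 : ∏ i ∈ Finset.range P.natDegree, (tt F - c ^ Nat.card F ^ i) =
          algebraMap (RatFunc F) (Kgs F) (algebraMap F[X] (RatFunc F) P) := by
        rw [← Dpl_eval, fprod, Polynomial.eval_prod]
        refine Finset.prod_congr rfl fun i _ => ?_
        simp
      have h2 : ∀ s : Finset ℕ, ∏ i ∈ s, nm v (ι (tt F - c ^ Nat.card F ^ i)) =
          nm v (ι (∏ i ∈ s, (tt F - c ^ Nat.card F ^ i))) := by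
        intro s
        classical
        induction s using Finset.induction_on with
        | empty =>
          rw [Finset.prod_empty, Finset.prod_empty]
          exact (mc' 1 co one_ne_zero).symm
        | insert a s ha ih => rw [Finset.prod_insert ha, Finset.prod_insert ha, mm, ih]
      rw [h2, h1, mx, hvP]
    obtain ⟨j, hj, hj1⟩ : ∃ j ∈ Finset.range P.natDegree,
        nm v (ι (tt F - c ^ Nat.card F ^ j)) < 1 := by
      by_contra hcon
      push Not at hcon
      have : ∏ i ∈ Finset.range P.natDegree, nm v (ι (tt F - c ^ Nat.card F ^ i)) = 1 := by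
        refine Finset.prod_eq_one fun i hi => ?_
        exact le_antisymm (hle _ (hcst i hi)) (hcon i hi)
      rw [hprod] at this
      norm_num at this
    have hone : ∀ c' ∈ Cst (Nat.card F) (Kgs F), c' ≠ c ^ Nat.card F ^ j →
        nm v (ι (tt F - c')) = 1 := by
      intro c' hc' hne
      refine le_antisymm (hle c' hc') ?_
      have hd : c' - c ^ Nat.card F ^ j ∈ Cst (Nat.card F) (Kgs F) := by
        rw [CharTwo.sub_eq_add]
        exact (ca _ hc' _ (hcst j hj)).1
      have h1 := mc' _ hd (sub_ne_zero.2 hne)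
      have h2 := ms (tt F - c ^ Nat.card F ^ j) (tt F - c')
      rw [show tt F - c ^ Nat.card F ^ j - (tt F - c') = c' - c ^ Nat.card F ^ j by ring,
        h1] at h2
      rcases le_max_iff.1 h2 with h3 | h3
      · exact absurd hj1 (not_lt.2 h3)
      · exact h3
    refine ⟨c ^ Nat.card F ^ j, hcst j hj, hroot j hj, ?_, hone⟩
    rw [hvP, ← hprod]
    symm
    refine Finset.prod_eq_single_of_mem j hj ?_
    intro i hi hij
    refine hone _ (hcst i hi) ?_
    intro h
    exact hij (finj i (Finset.mem_range.1 hi) j (Finset.mem_range.1 hj) h)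

end Pool.Agent.MP72W
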