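import Pool.Agent.Lib.MP_72e2e6_nt.W2.R.Spec

/-!
# MP_72e2e6_nt, theorem T3, R/Exp: exponents modulo `2 ^ k`
-/

namespace Pool.Agent.MP72W

open Polynomial IntermediateField

private theorem exp_cong {L : Type} [Field L] (k : ℕ) (u : L) (hu : u ≠ 0) (m n : ℕ)
    (h : (m : ZMod (2 ^ k)) = n) : EqN (2 ^ k) (u ^ m) (u ^ n) := by
  have h1 : ((m : ℤ) : ZMod (2 ^ k)) = ((n : ℤ) : ZMod (2 ^ k)) := by
    push_cast
    exact h
  have h2 := (ZMod.intCast_eq_intCast_iff_dvd_sub _ _ _).1 h1.symm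
  obtain ⟨j, hj⟩ := h2
  refine ⟨u ^ j, zpow_ne_zero j hu, ?_⟩
  have h3 : (m : ℤ) = n + j * ((2 ^ k : ℕ) : ℤ) := by linarith
  rw [← zpow_natCast u m, h3, zpow_add₀ hu, zpow_natCast, zpow_mul, zpow_natCast]

theorem tExp : S_Exp := by
  intro L _ k u hu
  have hv : ∀ a : ZMod (2 ^ k), ((a.val : ℕ) : ZMod (2 ^ k)) = a := fun a =>
    ZMod.natCast_zmod_val a
  refine ⟨?_, ?_, ?_, ?_, ?_, ?_, ?_⟩
  · intro a b
    rw [← pow_add]
    refine exp_cong k u hu _ _ ?_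
    rw [hv, Nat.cast_add, hv, hv]
  · intro a b
    rw [← pow_mul]
    refine exp_cong k u hu _ _ ?_
    rw [hv, Nat.cast_mul, hv, hv]
  · intro n
    refine exp_cong k u hu _ _ ?_
    rw [hv]
  · intro m n h
    exact exp_cong k u hu _ _ h
  · intro a
    refine exp_cong k u hu _ _ ?_
    have h1 : ((a.val : ℕ) : ZMod (2 ^ (k + 1))) = a := ZMod.natCast_zmod_val a
    rw [hv]
    conv_rhs => rw [← h1]
    rw [map_natCast]
  · rintro u' n ⟨s, hs, h⟩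
    refine ⟨s ^ n, pow_ne_zero n hs, ?_⟩
    rw [h, mul_pow, ← pow_mul, ← pow_mul, mul_comm n]
  · rintro a b c ⟨s, hs, h⟩ _
    refine ⟨⟨s⁻¹, inv_ne_zero hs, ?_⟩, ?_⟩
    · rw [h, inv_pow, mul_assoc, mul_inv_cancel₀ (pow_ne_zero _ hs), mul_one]
    · rintro ⟨s', hs', h'⟩
      refine ⟨s * s', mul_ne_zero hs hs', ?_⟩
      rw [h, h', mul_pow]
      ring

end Pool.Agent.MP72W
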