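import Pool.Agent.Lib.MP_72e2e6_nt.W2.R.Spec
import Pool.Agent.Lib.MP_72e2e6_nt.W2.A.Spec

/-!
# MP_72e2e6_nt, theorem T3, part R: the count
-/

set_option autoImplicit false

namespace Pool.Agent.MP72W

open Polynomial IntermediateField

private theorem fcn_adm_div (hLfP : S_LfP) (hLc2 : S_Lc2) {F : Type} [Field F] [Finite F]
    [CharP F 2] {PP : Finset F[X]} {K : ℕ} {χ : GS PP → ZMod (2 ^ K)} {u u' : Kgs F}
    (hu : Adm PP K χ u) (hu' : Adm PP K χ u') : Adm PP K χ (u / u') := by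
  refine ⟨div_ne_zero hu.ne hu'.ne, ?_, ?_⟩
  · intro σ
    obtain ⟨s, hs0, hs⟩ := hu.gal σ
    obtain ⟨s', hs'0, hs'⟩ := hu'.gal σ
    refine ⟨s / s', div_ne_zero hs0 hs'0, ?_⟩
    rw [map_div₀, hs, hs', div_pow, div_pow, mul_div_mul_comm]
  · intro P hPm hPi hP v hv ι
    obtain ⟨R, hR⟩ := hLfP F P v hv
    obtain ⟨r, hrn, hr0, ⟨s, hs0, hs⟩, x, hx, hxd⟩ := hu.unr P hPm hPi hP v hv ι
    obtain ⟨r', hrn', hr0', ⟨s', hs0', hs'⟩, x', hx', hxd'⟩ := hu'.unr P hPm hPi hP v hv ι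
    refine ⟨r / r', (Knr v).div_mem hrn hrn', div_ne_zero hr0 hr0',
      ⟨s / s', div_ne_zero hs0 hs0', ?_⟩, x - x', ?_, dvd_sub hxd hxd'⟩
    · rw [map_div₀, hs, hs', div_pow, mul_div_mul_comm]
    · have hp0 : v (algebraMap F[X] (RatFunc F) P) ≠ 0 := hR.pi0.ne'
      have hmul := (hLc2 F v _ _ R hR).2.2.1 (r / r') r'
      rw [div_mul_cancel₀ _ hr0', hx, hx'] at hmul
      rw [zpow_sub₀ hp0, hmul, mul_div_cancel_right₀ _ (zpow_ne_zero _ hp0)]

theorem tFCn (hLfP : S_LfP) (hLfI : S_LfI) (_ : S_Lc1) (hLc2 : S_Lc2) (hLvU : S_LvU)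
    (hLvA : S_LvA) (hVal : S_Val) (hRgo : S_Rgo) (_ : S_Exp) (hMu : S_Mu) (hDuK : S_DuK)
    (hGoo : S_Goo) (hZex : S_Zex) (_ : S_Dec) (hOr1 : S_Or1) (hOr2 : S_Or2) (hInj : S_Inj) :
    S_FCn := by
  intro F _ _ _ κ hκ PP hPP A hA g₀ hg₀ K χ hχ U hU hUinj
  classical
  have hgood := hGoo F κ hκ PP hPP A hA
  have hchr : Chr (fun g => rdK K (χ g)) := by
    refine ⟨hχ.loc.comp (rdK K), ?_, ?_⟩
    · show rdK K (χ 1) = 1
      rw [hχ.one, map_one]
    · intro x y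
      show rdK K (χ (x * y)) = rdK K (χ x) * rdK K (χ y)
      rw [hχ.mul, map_mul]
  have hzex := hZex (GS PP) PP (AS PP) (famC κ A) hgood K (fun g => rdK K (χ g)) hchr
  choose z hz using hzex
  have hzw : IsZw κ A K (fun g => rdK K (χ g)) z := fun w => hz w
  have hLF : ∀ w : Option PP, ∃ R, LF (A.av w) (dgP (w.map Subtype.val))
      (unP (w.map Subtype.val)) R := by
    intro w
    have hpl := hA.pl w
    cases w with
    | none => exact hLfI F (A.av none) hpl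
    | some P => exact hLfP F P.1 (A.av (some P)) hpl
  have hex : ∀ (u : Kgs F) (w : Option PP), ∃ x : ℤ, Adm PP K (fun g => rdK K (χ g)) u →
      LVw A g₀ K w (lz (A.emb w) u (z w)) x := by
    intro u w
    by_cases hu : Adm PP K (fun g => rdK K (χ g)) u
    · obtain ⟨R, hR⟩ := hLF w
      have hNC : NCoc (2 ^ K) (mz u (z w)) :=
        hMu F PP hPP K (fun g => rdK K (χ g)) (z w) u hu.ne hu.gal (hz w).1
      obtain ⟨x, hx⟩ := (hVal F K (mz u (z w)) hNC (A.av w) _ _ R hR (A.emb w) (g₀ w) (hg₀ w)).2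
      rw [(hRgo F PP hPP).2.2.2 (A.av w) (A.emb w) K u (z w)] at hx
      exact ⟨x, fun _ => hx⟩
    · exact ⟨0, fun h => absurd h hu⟩
  choose θ hθ using hex
  set T : Set (PP → ZMod (2 ^ K)) := {θ : PP → ZMod (2 ^ K) | ∀ θ' : PP → ZMod (2 ^ (K + 1)),
    (∀ v, ZMod.castHom (pow_dvd_pow 2 (Nat.le_succ K)) (ZMod (2 ^ K)) (θ' v) = θ v) →
      ∀ a, ∑ v, θ' v * Tv (famC κ A).W (famC κ A).φ χ a v = 0} with hT
  have hcard := hDuK (GS PP) PP (famC κ A).W (famC κ A).φ hgood.uex hgood.h2 K χ hχ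
  rw [Fintype.card_coe] at hcard
  set f : Kgs F → PP → ZMod (2 ^ K) := fun u v => (θ u (some v) : ZMod (2 ^ K)) with hf
  have hmaps : ∀ u ∈ U, f u ∈ T := by
    intro u hu θ' hθ' a
    exact hOr1 F κ hκ PP hPP A hA g₀ hg₀ K χ hχ z hzw u (hU u hu).1 (hU u hu).2 (θ u)
      (fun w => hθ u w (hU u hu).1) θ' hθ' a
  have hinj : Set.InjOn f U := by
    intro u hu u' hu' hff
    apply hUinj u hu u' hu'
    have hadm := (hU u hu).1
    have hadm' := (hU u' hu').1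
    have hadm'' : Adm PP K (fun g => rdK K (χ g)) (u / u') := fcn_adm_div hLfP hLc2 hadm hadm'
    have hθ'' : ∀ w, LVw A g₀ K w (lz (A.emb w) (u / u') (z w)) (θ u w - θ u' w) := by
      intro w
      obtain ⟨R, hR⟩ := hLF w
      have h1 := hθ u w hadm
      have h2 := hθ u' w hadm'
      obtain ⟨-, hinv, -, -, -, -, -⟩ := hLvA F (A.av w) _ _ R hR K (g₀ w)
        (lz (A.emb w) u' (z w)) (lz (A.emb w) u' (z w)) (θ u' w) 0
      obtain ⟨hmul, -, -, -, -, -, -⟩ := hLvA F (A.av w) _ _ R hR K (g₀ w)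
        (lz (A.emb w) u (z w)) (fun g => (lz (A.emb w) u' (z w) g)⁻¹) (θ u w) (-θ u' w)
      have h3 := hmul h1 (hinv h2)
      have h4 : (fun g => lz (A.emb w) u (z w) g * (lz (A.emb w) u' (z w) g)⁻¹) =
          lz (A.emb w) (u / u') (z w) := by
        funext g
        show A.emb w u ^ _ * (A.emb w u' ^ _)⁻¹ = A.emb w (u / u') ^ _
        rw [map_div₀, div_pow, div_eq_mul_inv]
      rw [h4, ← sub_eq_add_neg] at h3
      exact h3
    have hv : ∀ v : PP, (2 ^ K : ℤ) ∣ θ u (some v) - θ u' (some v) := by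
      intro v
      have h1 : (θ u (some v) : ZMod (2 ^ K)) = (θ u' (some v) : ZMod (2 ^ K)) := congrFun hff v
      have h2 := (ZMod.intCast_eq_intCast_iff_dvd_sub _ _ _).mp h1.symm
      push_cast at h2
      exact h2
    have hn : (2 ^ K : ℤ) ∣ θ u none - θ u' none :=
      hOr2 F κ hκ PP hPP A hA g₀ hg₀ K (fun g => rdK K (χ g)) hchr z hzw (u / u') hadm''
        (fun w => θ u w - θ u' w) hθ'' hv
    have hall : ∀ w : Option PP, (2 ^ K : ℤ) ∣ θ u w - θ u' w := by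
      intro w
      cases w with
      | none => exact hn
      | some v => exact hv v
    have h5 := hInj F κ hκ PP hPP A hA g₀ hg₀ K (fun g => rdK K (χ g)) hchr z hzw (u / u') hadm''
      (by
        intro w x hx
        obtain ⟨R, hR⟩ := hLF w
        have h6 := hLvU F (A.av w) _ _ R hR K (g₀ w) _ x (θ u w - θ u' w) hx (hθ'' w)
        exact (dvd_sub_left (hall w)).mp h6)
    obtain ⟨s, hs0, hs⟩ := h5
    refine ⟨s, hs0, ?_⟩
    rw [one_mul] at hs
    rw [← hs, mul_div_cancel₀ _ hadm'.ne]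
  refine ⟨Set.Finite.of_injOn hmaps hinj (Set.toFinite T), ?_⟩
  rw [← hcard]
  exact Nat.mul_le_mul_right _ (Set.ncard_le_ncard_of_injOn f hmaps hinj (Set.toFinite T))

end Pool.Agent.MP72W
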