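import Pool.Agent.Lib.MP_72e2e6_nt.W2.R.Spec

/-!
# MP_72e2e6_nt, theorem T3, part R: the structure of the field of geometric constants `(t)`
-/

namespace Pool.Agent.MP72W

open Polynomial IntermediateField

section
variable {L : Type} [Field L] {q : ℕ}

/-- The constants as a subfield. -/
private theorem gst_sub [CharP L 2] [IsSepClosed L] (hCst : S_Cst) (r : ℕ) (hr : 1 ≤ r)
    (hq : q = 2 ^ r) : ∃ k : Subfield L, ∀ x, x ∈ k ↔ x ∈ Cst q L := by
  obtain ⟨h0, h1, h2, h3, -, -⟩ := hCst q r hr hq L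
  refine ⟨{ carrier := Cst q L
            mul_mem' := fun {a b} ha hb => (h2 a ha b hb).2
            one_mem' := h1
            add_mem' := fun {a b} ha hb => (h2 a ha b hb).1
            zero_mem' := h0
            neg_mem' := fun {a} ha => by
              rw [CharTwo.neg_eq]
              exact ha
            inv_mem' := fun a ha => h3 a ha }, fun x => Iff.rfl⟩

/-- An element algebraic over the prime field is a constant. -/
private theorem gst_alg [CharP L 2] (r : ℕ) (hq : q = 2 ^ r) (x : L)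
    (hx : letI := ZMod.algebra L 2; IsAlgebraic (ZMod 2) x) : x ∈ Cst q L := by
  let _ := ZMod.algebra L 2
  have : Fact (Nat.Prime 2) := ⟨Nat.prime_two⟩
  have hfd : FiniteDimensional (ZMod 2) (ZMod 2)⟮x⟯ :=
    IntermediateField.adjoin.finiteDimensional hx.isIntegral
  have hfin : Finite (ZMod 2)⟮x⟯ := Module.finite_of_finite (ZMod 2)
  have : Fintype (ZMod 2)⟮x⟯ := Fintype.ofFinite _
  set m := Module.finrank (ZMod 2) (ZMod 2)⟮x⟯ with hm
  have hm1 : 1 ≤ m := Module.finrank_pos
  have hcard : Fintype.card (ZMod 2)⟮x⟯ = 2 ^ m := by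
    rw [← Nat.card_eq_fintype_card, Module.natCard_eq_pow_finrank (K := ZMod 2), Nat.card_zmod]
  have h1 : x ^ 2 ^ m = x := by
    have h2 := FiniteField.pow_card (⟨x, mem_adjoin_simple_self _ _⟩ : (ZMod 2)⟮x⟯)
    rw [hcard] at h2
    exact congrArg Subtype.val h2
  refine ⟨m, hm1, ?_⟩
  have h3 : ∀ j : ℕ, x ^ 2 ^ (j * m) = x := by
    intro j
    induction j with
    | zero => rw [zero_mul, pow_zero, pow_one]
    | succ j ih => rw [Nat.succ_mul, pow_add, pow_mul, ih, h1]
  rw [hq, ← pow_mul]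
  exact h3 r

/-- The constants are algebraic over the prime field. -/
private theorem gst_alg' [CharP L 2] (hq : 2 ≤ q) (x : L) (hx : x ∈ Cst q L) :
    letI := ZMod.algebra L 2; IsAlgebraic (ZMod 2) x := by
  let _ := ZMod.algebra L 2
  obtain ⟨n, hn, h⟩ := hx
  have h1 : 1 < q ^ n := Nat.one_lt_pow (by omega) (by omega)
  refine ⟨X ^ (q ^ n) - X, FiniteField.X_pow_card_sub_X_ne_zero (ZMod 2) h1, ?_⟩
  rw [map_sub, map_pow, aeval_X, h, sub_self]

private theorem gst_tower {k : Type} [Field k] [CharP k 2] [CharP L 2] [Algebra k L]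
    (h : letI := ZMod.algebra L 2; ∀ x : k, IsAlgebraic (ZMod 2) (algebraMap k L x)) (θ : L)
    (hθ : IsAlgebraic k θ) : letI := ZMod.algebra L 2; IsAlgebraic (ZMod 2) θ := by
  let _ := ZMod.algebra L 2
  let _ := ZMod.algebra k 2
  have : Fact (Nat.Prime 2) := ⟨Nat.prime_two⟩
  have hst : IsScalarTower (ZMod 2) k L := IsScalarTower.of_algebraMap_eq' (Subsingleton.elim _ _)
  have hka : Algebra.IsAlgebraic (ZMod 2) k :=
    ⟨fun x => (isAlgebraic_algebraMap_iff (algebraMap k L).injective).1 (h x)⟩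
  exact hθ.restrictScalars (ZMod 2)

/-- The field of constants is algebraically closed. -/
private theorem gst_closed [CharP L 2] [IsSepClosed L] (r : ℕ) (hr : 1 ≤ r) (hq : q = 2 ^ r)
    (k : Subfield L) (hk : ∀ x, x ∈ k ↔ x ∈ Cst q L) : IsAlgClosed k := by
  have hq2 : 2 ≤ q := by
    rw [hq]
    calc 2 = 2 ^ 1 := (pow_one 2).symm
      _ ≤ 2 ^ r := Nat.pow_le_pow_right (by norm_num) hr
  have hc : CharP k 2 := (algebraMap k L).charP (algebraMap k L).injective 2
  have : Fact (Nat.Prime 2) := ⟨Nat.prime_two⟩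
  have hexp : ExpChar k 2 := ExpChar.prime Nat.prime_two
  have hperf : PerfectRing k 2 := by
    refine PerfectRing.ofSurjective k 2 fun x => ?_
    obtain ⟨n, hn, h⟩ := (hk x).1 x.2
    have h1 : 1 ≤ r * n := Nat.mul_pos hr hn
    refine ⟨x ^ 2 ^ (r * n - 1), ?_⟩
    rw [frobenius_def, ← pow_mul, ← pow_succ, Nat.sub_add_cancel h1]
    apply Subtype.ext
    rw [hq, ← pow_mul] at h
    exact h
  have hpf : PerfectField k := PerfectRing.toPerfectField k 2
  refine IsAlgClosed.of_exists_root k fun p _ hp => ?_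
  obtain ⟨θ, hθ⟩ := IsSepClosed.exists_aeval_eq_zero L p (degree_pos_of_irreducible hp).ne'
    (PerfectField.separable_of_irreducible hp)
  have hθk : θ ∈ k := (hk θ).2 (gst_alg r hq θ (gst_tower
    (fun x : k => gst_alg' hq2 (x : L) ((hk _).1 x.2)) θ ⟨p, hp.ne_zero, hθ⟩))
  refine ⟨⟨θ, hθk⟩, ?_⟩
  apply Subtype.val_injective
  have h1 : aeval (algebraMap k L ⟨θ, hθk⟩) p = 0 := hθ
  rw [aeval_algebraMap_apply] at h1
  exact h1

end

section
variable {L : Type} [Field L] (k : Subfield L) (t : L)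

/-- The products of powers of the `t - c`. -/
private def gstP (x : L) : Prop := ∃ a ∈ k, a ≠ 0 ∧ ∃ (T : Finset L) (n : L → ℤ),
  (∀ c ∈ T, c ∈ k) ∧ x = a * ∏ c ∈ T, (t - c) ^ n c

variable {k t}

private theorem gstP_mul (ht : t ∉ k) {x y : L} (hx : gstP k t x) (hy : gstP k t y) :
    gstP k t (x * y) := by
  classical
  obtain ⟨a, ha, ha0, T, n, hT, rfl⟩ := hx
  obtain ⟨b, hb, hb0, T', n', hT', rfl⟩ := hy
  have hne : ∀ c ∈ T ∪ T', t - c ≠ 0 := by
    intro c hc h0
    rw [sub_eq_zero] at h0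
    rcases Finset.mem_union.1 hc with h | h
    · exact ht (h0 ▸ hT c h)
    · exact ht (h0 ▸ hT' c h)
  refine ⟨a * b, k.mul_mem ha hb, mul_ne_zero ha0 hb0, T ∪ T',
    fun c => (if c ∈ T then n c else 0) + if c ∈ T' then n' c else 0, ?_, ?_⟩
  · intro c hc
    rcases Finset.mem_union.1 hc with h | h
    · exact hT c h
    · exact hT' c h
  · have h1 : ∏ c ∈ T ∪ T', (t - c) ^ ((if c ∈ T then n c else 0) + if c ∈ T' then n' c else 0) =
        (∏ c ∈ T ∪ T', (t - c) ^ (if c ∈ T then n c else 0)) *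
        ∏ c ∈ T ∪ T', (t - c) ^ (if c ∈ T' then n' c else 0) := by
      rw [← Finset.prod_mul_distrib]
      exact Finset.prod_congr rfl fun c hc => zpow_add₀ (hne c hc) _ _
    have h2 : ∏ c ∈ T ∪ T', (t - c) ^ (if c ∈ T then n c else 0) = ∏ c ∈ T, (t - c) ^ n c := by
      rw [← Finset.prod_subset Finset.subset_union_left (fun c _ hc => by
        rw [if_neg hc, zpow_zero])]
      exact Finset.prod_congr rfl fun c hc => by rw [if_pos hc]
    have h3 : ∏ c ∈ T ∪ T', (t - c) ^ (if c ∈ T' then n' c else 0) =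
        ∏ c ∈ T', (t - c) ^ n' c := by
      rw [← Finset.prod_subset Finset.subset_union_right (fun c _ hc => by
        rw [if_neg hc, zpow_zero])]
      exact Finset.prod_congr rfl fun c hc => by rw [if_pos hc]
    rw [h1, h2, h3]
    ring

private theorem gstP_inv {x : L} (hx : gstP k t x) : gstP k t x⁻¹ := by
  obtain ⟨a, ha, ha0, T, n, hT, rfl⟩ := hx
  refine ⟨a⁻¹, k.inv_mem ha, inv_ne_zero ha0, T, fun c => -n c, hT, ?_⟩
  rw [mul_inv, ← Finset.prod_inv_distrib]
  congr 1
  exact Finset.prod_congr rfl fun c _ => (zpow_neg _ _).symm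

private theorem gstP_const {a : L} (ha : a ∈ k) (ha0 : a ≠ 0) : gstP k t a :=
  ⟨a, ha, ha0, ∅, fun _ => 0, by simp, by simp⟩

private theorem gstP_lin {c : L} (hc : c ∈ k) : gstP k t (t - c) :=
  ⟨1, k.one_mem, one_ne_zero, {c}, fun _ => 1, by simpa using hc, by simp⟩

private theorem gstP_poly (ht : t ∉ k) (hk : IsAlgClosed k) (a : k[X]) (ha : a ≠ 0) :
    gstP k t (aeval t a) := by
  have h1 : aeval t a = (a.leadingCoeff : L) * (a.roots.map (fun c : k => t - (c : L))).prod := by
    conv_lhs => rw [(IsAlgClosed.splits a).eq_prod_roots]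
    rw [map_mul, aeval_C, map_multiset_prod, Multiset.map_map]
    congr 2
    refine Multiset.map_congr rfl fun c _ => ?_
    rw [Function.comp_apply, map_sub, aeval_X, aeval_C]
    rfl
  rw [h1]
  refine gstP_mul ht (gstP_const a.leadingCoeff.2 ?_) ?_
  · intro h
    exact ha (leadingCoeff_eq_zero.1 (Subtype.ext h))
  · induction a.roots using Multiset.induction_on with
    | empty => simpa using gstP_const (t := t) k.one_mem one_ne_zero
    | cons c s ih =>
      rw [Multiset.map_cons, Multiset.prod_cons]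
      exact gstP_mul ht (gstP_lin c.2) ih

/-- Partial fractions. -/
private theorem gst_pf (ht : t ∉ k) (hk : IsAlgClosed k) (I : AddSubgroup L)
    (h1 : ∀ a ∈ k, ∀ n : ℕ, a * t ^ n ∈ I)
    (h2 : ∀ a ∈ k, ∀ c ∈ k, ∀ i : ℕ, 1 ≤ i → a / (t - c) ^ i ∈ I) (a b : k[X]) :
    aeval t a / aeval t b ∈ I := by
  have hne : ∀ c ∈ k, t - c ≠ 0 := by
    intro c hc h0
    rw [sub_eq_zero] at h0
    exact ht (h0 ▸ hc)
  -- the subgroup generated by the simple fractions
  let S : AddSubgroup L := AddSubgroup.closure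
    ({x | ∃ a ∈ k, ∃ n : ℕ, x = a * t ^ n} ∪
      {x | ∃ a ∈ k, ∃ c ∈ k, ∃ i : ℕ, 1 ≤ i ∧ x = a / (t - c) ^ i})
  have hS1 : ∀ a ∈ k, ∀ n : ℕ, a * t ^ n ∈ S := fun a ha n =>
    AddSubgroup.subset_closure (Or.inl ⟨a, ha, n, rfl⟩)
  have hS2 : ∀ a ∈ k, ∀ c ∈ k, ∀ i : ℕ, 1 ≤ i → a / (t - c) ^ i ∈ S := fun a ha c hc i hi =>
    AddSubgroup.subset_closure (Or.inr ⟨a, ha, c, hc, i, hi, rfl⟩)
  have hSI : S ≤ I := by
    rw [AddSubgroup.closure_le]
    rintro x (⟨a, ha, n, rfl⟩ | ⟨a, ha, c, hc, i, hi, rfl⟩)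
    · exact h1 a ha n
    · exact h2 a ha c hc i hi
  have hG1 : ∀ d ∈ k, ∀ (n : ℕ), ∀ a ∈ k, a * t ^ n / (t - d) ∈ S := by
    intro d hd n
    induction n with
    | zero =>
      intro a ha
      have := hS2 a ha d hd 1 le_rfl
      rw [pow_one] at this
      rwa [pow_zero, mul_one]
    | succ n ih =>
      intro a ha
      have e : a * t ^ (n + 1) / (t - d) = a * t ^ n + (a * d) * t ^ n / (t - d) := by
        have := hne d hd
        field_simp
        ring
      rw [e]
      exact S.add_mem (hS1 a ha n) (ih _ (k.mul_mem ha hd))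
  have hG2 : ∀ d ∈ k, ∀ c ∈ k, ∀ (i : ℕ), ∀ a ∈ k, a / (t - c) ^ i / (t - d) ∈ S := by
    intro d hd c hc i
    by_cases hcd : c = d
    · intro a ha
      rw [hcd, div_div, ← pow_succ]
      exact hS2 a ha d hd (i + 1) (by omega)
    · have hcd' : c - d ≠ 0 := sub_ne_zero.2 hcd
      induction i with
      | zero =>
        intro a ha
        have := hS2 a ha d hd 1 le_rfl
        rw [pow_one] at this
        rwa [pow_zero, div_one]
      | succ i ih =>
        intro a ha
        have hca : a / (c - d) ∈ k := k.div_mem ha (k.sub_mem hc hd)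
        have e : a / (t - c) ^ (i + 1) / (t - d) =
            (a / (c - d)) / (t - c) ^ (i + 1) - (a / (c - d)) / (t - c) ^ i / (t - d) := by
          have h3 := hne d hd
          have h4 := hne c hc
          rw [pow_succ]
          field_simp
          ring
        rw [e]
        exact S.sub_mem (hS2 _ hca c hc (i + 1) (by omega)) (ih _ hca)
  have hdiv : ∀ d ∈ k, ∀ x ∈ S, x / (t - d) ∈ S := by
    intro d hd x hx
    refine AddSubgroup.closure_induction (p := fun x _ => x / (t - d) ∈ S) ?_ ?_ ?_ ?_ hx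
    · rintro y (⟨a, ha, n, rfl⟩ | ⟨a, ha, c, hc, i, -, rfl⟩)
      · exact hG1 d hd n a ha
      · exact hG2 d hd c hc i a ha
    · rw [zero_div]
      exact S.zero_mem
    · intro x y _ _ hx hy
      rw [add_div]
      exact S.add_mem hx hy
    · intro x _ hx
      rw [neg_div]
      exact S.neg_mem hx
  have hpoly : ∀ p : k[X], aeval t p ∈ S := by
    intro p
    induction p using Polynomial.induction_on' with
    | add p q hp hq =>
      rw [map_add]
      exact S.add_mem hp hq
    | monomial n c =>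
      rw [aeval_monomial]
      exact hS1 _ c.2 n
  have hprod : ∀ (s : Multiset k), ∀ x ∈ S, x / (s.map (fun c : k => t - (c : L))).prod ∈ S := by
    intro s
    induction s using Multiset.induction_on with
    | empty =>
      intro x hx
      simpa using hx
    | cons c s ih =>
      intro x hx
      rw [Multiset.map_cons, Multiset.prod_cons, ← div_div]
      exact ih _ (hdiv c c.2 x hx)
  refine hSI ?_
  have e1 : aeval t b = (b.leadingCoeff : L) * (b.roots.map (fun c : k => t - (c : L))).prod := by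
    conv_lhs => rw [(IsAlgClosed.splits b).eq_prod_roots]
    rw [map_mul, aeval_C, map_multiset_prod, Multiset.map_map]
    congr 2
    refine Multiset.map_congr rfl fun c _ => ?_
    rw [Function.comp_apply, map_sub, aeval_X, aeval_C]
    rfl
  have e2 : aeval t a / aeval t b = aeval t (C (b.leadingCoeff)⁻¹ * a) /
      (b.roots.map (fun c : k => t - (c : L))).prod := by
    rw [e1, map_mul, aeval_C, div_mul_eq_div_div]
    congr 1
    rw [map_inv₀, div_eq_mul_inv, mul_comm]
    rfl
  rw [e2]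
  exact hprod _ _ (hpoly _)

end

theorem tGst : S_Cst → S_FrG → S_Gst := by
  intro hCst hFrG F _ _ _
  have : Fintype F := Fintype.ofFinite F
  have hc2 : CharP (RatFunc F) 2 := charP_of_injective_algebraMap
    (algebraMap F (RatFunc F)).injective 2
  have hc3 : CharP (Kgs F) 2 := charP_of_injective_algebraMap
    (algebraMap (RatFunc F) (Kgs F)).injective 2
  obtain ⟨r, -, hr⟩ := FiniteField.card F 2
  have hq : Nat.card F = 2 ^ (r : ℕ) := by rw [Nat.card_eq_fintype_card, hr]
  obtain ⟨k, hk⟩ := gst_sub (L := Kgs F) hCst (r : ℕ) r.pos hq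
  have hcl := gst_closed (r : ℕ) r.pos hq k hk
  obtain ⟨hF1, -, -, -, -⟩ := hFrG F
  have ht : tt F ∉ k := by
    intro h
    obtain ⟨c, hc⟩ := hF1 _ ((hk _).1 h)
    have := congrArg RatFunc.intDegree hc
    rw [RatFunc.intDegree_X, RatFunc.intDegree_C] at this
    omega
  -- the elements of `Kgeo F` are quotients
  have hFk : ∀ c : F, algebraMap (RatFunc F) (Kgs F) (RatFunc.C c) ∈ k := by
    intro c
    rw [hk]
    refine ⟨1, le_rfl, ?_⟩
    rw [pow_one, ← map_pow, ← map_pow, Nat.card_eq_fintype_card, FiniteField.pow_card]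
  have hgeo : ∀ e ∈ Kgeo F, ∃ a b : k[X], e = aeval (tt F) a / aeval (tt F) b := by
    intro e he
    rw [← mem_adjoin_simple_iff k e]
    have htk : tt F ∈ k⟮tt F⟯ := mem_adjoin_simple_self _ _
    have hkk : ∀ x ∈ k, x ∈ k⟮tt F⟯ := fun x hx =>
      IntermediateField.algebraMap_mem k⟮tt F⟯ (⟨x, hx⟩ : k)
    refine IntermediateField.adjoin_induction (RatFunc F)
      (p := fun x _ => x ∈ k⟮tt F⟯) ?_ ?_ ?_ ?_ ?_ he
    · intro x hx
      exact hkk x ((hk x).2 hx)
    · intro x
      have hp : ∀ p : F[X], algebraMap (RatFunc F) (Kgs F) (algebraMap F[X] (RatFunc F) p) ∈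
          k⟮tt F⟯ := by
        intro p
        induction p using Polynomial.induction_on' with
        | add p q hp hq =>
          rw [map_add, map_add]
          exact add_mem hp hq
        | monomial n c =>
          rw [← C_mul_X_pow_eq_monomial, map_mul, map_pow, RatFunc.algebraMap_C,
            RatFunc.algebraMap_X, map_mul, map_pow]
          exact mul_mem (hkk _ (hFk c)) (pow_mem htk n)
      rw [← RatFunc.num_div_denom x, map_div₀]
      exact div_mem (hp _) (hp _)
    · intro x y _ _ hx hy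
      exact add_mem hx hy
    · intro x _ hx
      exact inv_mem hx
    · intro x y _ _ hx hy
      exact mul_mem hx hy
  constructor
  · intro ρ hρ hρ0
    obtain ⟨a, b, hab⟩ := hgeo ρ hρ
    have ha : a ≠ 0 := by
      rintro rfl
      rw [map_zero, zero_div] at hab
      exact hρ0 hab
    have hb : b ≠ 0 := by
      rintro rfl
      rw [map_zero, div_zero] at hab
      exact hρ0 hab
    have h1 : gstP k (tt F) ρ := by
      rw [hab, div_eq_mul_inv]
      exact gstP_mul ht (gstP_poly ht hcl a ha) (gstP_inv (gstP_poly ht hcl b hb))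
    obtain ⟨x, hx, hx0, T, n, hT, he⟩ := h1
    exact ⟨x, (hk x).1 hx, hx0, T, n, fun c hc => (hk c).1 (hT c hc), he⟩
  · intro I hI1 hI2 e he
    obtain ⟨a, b, rfl⟩ := hgeo e he
    exact gst_pf ht hcl I (fun a ha n => hI1 a ((hk a).1 ha) n)
      (fun a ha c hc i hi => hI2 a ((hk a).1 ha) c ((hk c).1 hc) i hi) a b

end Pool.Agent.MP72W
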