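import Pool.Agent.Lib.MP_72e2e6_nt.W2.R.Spec

/-!
# MP_72e2e6_nt, theorem T3, part R: injectivity
-/

set_option autoImplicit false

namespace Pool.Agent.MP72W

open Polynomial IntermediateField

private theorem inj_sq {L : Type} [Field L] (h2 : (2 : L) = 0) {x y : L} (h : x ^ 2 = y ^ 2) :
    x = y := by
  have h1 : (x - y) ^ 2 = 0 := by linear_combination h + (y ^ 2 - x * y) * h2
  exact sub_eq_zero.1 (pow_eq_zero_iff two_ne_zero |>.1 h1)

private theorem inj_rdK_val (K : ℕ) (a : ZMod (2 ^ (K + 1))) : (rdK K a).val = a.val % 2 ^ K := by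
  have h : rdK K a = ((a.val : ℕ) : ZMod (2 ^ K)) := by
    unfold rdK
    rw [ZMod.castHom_apply, ZMod.natCast_val]
  rw [h, ZMod.val_natCast]

private theorem inj_trans {L : Type} [Field L] {N : ℕ} {a b c : L} (h1 : EqN N a b)
    (h2 : EqN N b c) : EqN N a c := by
  obtain ⟨s, hs, rfl⟩ := h1
  obtain ⟨t, ht, rfl⟩ := h2
  exact ⟨t * s, mul_ne_zero ht hs, by rw [mul_pow]; ring⟩

theorem tInj (hLfP : S_LfP) (hLfI : S_LfI) (_ : S_Lc1) (hLc2 : S_Lc2) (hNr : S_Nr)
    (_ : S_LvU) (hLvA : S_LvA) (_ : S_Val) (_ : S_Rgo) (hExp : S_Exp) (_ : S_Mu)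
    (hAdm : S_Adm) : S_Inj := by
  intro F _ _ _ κ hκ PP hPP A hA g₀ hg₀ K
  have hchar : CharP (RatFunc F) 2 := charP_of_injective_algebraMap
    (algebraMap F (RatFunc F)).injective 2
  have h2K : (2 : RatFunc F) = 0 := CharTwo.two_eq_zero
  have h2 : (2 : Kgs F) = 0 := by
    have := congrArg (algebraMap (RatFunc F) (Kgs F)) h2K
    rwa [map_ofNat, map_zero] at this
  have hLF : ∀ w : Option PP, ∃ d R, LF (A.av w) d (unP (w.map Subtype.val)) R := by
    intro w
    have hpl := hA.pl w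
    cases w with
    | none =>
      obtain ⟨R, hR⟩ := hLfI F (A.av none) hpl
      exact ⟨1, R, hR⟩
    | some P =>
      obtain ⟨R, hR⟩ := hLfP F P.1 (A.av (some P)) hpl
      exact ⟨P.1.natDegree, R, hR⟩
  induction K with
  | zero =>
    intro χ hχ z hz u hu _
    exact ⟨u, hu.ne, by rw [pow_zero, pow_one, one_mul]⟩
  | succ K ih =>
    intro χ hχ z hz u hu hloc
    obtain ⟨u₁, hu₁⟩ := hAdm F κ hκ PP hPP A hA g₀ hg₀ K χ hχ z hz u hu hloc
    have hu₁0 : u₁ ≠ 0 := by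
      rintro rfl
      exact hu.ne (by rw [hu₁, zero_pow two_ne_zero])
    have hchr : Chr (fun g => rdK K (χ g)) := by
      refine ⟨hχ.loc.comp (rdK K), ?_, ?_⟩
      · show rdK K (χ 1) = 1
        rw [hχ.one, map_one]
      · intro x y
        show rdK K (χ (x * y)) = rdK K (χ x) * rdK K (χ y)
        rw [hχ.mul, map_mul]
    have hz' : IsZw κ A K (fun g => rdK K (χ g)) (fun w g => rdK K (z w g)) := by
      intro w
      obtain ⟨hzc, hz0, hz1⟩ := hz w
      refine ⟨⟨hzc.loc.comp (rdK K), ?_⟩, ?_, ?_⟩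
      · intro g h
        have h1 : z w (g * h) = z w g + χ g * z w h := hzc.mul g h
        show rdK K (z w (g * h)) = rdK K (z w g) + rdK K (χ g) * rdK K (z w h)
        rw [h1, map_add, map_mul]
      · intro g hg
        show rdK K (z w g) = 0
        rw [hz0 g hg, map_zero]
      · show rdK K (z w ((famC κ A).φ w)) = 1
        rw [hz1, map_one]
    have hadm : Adm PP K (fun g => rdK K (χ g)) u₁ := by
      refine ⟨hu₁0, ?_, ?_⟩
      · intro σ
        obtain ⟨s, hs0, hs⟩ := hu.gal σ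
        have h1 : σ u₁ = u₁ ^ (χ (rG PP σ)).val * s ^ 2 ^ K := by
          apply inj_sq h2
          rw [← map_pow, ← hu₁, hs, hu₁]
          ring
        have h3 : EqN (2 ^ K) (σ u₁) (u₁ ^ (χ (rG PP σ)).val) := ⟨s, hs0, h1⟩
        exact inj_trans h3 ((hExp (Kgs F) K u₁ hu₁0).2.2.2.2.1 (χ (rG PP σ)))
      · intro P hPm hPi hP v hv ι
        obtain ⟨R, hR⟩ := hLfP F P v hv
        obtain ⟨r, hrn, hr0, ⟨s, hs0, hs⟩, x, hx, hxd⟩ := hu.unr P hPm hPi hP v hv ι
        have hιu₁ : ι u₁ ≠ 0 := by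
          rw [Ne, map_eq_zero]
          exact hu₁0
        have hsK : s ^ 2 ^ K ≠ 0 := pow_ne_zero _ hs0
        have hsq : (ι u₁ / s ^ 2 ^ K) ^ 2 = r := by
          rw [div_pow, ← pow_mul, ← pow_succ, ← map_pow, ← hu₁, hs]
          have : s ^ 2 ^ (K + 1) ≠ 0 := pow_ne_zero _ hs0
          field_simp
        have hmem : ι u₁ / s ^ 2 ^ K ∈ Knr v := by
          refine (hNr F v _ _ R hR).2.2.2.2.1 _ 1 ?_
          rw [pow_one, hsq]
          exact hrn
        have hr₁0 : ι u₁ / s ^ 2 ^ K ≠ 0 := div_ne_zero hιu₁ hsK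
        obtain ⟨x₁, hx₁⟩ := (hNr F v _ _ R hR).1 _ hmem hr₁0
        have hmul := (hLc2 F v _ _ R hR).2.2.1
        have hp0 : v (algebraMap F[X] (RatFunc F) P) ≠ 0 := hR.pi0.ne'
        have hxx : x = x₁ + x₁ := by
          have h3 : v (algebraMap F[X] (RatFunc F) P) ^ x =
              v (algebraMap F[X] (RatFunc F) P) ^ (x₁ + x₁) := by
            rw [zpow_add₀ hp0, ← hx₁, ← hmul, ← sq, hsq, hx]
          exact zpow_right_injective₀ hR.pi0 hR.pi1.ne h3
        refine ⟨ι u₁ / s ^ 2 ^ K, hmem, hr₁0, ⟨s, hs0, ?_⟩, x₁, hx₁, ?_⟩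
        · field_simp
        · obtain ⟨m, hm⟩ := hxd
          refine ⟨m, ?_⟩
          rw [hxx, pow_succ] at hm
          linarith
    have hfin := ih (fun g => rdK K (χ g)) hchr (fun w g => rdK K (z w g)) hz' u₁ hadm (by
      intro w x' hx'
      obtain ⟨d, R, hR⟩ := hLF w
      have hιu₁ : A.emb w u₁ ≠ 0 := by
        rw [Ne, map_eq_zero]
        exact hu₁0
      obtain ⟨-, -, -, -, -, hsqr, -⟩ := hLvA F (A.av w) d (unP (w.map Subtype.val)) R hR K (g₀ w)
        (lz (A.emb w) u₁ (fun g => rdK K (z w g))) (lz (A.emb w) u₁ (fun g => rdK K (z w g))) x' x'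
      have h1 := hsqr hx'
      obtain ⟨-, -, -, hcg, -, -, -⟩ := hLvA F (A.av w) d (unP (w.map Subtype.val)) R hR (K + 1)
        (g₀ w) (fun g => lz (A.emb w) u₁ (fun g => rdK K (z w g)) g ^ 2) (lz (A.emb w) u (z w))
        (2 * x') 0
      have h3 : LVw A g₀ (K + 1) w (lz (A.emb w) u (z w)) (2 * x') := by
        refine hcg (fun γ => ?_) h1
        set a : ZMod (2 ^ (K + 1)) := z w (rOm (PP := PP) (A.emb w) γ) with ha
        refine ⟨A.emb w u₁ ^ (a.val / 2 ^ K), pow_ne_zero _ hιu₁, ?_⟩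
        show A.emb w u ^ a.val = (A.emb w u₁ ^ (rdK K a).val) ^ 2 * _
        rw [inj_rdK_val, hu₁, map_pow, ← pow_mul, ← pow_mul, ← pow_mul, ← pow_add]
        congr 1
        have h4 := Nat.mod_add_div a.val (2 ^ K)
        generalize a.val = n at h4 ⊢
        have h5 : n / 2 ^ K * 2 ^ (K + 1) = 2 * (2 ^ K * (n / 2 ^ K)) := by
          rw [pow_succ]
          ring
        rw [h5]
        omega
      obtain ⟨m, hm⟩ := hloc w (2 * x') h3
      refine ⟨m, ?_⟩
      rw [pow_succ] at hm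
      linarith)
    obtain ⟨s, hs0, hs⟩ := hfin
    refine ⟨s, hs0, ?_⟩
    rw [hu₁, hs]
    ring

end Pool.Agent.MP72W
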