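import Pool.Agent.Lib.MP_72e2e6_nt.W2.R.Spec
import Pool.Agent.Lib.MP_72e2e6_nt.W2.A.Spec

/-!
# MP_72e2e6_nt, theorem T3, part R: local uniqueness (helper27)
-/

namespace Pool.Agent.MP72W

open Polynomial IntermediateField

private lemma loc_unit_pow (k : ℕ) : ∃ j : ℕ, ∀ a b : ZMod (2 ^ k), a * b = 1 → a ^ 2 ^ j = 1 := by
  rcases k with _ | k
  · refine ⟨0, fun a b _ => ?_⟩
    have : Subsingleton (ZMod (2 ^ 0)) := by
      rw [pow_zero]
      infer_instance
    exact Subsingleton.elim _ _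
  · refine ⟨k, fun a b hab => ?_⟩
    have h := ZMod.pow_totient (Units.mkOfMulEqOne a b hab)
    rw [Nat.totient_prime_pow_succ Nat.prime_two] at h
    have h2 := congrArg Units.val h
    rw [Units.val_pow_eq_pow_val, Units.val_mkOfMulEqOne, Units.val_one] at h2
    simpa using h2

/-- **Loc.** A crossed homomorphism on `GS PP` is determined on the local Galois group by its values
on `W w` and at `φ w`. -/
theorem tLoc (h1 : S_Uni) (h2 : S_Sep) (_h3 : S_Rgo) (h4 : S_Hlo) : S_Loc := by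
  intro F _ _ _ κ PP hPP A hA k χ hχ z z' hz hz' w hW hφ g
  have c1 : CharP (RatFunc F) 2 :=
    charP_of_injective_algebraMap (algebraMap F (RatFunc F)).injective 2
  have c2 : CharP (A.av w).Completion 2 :=
    charP_of_injective_algebraMap (algebraMap (RatFunc F) (A.av w).Completion).injective 2
  obtain ⟨hr, -, -⟩ := (h4 F PP hPP).2.2.1 (A.av w) (A.emb w)
  obtain ⟨r, hrd⟩ : ∃ r : Gal(Kvs (A.av w)/(A.av w).Completion) →* GS PP,
    r = rOm (PP := PP) (A.emb w) := ⟨_, rfl⟩
  rw [← hrd] at hr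
  obtain ⟨j, hj⟩ := loc_unit_pow k
  have hact : Act2 (fun (g : Gal(Kvs (A.av w)/(A.av w).Completion)) (x : ZMod (2 ^ k)) =>
      χ (r g) * x) := by
    refine ⟨fun g x y => mul_add _ _ _, fun x => ?_, fun g h x => ?_, fun x => ?_, fun g => ?_⟩
    · show χ (r 1) * x = x
      rw [map_one, hχ.one, one_mul]
    · show χ (r (g * h)) * x = χ (r g) * (χ (r h) * x)
      rw [map_mul, hχ.mul, mul_assoc]
    · exact (hχ.loc.comp_continuous hr).comp (fun y => y * x)
    · refine ⟨j, fun x => ?_⟩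
      show χ (r (g ^ 2 ^ j)) * x = x
      have hp : ∀ (a : GS PP) (n : ℕ), χ (a ^ n) = χ a ^ n := by
        intro a n
        induction n with
        | zero => rw [pow_zero, pow_zero, hχ.one]
        | succ n ih => rw [pow_succ, pow_succ, hχ.mul, ih]
      rw [map_pow, hp, hj (χ (r g)) (χ (r g)⁻¹) (by rw [← hχ.mul, mul_inv_cancel, hχ.one]),
        one_mul]
  have hcoc : ∀ y : GS PP → ZMod (2 ^ k), Coc (fun g x => χ g * x) y →
      Coc (fun (g : Gal(Kvs (A.av w)/(A.av w).Completion)) (x : ZMod (2 ^ k)) => χ (r g) * x)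
        (fun g => y (r g)) := by
    intro y hy
    refine ⟨hy.loc.comp_continuous hr, fun g h => ?_⟩
    show y (r (g * h)) = y (r g) + χ (r g) * y (r h)
    rw [map_mul, hy.mul]
  have hU := h1 Gal(Kvs (A.av w)/(A.av w).Completion) Unit (fun _ => A.W w) (A.φ w) (hA.uex w)
    (h2 (A.av w).Completion).1 (ZMod (2 ^ k)) k (Nat.card_zmod _) _ hact
    (fun _ g => z (r g)) (fun _ => by
      refine ⟨(hcoc z hz).loc.comp_continuous continuous_subtype_val, fun g h => ?_⟩
      exact (hcoc z hz).mul g h) (z (r (A.φ w)))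
  have e1 : (fun g => z (r g)) = fun g => z' (r g) := by
    refine hU.unique ⟨hcoc z hz, fun _ g => rfl, rfl⟩ ⟨hcoc z' hz', fun _ g => ?_, ?_⟩
    · refine (hW (r g) ?_).symm
      rw [hrd]
      exact Subgroup.mem_map_of_mem _ g.2
    · rw [hrd]
      exact hφ.symm
  rw [← hrd]
  exact congrFun e1 g

end Pool.Agent.MP72W
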