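import Pool.Agent.Lib.MP_72e2e6_nt.W2.R.Spec

/-!
# MP_72e2e6_nt, theorem T3, part R: the local invariants outside `PP` (helper27)
-/

namespace Pool.Agent.MP72W

open Polynomial IntermediateField

/-- **LvP.** The local invariants of `u ^ z` outside `PP` and infinity. -/
theorem tLvP (h1 : S_Av) (h2 : S_LfP) (_h3 : S_Lc1) (h4 : S_Lc2) (h5 : S_Fr) (h6 : S_Rgo)
    (h7 : S_Exp) (h8 : S_Onr) : S_LvP := by
  intro F _ _ _ PP hPP k χ z u hA hz P hPm hPi hPn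
  obtain ⟨v, hv⟩ := (h1 F).1 P hPm hPi
  obtain ⟨R, hLF⟩ := h2 F P v hv
  obtain ⟨g₀, hg₀⟩ := (h5 F v _ _ R hLF).1
  let ι : Kgs F →ₐ[RatFunc F] Kvs v := IsSepClosed.lift
  refine ⟨v, hv, ι, g₀, hg₀, ?_⟩
  obtain ⟨hn0, hnz, hnm, -, -, -, -, -, -⟩ := h4 F v _ _ R hLF
  have hn1 : nm v 1 = 1 := by
    have e := hnm 1 1
    rw [one_mul] at e
    have hne : nm v (1 : Kvs v) ≠ 0 := fun h => one_ne_zero ((hnz 1).1 h)
    exact (mul_right_cancel₀ hne (by rw [one_mul]; exact e)).symm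
  have hpow : ∀ (r : Kvs v) (n : ℕ), nm v (r ^ n) = nm v r ^ n := by
    intro r n
    induction n with
    | zero => rw [pow_zero, pow_zero, hn1]
    | succ n ih => rw [pow_succ, pow_succ, hnm, ih]
  have hlcl : lcl ι (mz u z) = lz ι u z := (h6 F PP hPP).2.2.2 v ι k u z
  -- `u ^ (z 1)` is an `N`-th power
  have hz1 : EqN (2 ^ k) (u ^ (z 1).val) 1 := by
    have e1 : χ 1 * z 1 = 0 := by
      have e := hz.mul 1 1
      rw [mul_one] at e
      exact left_eq_add.mp e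
    have e2 : EqN (2 ^ k) u (u ^ (χ 1).val) := by
      have e := hA.gal 1
      rw [map_one] at e
      exact e
    obtain ⟨x1, x2, x3, x4, x5, x6, x7⟩ := h7 (Kgs F) k u hA.ne
    have e3 := x6 (u ^ (χ 1).val) (z 1).val e2
    have e4 := x2 (χ 1) (z 1)
    rw [e1, ZMod.val_zero, pow_zero] at e4
    have e5 : (u ^ (χ 1).val) ^ (z 1).val ≠ 0 := pow_ne_zero _ (pow_ne_zero _ hA.ne)
    exact (x7 _ _ 1 e3 e5).2 (x7 _ _ 1 e4 e5).1
  have huι : ι u ≠ 0 := by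
    intro h
    exact hA.ne ((map_eq_zero_iff ι (RingHom.injective _)).1 h)
  obtain ⟨r, hrK, hr0, hur, x, hx, hdvd⟩ := hA.unr P hPm hPi hPn v hv ι
  obtain ⟨n, hn⟩ : ∃ n : ℕ, n = (z (rOm (PP := PP) ι g₀)).val := ⟨_, rfl⟩
  refine ⟨(n : ℤ) * x, ⟨1, r ^ n, one_ne_zero, pow_ne_zero _ hr0, pow_mem hrK n, ?_, ?_, ?_⟩,
    Dvd.dvd.mul_left hdvd _⟩
  · intro g hg
    rw [hlcl]
    unfold lz
    rw [(h8 F PP hPP P v hPn hv ι).2 g hg, map_one, div_one]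
    obtain ⟨s, hs, e⟩ := hz1
    refine ⟨ι s, fun h => hs ((map_eq_zero_iff ι (RingHom.injective _)).1 h), ?_⟩
    rw [← map_pow, e, map_mul, map_one, map_pow]
  · rw [hlcl]
    unfold lz
    rw [← hn, map_one, div_one, one_mul]
    exact (h7 (Kvs v) k (ι u) huι).2.2.2.2.2.1 r n hur
  · rw [hpow, hx, ← zpow_natCast, ← zpow_mul, mul_comm]

end Pool.Agent.MP72W
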