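import Pool.Agent.Lib.MP_72e2e6_nt.W2.R.Spec

/-!
# MP_72e2e6_nt, theorem T3, R/Mu: `u ^ z` is a crossed homomorphism modulo `N`-th powers
-/

namespace Pool.Agent.MP72W

open Polynomial IntermediateField

private theorem mu_refl {N : ℕ} {L : Type} [Field L] (a : L) : EqN N a a :=
  ⟨1, one_ne_zero, by rw [one_pow, mul_one]⟩

private theorem mu_symm {N : ℕ} {L : Type} [Field L] {a b : L} (h : EqN N a b) : EqN N b a := by
  obtain ⟨s, hs, h⟩ := h
  refine ⟨s⁻¹, inv_ne_zero hs, ?_⟩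
  rw [h, inv_pow, mul_assoc, mul_inv_cancel₀ (pow_ne_zero _ hs), mul_one]

private theorem mu_trans {N : ℕ} {L : Type} [Field L] {a b c : L} (h : EqN N a b)
    (h' : EqN N b c) : EqN N a c := by
  obtain ⟨s, hs, h⟩ := h
  obtain ⟨s', hs', h'⟩ := h'
  refine ⟨s * s', mul_ne_zero hs hs', ?_⟩
  rw [h, h', mul_pow]
  ring

private theorem mu_mul {N : ℕ} {L : Type} [Field L] {a b c d : L} (h : EqN N a b)
    (h' : EqN N c d) : EqN N (a * c) (b * d) := by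
  obtain ⟨s, hs, h⟩ := h
  obtain ⟨s', hs', h'⟩ := h'
  refine ⟨s * s', mul_ne_zero hs hs', ?_⟩
  rw [h, h', mul_pow]
  ring

private theorem mu_pow {N : ℕ} {L : Type} [Field L] {a b : L} (h : EqN N a b) (n : ℕ) :
    EqN N (a ^ n) (b ^ n) := by
  obtain ⟨s, hs, h⟩ := h
  refine ⟨s ^ n, pow_ne_zero n hs, ?_⟩
  rw [h, mul_pow, ← pow_mul, ← pow_mul, mul_comm n]

theorem tMu (hR : S_Rgo) (hE : S_Exp) : S_Mu := by
  intro F _ _ _ PP hPP k χ z u hu hχ hz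
  obtain ⟨hcont, -, -, -⟩ := hR F PP hPP
  obtain ⟨e1, e2, -, -, -, -, -⟩ := hE (Kgs F) k u hu
  refine ⟨fun σ => pow_ne_zero _ hu, ?_, ?_⟩
  · exact (hz.loc.comp_continuous hcont).comp (fun x : ZMod (2 ^ k) => u ^ x.val)
  · intro σ τ
    change EqN (2 ^ k) (u ^ (z (rG PP (σ * τ))).val)
      (u ^ (z (rG PP σ)).val * σ (u ^ (z (rG PP τ)).val))
    rw [map_mul, hz.mul, map_pow]
    have h1 := e1 (z (rG PP σ)) (χ (rG PP σ) * z (rG PP τ))
    have h2 := e2 (χ (rG PP σ)) (z (rG PP τ))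
    have h3 := mu_pow (hχ σ) (z (rG PP τ)).val
    exact mu_trans h1 (mu_mul (mu_refl _) (mu_trans h2 (mu_symm h3)))

end Pool.Agent.MP72W
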