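import Pool.Agent.Lib.MP_72e2e6_nt.W2.R.Spec

/-!
# MP_72e2e6_nt, theorem T3, part R: Onr, the field `Om` is unramified outside `PP` and infinity
-/

set_option autoImplicit false

namespace Pool.Agent.MP72W

open Polynomial IntermediateField

/-- The elements of norm at most one form a valuation subring. -/
private def Onr_V {F : Type} [Field F] (v : AbsoluteValue (RatFunc F) ℝ)
    (h0 : ∀ x : Kvs v, 0 ≤ nm v x) (hz : ∀ x : Kvs v, nm v x = 0 ↔ x = 0)
    (hm : ∀ x y : Kvs v, nm v (x * y) = nm v x * nm v y)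
    (ha : ∀ x y : Kvs v, nm v (x + y) ≤ max (nm v x) (nm v y)) :
    ValuationSubring (Kvs v) :=
  have h1 : nm v 1 = 1 := by
    have := hm 1 1
    rw [mul_one] at this
    have hne : nm v 1 ≠ 0 := fun h => one_ne_zero ((hz _).1 h)
    exact (mul_left_cancel₀ hne (by rw [mul_one]; exact this)).symm
  have hneg : nm v (-1) = 1 := by
    have h2 : nm v (-1) * nm v (-1) = 1 := by rw [← hm, neg_mul_neg, mul_one, h1]
    nlinarith [h0 (-1)]
  { carrier := {x | nm v x ≤ 1}
    mul_mem' := by
      intro a b ha' hb'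
      simp only [Set.mem_setOf_eq] at *
      rw [hm]
      exact mul_le_one₀ ha' (h0 b) hb'
    one_mem' := h1.le
    add_mem' := fun {a b} ha' hb' => (ha a b).trans (max_le ha' hb')
    zero_mem' := by
      change nm v 0 ≤ 1
      rw [(hz 0).2 rfl]
      exact zero_le_one
    neg_mem' := by
      intro a ha'
      simp only [Set.mem_setOf_eq] at *
      rw [← neg_one_mul, hm, hneg, one_mul]
      exact ha'
    mem_or_inv_mem' := by
      intro x
      by_cases hx : nm v x ≤ 1
      · exact Or.inl hx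
      · refine Or.inr ?_
        change nm v x⁻¹ ≤ 1
        push Not at hx
        have hx0 : x ≠ 0 := by
          rintro rfl
          rw [(hz 0).2 rfl] at hx
          linarith
        have h2 : nm v x * nm v x⁻¹ = 1 := by rw [← hm, mul_inv_cancel₀ hx0, h1]
        nlinarith [h0 x⁻¹] }

theorem tOnr (hLfP : S_LfP) (hLc1 : S_Lc1) (hLc2 : S_Lc2) (_hCst : S_Cst) (hNr : S_Nr)
    (hTwb : S_Twb) (hRes : S_Res) (hAsr : S_Asr) : S_Onr := by
  intro F _ _ _ PP hPP P v hP hv ι
  obtain ⟨R, hL⟩ := hLfP F P v hv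
  obtain ⟨k1, -, -, -, -, -, -, -, -, -⟩ := hLc1 F v _ _ R hL
  obtain ⟨h0, hz, hm, ha, hx, -, -, -, hch⟩ := hLc2 F v _ _ R hL
  obtain ⟨-, -, n3, -, -, n6, -⟩ := hNr F v _ _ R hL
  obtain ⟨-, -, -, as4, -⟩ := hAsr F 0 PP hPP
  obtain ⟨-, tw2, -, -, hgal, -⟩ := hTwb (AS PP) (RatFunc F) (Kgs F)
  set V := Onr_V v h0 hz hm ha with hV
  have hmem : ∀ x : Kvs v, x ∈ V ↔ nm v x ≤ 1 := fun x => Iff.rfl
  -- integral elements have norm at most one
  have key : ∀ m : Kgs F, IsIntegral (AS PP) m → nm v (ι m) ≤ 1 := by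
    intro m hm'
    have hAV : ∀ x : AS PP, algebraMap (RatFunc F) (Kvs v) (x : RatFunc F) ∈ V := by
      intro x
      rw [hmem, IsScalarTower.algebraMap_apply (RatFunc F) v.Completion (Kvs v), hx, k1]
      exact as4 _ x.2 P v hP hv
    let φ : AS PP →+* V :=
      ((algebraMap (RatFunc F) (Kvs v)).comp (AS PP).subtype).codRestrict V.toSubring hAV
    have h1 := IsIntegral.map_of_comp_eq φ (ι : Kgs F →+* Kvs v) (by
      refine RingHom.ext fun x => ?_
      change algebraMap (RatFunc F) (Kvs v) (x : RatFunc F) = ι (algebraMap (AS PP) (Kgs F) x)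
      rw [IsScalarTower.algebraMap_apply (AS PP) (RatFunc F) (Kgs F), AlgHom.commutes]
      rfl) hm'
    obtain ⟨y, hy⟩ := (IsIntegrallyClosed.isIntegral_iff (R := V) (K := Kvs v)).1 h1
    have : (ι m : Kvs v) ∈ V := by
      rw [show ι m = (y : Kvs v) from hy.symm]
      exact y.2
    exact this
  -- the towers are mapped to Knr
  have tow : ∀ M, Twr (AS PP) (RatFunc F) (Kgs F) M → ∀ x ∈ M, ι x ∈ Knr v := by
    intro M hM
    let E : IntermediateField (RatFunc F) (Kgs F) :=
      ((Knr v).restrictScalars (RatFunc F)).comap ι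
    have hE : ∀ x, x ∈ E ↔ ι x ∈ Knr v := fun x => Iff.rfl
    have : M ≤ E := by
      induction hM with
      | bot => exact bot_le
      | step M θ hM hint hmem' ih =>
        refine sup_le ih ?_
        rw [IntermediateField.adjoin_simple_le_iff, hE]
        have h1 : ι (θ ^ 2 + θ) ∈ Knr v := (hE _).1 (ih hmem')
        obtain ⟨θ', hθ', e⟩ := n3 _ h1 (key _ hint)
        rw [map_add, map_pow] at e
        have h2 : (ι θ - θ') * (ι θ - θ' - 1) = 0 := by
          have c2 : (2 : Kvs v) = 0 := by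
            have := CharP.cast_eq_zero (Kvs v) 2
            exact_mod_cast this
          linear_combination e + (ι θ ^ 2 - ι θ * θ') * c2
        rcases mul_eq_zero.1 h2 with h3 | h3
        · rw [sub_eq_zero.1 h3]
          exact hθ'
        · have h4 : ι θ = θ' + 1 := by linear_combination h3
          rw [h4]
          exact add_mem hθ' (one_mem _)
    exact fun x hx' => (hE x).1 (this hx')
  have hOm : ∀ x ∈ Om (AS PP) (RatFunc F) (Kgs F), ι x ∈ Knr v := by
    intro x hx'
    obtain ⟨M, hM, hxM⟩ := (tw2 x).1 hx'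
    exact tow M hM x hxM
  refine ⟨hOm, ?_⟩
  intro g hg
  obtain ⟨-, -, u3, -⟩ := hRes (RatFunc F) (Om (AS PP) (RatFunc F) (Kgs F)) v.Completion (Kvs v)
    (ι.comp (Om (AS PP) (RatFunc F) (Kgs F)).val)
  refine (u3 g 1 ?_).symm
  intro x
  exact (n6 g).1 hg _ (hOm _ x.2)

end Pool.Agent.MP72W
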