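import Pool.Agent.Lib.MP_72e2e6_nt.W2.R.Spec

/-!
# MP_72e2e6_nt, T3, W2/R/Or1: orthogonality (helper77)

One more hypothesis `S_Goo` (at the end): the defects `T v` are even.
-/

namespace Pool.Agent.MP72W

open Polynomial IntermediateField

theorem Or1_trans {N : ℕ} {L : Type} [Field L] {a b c : L} (h : EqN N a b) (h' : EqN N b c) :
    EqN N a c := by
  obtain ⟨s, hs, rfl⟩ := h
  obtain ⟨t, ht, rfl⟩ := h'
  exact ⟨t * s, mul_ne_zero ht hs, by rw [mul_pow, mul_assoc]⟩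

theorem Or1_mul {N : ℕ} {L : Type} [Field L] {a b c d : L} (h : EqN N a b) (h' : EqN N c d) :
    EqN N (a * c) (b * d) := by
  obtain ⟨s, hs, rfl⟩ := h
  obtain ⟨t, ht, rfl⟩ := h'
  exact ⟨s * t, mul_ne_zero hs ht, by rw [mul_pow]; ring⟩

theorem Or1_lf (hLfP : S_LfP) (hLfI : S_LfI) {F : Type} [Field F] [Finite F] [CharP F 2]
    {PP : Finset F[X]} {κ : F} {A : Dat F PP} (hA : A.Ok κ) (w : Option PP) :
    ∃ R, LF (A.av w) (dgP (w.map Subtype.val)) (unP (w.map Subtype.val)) R := by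
  cases w with
  | none => exact hLfI F (A.av none) (hA.pl none)
  | some P => exact hLfP F P (A.av (some P)) (hA.pl (some P))

/-- the reduction modulo two -/
def Or1_r (K : ℕ) : ZMod (2 ^ (K + 1)) →+* ZMod 2 :=
  ZMod.castHom (dvd_pow_self 2 (Nat.succ_ne_zero K)) (ZMod 2)

theorem Or1_odd {G : Type} [Group G] [TopologicalSpace G] {K : ℕ} {χ : G → ZMod (2 ^ (K + 1))}
    (hχ : Chr χ) (g : G) : Or1_r K (χ g) = 1 := by
  have h1 : Or1_r K (χ g) * Or1_r K (χ g⁻¹) = 1 := by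
    rw [← map_mul, ← hχ.mul, mul_inv_cancel, hχ.one, map_one]
  have h2 : ∀ x y : ZMod 2, x * y = 1 → x = 1 := by decide
  exact h2 _ _ h1

/-- the defects are even -/
theorem Or1_even {G ι : Type} [Group G] [TopologicalSpace G] {K : ℕ}
    {χ : G → ZMod (2 ^ (K + 1))} (hχ : Chr χ) {W : Option ι → Subgroup G} {φ : Option ι → G}
    (hU : UEx W (φ none)) (a : Option ι → ZMod (2 ^ (K + 1))) (v : ι) :
    Or1_r K (Tv W φ χ a v) = 0 := by
  have h1 : ∀ g, Or1_r K (Zf W φ χ a g) = 0 := by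
    by_cases hZ : ∃ Z, IsZ W φ χ a Z
    · have h2 : IsZ W φ χ a (Zf W φ χ a) := by
        rw [Zf, dif_pos hZ]
        exact hZ.choose_spec
      obtain ⟨hc, hr, hi⟩ := h2
      have hk : ∀ (c : ZMod (2 ^ (K + 1))) g, Or1_r K (c * (1 - χ g)) = 0 := by
        intro c g
        rw [map_mul, map_sub, map_one, Or1_odd hχ, sub_self, mul_zero]
      obtain ⟨H, -, hH⟩ := hU (fun _ _ => 0)
        (fun w => ⟨IsLocallyConstant.const 0, fun _ _ => (add_zero 0).symm⟩) 0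
      have h3 : (fun g => Or1_r K (Zf W φ χ a g)) = H := by
        refine hH _ ⟨⟨hc.loc.comp _, fun g h => ?_⟩, fun w g => ?_, ?_⟩
        · rw [hc.mul, map_add, map_mul, Or1_odd hχ, one_mul]
        · change Or1_r K (Zf W φ χ a g) = 0
          rw [hr w g g.2]
          exact hk _ _
        · change Or1_r K (Zf W φ χ a (φ none)) = 0
          rw [hi]
          exact hk _ _
      have h4 : (fun _ => 0) = H :=
        hH _ ⟨⟨IsLocallyConstant.const 0, fun _ _ => (add_zero 0).symm⟩, fun w g => rfl, rfl⟩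
      intro g
      have h5 := congrFun (h3.trans h4.symm) g
      exact h5
    · intro g
      rw [Zf, dif_neg hZ]
      exact map_zero _
  rw [Tv, map_sub, h1, map_mul, map_sub, map_one, Or1_odd hχ, sub_self, mul_zero, sub_zero]

/-- the final computation modulo `2 ^ (K + 1)` -/
theorem Or1_fin {ι : Type} [Fintype ι] {K : ℕ} (θ' T : ι → ZMod (2 ^ (K + 1)))
    (hT : ∀ v, Or1_r K (T v) = 0) (h : ∑ v, rdK K (θ' v) * hf K (T v) = 0) :
    ∑ v, θ' v * T v = 0 := by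
  haveI : NeZero (2 ^ (K + 1)) := ⟨by positivity⟩
  haveI : NeZero (2 ^ K) := ⟨by positivity⟩
  have h1 : ∀ v, T v = 2 * (((T v).val / 2 : ℕ) : ZMod (2 ^ (K + 1))) := by
    intro v
    have h2 : Or1_r K (T v) = ((T v).val : ZMod 2) := by
      rw [Or1_r, ZMod.castHom_apply, ZMod.natCast_val]
    have h3 : 2 ∣ (T v).val := by
      rw [← ZMod.natCast_eq_zero_iff, ← h2]
      exact hT v
    have h4 : 2 * ((T v).val / 2) = (T v).val := Nat.mul_div_cancel' h3
    have h5 : ((2 * ((T v).val / 2) : ℕ) : ZMod (2 ^ (K + 1))) = T v := by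
      rw [h4, ZMod.natCast_val, ZMod.cast_id]
    rw [Nat.cast_mul, Nat.cast_two] at h5
    exact h5.symm
  set S : ZMod (2 ^ (K + 1)) := ∑ v, θ' v * (((T v).val / 2 : ℕ) : ZMod (2 ^ (K + 1))) with hS
  have h2 : ∑ v, θ' v * T v = 2 * S := by
    rw [hS, Finset.mul_sum]
    refine Finset.sum_congr rfl fun v _ => ?_
    conv_lhs => rw [h1 v]
    ring
  have h3 : rdK K S = 0 := by
    rw [hS, map_sum, ← h]
    refine Finset.sum_congr rfl fun v _ => ?_
    rw [map_mul, map_natCast]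
    rfl
  have h4 : rdK K S = ((S.val : ℕ) : ZMod (2 ^ K)) := by
    rw [rdK, ZMod.castHom_apply, ZMod.natCast_val]
  rw [h4, ZMod.natCast_eq_zero_iff] at h3
  obtain ⟨c, hc⟩ := h3
  have h5 : S = ((S.val : ℕ) : ZMod (2 ^ (K + 1))) := by
    rw [ZMod.natCast_val, ZMod.cast_id]
  have h6 : 2 * S = ((2 ^ (K + 1) * c : ℕ) : ZMod (2 ^ (K + 1))) := by
    rw [h5, hc]
    push_cast
    ring
  rw [h2, h6, Nat.cast_mul, ZMod.natCast_self, zero_mul]

theorem tOr1 (hLfP : S_LfP) (hLfI : S_LfI) (hLc1 : S_Lc1) (hLc2 : S_Lc2) (hLvU : S_LvU)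
    (hLvA : S_LvA) (hVal : S_Val) (hRec : S_Rec) (hRgo : S_Rgo) (hExp : S_Exp) (hMu : S_Mu)
    (hLvP : S_LvP) (hDec : S_Dec) (hGoo : S_Goo) : S_Or1 := by
  intro F _ _ _ κ hκ PP hPP A hA g₀ hg₀ K χ hχ z hz u hu hiso θ hθ θ' hθ' a
  classical
  haveI : NeZero (2 ^ K) := ⟨by positivity⟩
  obtain ⟨hd1, hd2⟩ := hDec F κ hκ PP hPP A hA K χ hχ
  obtain ⟨hd3, hd4⟩ := hd2 a
  have hd5 := hd4 z hz
  obtain ⟨-, -, -, hr4⟩ := hRgo F PP hPP
  have hU : UEx (famC κ A).W ((famC κ A).φ none) := (hGoo F κ hκ PP hPP A hA).uex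
  -- the functions
  set ζ : GS PP → ZMod (2 ^ K) := fun g => hf K (Zf (famC κ A).W (famC κ A).φ χ a g) with hζ
  set lam : GS PP → ZMod (2 ^ K) := fun g => hf K (1 - χ g) with hlam
  have hμ : NCoc (2 ^ K) (mz u ζ) := hMu F PP hPP K _ ζ u hu.ne hu.gal hd3
  have hμ' : NCoc (2 ^ K) (mz u lam) := hMu F PP hPP K _ lam u hu.ne hu.gal hd1
  choose R hR using Or1_lf hLfP hLfI hA
  have hx : ∀ w, ∃ x : ℤ, LV (A.av w) (2 ^ K) (unP (w.map Subtype.val)) (g₀ w)
      (lcl (A.emb w) (mz u ζ)) x := fun w =>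
    (hVal F K (mz u ζ) hμ (A.av w) _ _ (R w) (hR w) (A.emb w) (g₀ w) (hg₀ w)).2
  have hl : ∀ w, ∃ x : ℤ, LV (A.av w) (2 ^ K) (unP (w.map Subtype.val)) (g₀ w)
      (lcl (A.emb w) (mz u lam)) x := fun w =>
    (hVal F K (mz u lam) hμ' (A.av w) _ _ (R w) (hR w) (A.emb w) (g₀ w) (hg₀ w)).2
  choose x hx using hx
  choose l hl using hl
  have hsum : (2 ^ K : ℤ) ∣ ∑ w, x w :=
    hRec F PP hPP K (mz u ζ) hμ (hLvP F PP hPP K _ ζ u hu hd3) A.av hA.pl A.emb g₀ hg₀ x hx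
  -- the coefficients
  let H : Option PP → ZMod (2 ^ K) := fun w => match w with
    | none => 0
    | some v => hf K (Tv (famC κ A).W (famC κ A).φ χ a v)
  have hd6 : ∀ (w : Option PP) (g : Gal(Kvs (A.av w)/(A.av w).Completion)),
      ζ (rOm (PP := PP) (A.emb w) g) = lam (rOm (PP := PP) (A.emb w) g) * rdK K (a w) +
        z w (rOm (PP := PP) (A.emb w) g) * H w := by
    intro w g
    have h1 := hd5 w g
    cases w with
    | none => rw [hζ, hlam]; simp only; rw [h1]; simp only [H]; ring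
    | some v => rw [hζ, hlam]; simp only; rw [h1]; simp only [H]; ring
  -- the local invariants
  have hloc : ∀ w, (2 ^ K : ℤ) ∣ x w - (H w).val * θ w := by
    intro w
    have hu0 : A.emb w u ≠ 0 := by
      intro h0
      exact hu.ne ((map_eq_zero (A.emb w)).1 h0)
    obtain ⟨e1, e2, -⟩ := hExp (Kvs (A.av w)) K (A.emb w u) hu0
    have hlw : (2 ^ K : ℤ) ∣ l w := by
      refine hiso w (l w) ?_
      have h1 := hl w
      rw [hr4] at h1
      exact h1
    have h1 : LV (A.av w) (2 ^ K) (unP (w.map Subtype.val)) (g₀ w)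
        (lz (A.emb w) u ζ) (((rdK K (a w)).val : ℤ) * l w + ((H w).val : ℤ) * θ w) := by
      have hlw' := hl w
      rw [hr4] at hlw'
      have h2 := (hLvA F (A.av w) _ _ (R w) (hR w) K (g₀ w) (lz (A.emb w) u lam)
        (lz (A.emb w) u lam) (l w) (l w)).2.2.1 (rdK K (a w)).val hlw'
      have h3 := (hLvA F (A.av w) _ _ (R w) (hR w) K (g₀ w) (lz (A.emb w) u (z w))
        (lz (A.emb w) u (z w)) (θ w) (θ w)).2.2.1 (H w).val (hθ w)
      have h4 := (hLvA F (A.av w) _ _ (R w) (hR w) K (g₀ w) _ _ _ _).1 h2 h3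
      refine (hLvA F (A.av w) _ _ (R w) (hR w) K (g₀ w) _ (lz (A.emb w) u ζ) _ 0).2.2.2.1
        (fun g => ?_) h4
      change EqN (2 ^ K) (A.emb w u ^ (ζ (rOm (PP := PP) (A.emb w) g)).val) _
      rw [hd6 w g]
      exact Or1_trans (e1 _ _) (Or1_mul (e2 _ _) (e2 _ _))
    have h2 := hx w
    rw [hr4] at h2
    have h3 := hLvU F (A.av w) _ _ (R w) (hR w) K (g₀ w) _ _ _ h2 h1
    have h4 : x w - (H w).val * θ w = (x w - (((rdK K (a w)).val : ℤ) * l w +
      ((H w).val : ℤ) * θ w)) + ((rdK K (a w)).val : ℤ) * l w := by ring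
    rw [h4]
    exact dvd_add h3 (hlw.mul_left _)
  -- the sum
  have hsum2 : (2 ^ K : ℤ) ∣ ∑ w, ((H w).val : ℤ) * θ w := by
    have h1 : (2 ^ K : ℤ) ∣ ∑ w, (x w - (H w).val * θ w) :=
      Finset.dvd_sum fun w _ => hloc w
    rw [Finset.sum_sub_distrib] at h1
    have h2 := dvd_sub hsum h1
    rwa [sub_sub_cancel] at h2
  have hsum3 : ∑ v : PP, rdK K (θ' v) *
      hf K (Tv (famC κ A).W (famC κ A).φ χ a v) = 0 := by
    have h1 : ((∑ w, ((H w).val : ℤ) * θ w : ℤ) : ZMod (2 ^ K)) = 0 := by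
      rw [ZMod.intCast_zmod_eq_zero_iff_dvd]
      push_cast
      exact hsum2
    rw [Fintype.sum_option] at h1
    have h2 : (H none).val = 0 := ZMod.val_zero
    rw [h2] at h1
    push_cast at h1
    rw [zero_mul, zero_add] at h1
    rw [← h1]
    refine Finset.sum_congr rfl fun v _ => ?_
    rw [hθ', ZMod.natCast_val, ZMod.cast_id, mul_comm]
  exact Or1_fin θ' _ (fun v => Or1_even hχ hU a v) hsum3

end Pool.Agent.MP72W
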