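import Pool.Agent.Lib.MP_72e2e6_nt.W2.R.Spec
import Pool.Agent.Lib.MP_72e2e6_nt.W2.A.Spec

/-!
# MP_72e2e6_nt, theorem T3, part R: the invariant at infinity
-/

set_option autoImplicit false

namespace Pool.Agent.MP72W

open Polynomial IntermediateField

private theorem or2_pow_one (K : ℕ) (x : ZMod (2 ^ K)) (hx : IsUnit x) : x ^ 2 ^ K = 1 := by
  rcases Nat.eq_zero_or_pos K with h | h
  · subst h
    have : Subsingleton (ZMod (2 ^ 0)) := by
      rw [pow_zero]
      infer_instance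
    exact Subsingleton.elim _ _
  · obtain ⟨u, rfl⟩ := hx
    have h1 : u ^ Nat.totient (2 ^ K) = 1 := ZMod.pow_totient u
    have h2 : Nat.totient (2 ^ K) = 2 ^ (K - 1) := by
      rw [Nat.totient_prime_pow Nat.prime_two h]
      omega
    have h3 : 2 ^ K = 2 ^ (K - 1) * 2 := by
      rw [← pow_succ]
      congr 1
      omega
    rw [h2] at h1
    have h4 : ∀ n : ℕ, n = 2 ^ (K - 1) * 2 → u ^ n = 1 := by
      rintro n rfl
      rw [pow_mul, h1, one_pow]
    calc ((u : ZMod (2 ^ K))) ^ 2 ^ K = ((u ^ 2 ^ K : (ZMod (2 ^ K))ˣ) : ZMod (2 ^ K)) := by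
          push_cast
          rfl
      _ = 1 := by rw [h4 (2 ^ K) h3, Units.val_one]

private theorem or2_act {G : Type} [Group G] [TopologicalSpace G] (K : ℕ) (χ : G → ZMod (2 ^ K))
    (hχ : Chr χ) : Act2 (fun (g : G) (x : ZMod (2 ^ K)) => χ g * x) := by
  refine ⟨fun g x y => mul_add _ _ _, fun x => ?_, fun g h x => ?_, fun x => ?_, fun g => ?_⟩
  · show χ 1 * x = x
    rw [hχ.one, one_mul]
  · show χ (g * h) * x = χ g * (χ h * x)
    rw [hχ.mul, mul_assoc]
  · exact hχ.loc.comp (fun y => y * x)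
  · refine ⟨K, fun x => ?_⟩
    have hpow : ∀ n : ℕ, χ (g ^ n) = χ g ^ n := by
      intro n
      induction n with
      | zero => rw [pow_zero, pow_zero, hχ.one]
      | succ n ih => rw [pow_succ, pow_succ, hχ.mul, ih]
    have hu : IsUnit (χ g) := by
      refine IsUnit.of_mul_eq_one (χ g⁻¹) ?_
      rw [← hχ.mul, mul_inv_cancel, hχ.one]
    show χ (g ^ 2 ^ K) * x = x
    rw [hpow, or2_pow_one K _ hu, one_mul]

theorem tOr2 (hUni : S_Uni) (hLfP : S_LfP) (hLfI : S_LfI) (_ : S_Lc1) (_ : S_Lc2) (_ : S_LvU)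
    (hLvA : S_LvA) (_ : S_Val) (hRec : S_Rec) (hRgo : S_Rgo) (hExp : S_Exp) (hMu : S_Mu)
    (hLvP : S_LvP) (hLoc : S_Loc) (hGoo : S_Goo) : S_Or2 := by
  intro F _ _ _ κ hκ PP hPP A hA g₀ hg₀ K χ hχ z hz u hu θ hθ hv
  classical
  have hgood := hGoo F κ hκ PP hPP A hA
  -- the crossed homomorphism `b`
  obtain ⟨b, ⟨hbc, hb0, hb1⟩, -⟩ := hUni (GS PP) (Option PP) (famC κ A).W ((famC κ A).φ none)
    hgood.uex hgood.h2 (ZMod (2 ^ K)) K (by rw [Nat.card_zmod]) (fun g x => χ g * x)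
    (or2_act K χ hχ) (fun _ _ => 0)
    (fun w => ⟨IsLocallyConstant.const 0, fun g h => by
      show (0 : ZMod (2 ^ K)) = 0 + χ g * 0
      rw [mul_zero, add_zero]⟩) 1
  have hloc : ∀ (w : Option PP) (g : Gal(Kvs (A.av w)/(A.av w).Completion)),
      b (rOm (PP := PP) (A.emb w) g) =
        b ((famC κ A).φ w) * z w (rOm (PP := PP) (A.emb w) g) := by
    intro w g
    obtain ⟨hzc, hz0, hz1⟩ := hz w
    refine hLoc F κ PP hPP A hA K χ hχ b (fun g => b ((famC κ A).φ w) * z w g) hbc ?_ w ?_ ?_ g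
    · refine ⟨hzc.loc.comp (fun x => b ((famC κ A).φ w) * x), ?_⟩
      intro g h
      have h1 : z w (g * h) = z w g + χ g * z w h := hzc.mul g h
      show b ((famC κ A).φ w) * z w (g * h) =
        b ((famC κ A).φ w) * z w g + χ g * (b ((famC κ A).φ w) * z w h)
      rw [h1]
      ring
    · intro g hg
      have h1 : b g = 0 := hb0 w ⟨g, hg⟩
      show b g = b ((famC κ A).φ w) * z w g
      rw [h1, hz0 g hg, mul_zero]
    · show b ((famC κ A).φ w) = b ((famC κ A).φ w) * z w ((famC κ A).φ w)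
      rw [hz1, mul_one]
  have hLF : ∀ w : Option PP, ∃ d R, LF (A.av w) d (unP (w.map Subtype.val)) R := by
    intro w
    have hpl := hA.pl w
    cases w with
    | none =>
      obtain ⟨R, hR⟩ := hLfI F (A.av none) hpl
      exact ⟨1, R, hR⟩
    | some P =>
      obtain ⟨R, hR⟩ := hLfP F P.1 (A.av (some P)) hpl
      exact ⟨P.1.natDegree, R, hR⟩
  have hx : ∀ w : Option PP, LV (A.av w) (2 ^ K) (unP (w.map Subtype.val)) (g₀ w)
      (lcl (A.emb w) (mz u b)) (((b ((famC κ A).φ w)).val : ℤ) * θ w) := by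
    intro w
    obtain ⟨d, R, hR⟩ := hLF w
    rw [(hRgo F PP hPP).2.2.2 (A.av w) (A.emb w) K u b]
    have hιu : A.emb w u ≠ 0 := by
      rw [Ne, map_eq_zero]
      exact hu.ne
    obtain ⟨-, -, hpw, -, -, -, -⟩ := hLvA F (A.av w) d (unP (w.map Subtype.val)) R hR K (g₀ w)
      (lz (A.emb w) u (z w)) (lz (A.emb w) u (z w)) (θ w) (θ w)
    have h1 := hpw (b ((famC κ A).φ w)).val (hθ w)
    obtain ⟨-, -, -, hcg, -, -, -⟩ := hLvA F (A.av w) d (unP (w.map Subtype.val)) R hR K (g₀ w)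
      (fun g => lz (A.emb w) u (z w) g ^ (b ((famC κ A).φ w)).val) (lz (A.emb w) u b)
      (((b ((famC κ A).φ w)).val : ℤ) * θ w) 0
    refine hcg (fun g => ?_) h1
    have h2 := (hExp (Kvs (A.av w)) K (A.emb w u) hιu).2.1 (z w (rOm (PP := PP) (A.emb w) g))
      (b ((famC κ A).φ w))
    show EqN (2 ^ K) (A.emb w u ^ (b (rOm (PP := PP) (A.emb w) g)).val)
      ((A.emb w u ^ (z w (rOm (PP := PP) (A.emb w) g)).val) ^ (b ((famC κ A).φ w)).val)
    rw [hloc w g, mul_comm]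
    exact h2
  have hNC : NCoc (2 ^ K) (mz u b) := hMu F PP hPP K χ b u hu.ne hu.gal hbc
  have hsum := hRec F PP hPP K (mz u b) hNC
    (fun P hP1 hP2 hP3 => hLvP F PP hPP K χ b u hu hbc P hP1 hP2 hP3) A.av hA.pl A.emb g₀ hg₀
    (fun w => ((b ((famC κ A).φ w)).val : ℤ) * θ w) hx
  rw [Fintype.sum_option] at hsum
  have h1 : (2 ^ K : ℤ) ∣ ∑ v : PP, ((b ((famC κ A).φ (some v))).val : ℤ) * θ (some v) :=
    Finset.dvd_sum fun v _ => Dvd.dvd.mul_left (hv v) _
  have h2 := (dvd_add_left h1).mp hsum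
  rcases Nat.eq_zero_or_pos K with hK | hK
  · subst hK
    rw [pow_zero]
    exact one_dvd _
  · have h3 : (b ((famC κ A).φ none)).val = 1 := by
      rw [hb1]
      have : 1 < 2 ^ K := Nat.one_lt_two_pow hK.ne'
      have : Fact (1 < 2 ^ K) := ⟨this⟩
      exact ZMod.val_one _
    rw [h3] at h2
    simpa using h2

end Pool.Agent.MP72W
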