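import Pool.Agent.Lib.MP_72e2e6_nt.W2.R.Spec

/-!
# MP_72e2e6_nt, theorem T3, part R, `S_Rec` (helper59): the reciprocity law
-/

set_option autoImplicit false

namespace Pool.Agent.MP72W

open Polynomial IntermediateField

private theorem recExN (hc2 : S_Lc2) {F : Type} [Field F] [Finite F] [CharP F 2]
    {v : AbsoluteValue (RatFunc F) ℝ} {d : ℕ} {ϖ : RatFunc F} {R : Finset (RatFunc F)}
    (hLF : LF v d ϖ R) : ∃ N : Kvs v →*₀ ℝ, ∀ x, N x = nm v x := by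
  obtain ⟨h1, h2, h3, h4, h5, h6, h7, h8, h9⟩ := hc2 F v d ϖ R hLF
  have h10 : nm v (1 : Kvs v) = 1 := by
    have h := h3 1 1
    rw [mul_one] at h
    have hne : nm v (1 : Kvs v) ≠ 0 := fun e => one_ne_zero ((h2 1).1 e)
    exact (mul_left_cancel₀ hne (by rw [mul_one]; exact h)).symm
  exact ⟨{ toFun := nm v, map_zero' := (h2 0).2 rfl, map_one' := h10, map_mul' := h3 },
    fun x => rfl⟩

private theorem recFr {F : Type} [Field F] {Fr : Gal(Kgs F/RatFunc F)}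
    (h : IsFro (Nat.card F) (Nat.card F) Fr) {c : Kgs F} (hc : c ∈ Cst (Nat.card F) (Kgs F))
    (i : ℕ) : (Fr ^ i) c = c ^ (Nat.card F) ^ i := by
  induction i with
  | zero => simp
  | succ i ih =>
    rw [pow_succ', AlgEquiv.mul_apply, ih, map_pow, h c hc, ← pow_mul, ← pow_succ']

private theorem recCp {q : ℕ} {L : Type} [Field L] {c : L} (hc : c ∈ Cst q L) (i : ℕ) :
    c ^ q ^ i ∈ Cst q L := by
  obtain ⟨n, hn, h⟩ := hc
  refine ⟨n, hn, ?_⟩
  rw [← pow_mul, mul_comm, pow_mul, h]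

private theorem recCi {q : ℕ} {K L M : Type} [Field K] [Field L] [Field M] [Algebra K L]
    [Algebra K M] (ι : L →ₐ[K] M) {c : L} (hc : c ∈ Cst q L) : ι c ∈ Cst q M := by
  obtain ⟨n, hn, h⟩ := hc
  refine ⟨n, hn, ?_⟩
  rw [← map_pow, h]

private theorem recN (hc2 : S_Lc2) {F : Type} [Field F] [Finite F] [CharP F 2]
    {v : AbsoluteValue (RatFunc F) ℝ} {d : ℕ} {ϖ : RatFunc F} {R : Finset (RatFunc F)}
    (hLF : LF v d ϖ R) (ι : Kgs F →ₐ[RatFunc F] Kvs v) {Fr : Gal(Kgs F/RatFunc F)}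
    (h : IsFro (Nat.card F) (Nat.card F) Fr) {a : Kgs F} (ha : a ∈ Cst (Nat.card F) (Kgs F))
    (ha0 : a ≠ 0) (T : Finset (Kgs F)) (n : Kgs F → ℤ)
    (hT : ∀ c ∈ T, c ∈ Cst (Nat.card F) (Kgs F)) (m : ℕ) :
    nm v (∏ i ∈ Finset.range m, ι ((Fr ^ i) (a * ∏ c ∈ T, (tt F - c) ^ n c))) =
      ∏ c ∈ T, (∏ i ∈ Finset.range m, nm v (ι (tt F - c ^ (Nat.card F) ^ i))) ^ n c := by
  obtain ⟨N, hN⟩ := recExN hc2 hLF
  have h7 := (hc2 F v d ϖ R hLF).2.2.2.2.2.2.1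
  rw [← hN, map_prod]
  have e1 : ∀ i ∈ Finset.range m, N (ι ((Fr ^ i) (a * ∏ c ∈ T, (tt F - c) ^ n c))) =
      ∏ c ∈ T, (nm v (ι (tt F - c ^ (Nat.card F) ^ i))) ^ n c := by
    intro i hi
    rw [map_mul, map_mul, map_mul, recFr h ha i, hN (ι (a ^ _)),
      h7 _ (recCi ι (recCp ha i)) (by
        rw [_root_.map_ne_zero]
        exact pow_ne_zero _ ha0), one_mul, map_prod, map_prod, map_prod]
    apply Finset.prod_congr rfl
    intro c hc
    rw [map_zpow₀, map_zpow₀, map_zpow₀, map_sub, recFr h (hT c hc) i, hN]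
    have : (Fr ^ i) (tt F) = tt F := (Fr ^ i).commutes _
    rw [this]
  rw [Finset.prod_congr rfl e1, Finset.prod_comm]
  apply Finset.prod_congr rfl
  intro c hc
  rw [Finset.prod_zpow]

open Classical in
private theorem recA (hP : S_LfP) (hc2 : S_Lc2) (hCfr : S_Cfr) (hDpl : S_Dpl) {F : Type} [Field F]
    [Finite F] [CharP F 2]
    {v : AbsoluteValue (RatFunc F) ℝ} {P : F[X]} (hv : IsPl (some P) v)
    (ι : Kgs F →ₐ[RatFunc F] Kvs v) {Fr : Gal(Kgs F/RatFunc F)}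
    (h : IsFro (Nat.card F) (Nat.card F) Fr) {a : Kgs F} (ha : a ∈ Cst (Nat.card F) (Kgs F))
    (ha0 : a ≠ 0) (T : Finset (Kgs F)) (n : Kgs F → ℤ)
    (hT : ∀ c ∈ T, c ∈ Cst (Nat.card F) (Kgs F)) :
    nm v (∏ i ∈ Finset.range P.natDegree, ι ((Fr ^ i) (a * ∏ c ∈ T, (tt F - c) ^ n c))) =
      v (algebraMap F[X] (RatFunc F) P) ^ (∑ c ∈ T with P.eval₂ (cF F) c = 0, n c) := by
  obtain ⟨R, hLF⟩ := hP F P v hv
  have hmon : P.Monic := hv.1
  have hirr : Irreducible P := hv.2.1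
  obtain ⟨-, -, -, c4, c5⟩ := hCfr F
  obtain ⟨c₀, hc₀, hc₀', hc1, hc3⟩ := (hDpl F v ι).2 P hv
  have hvP : v (algebraMap F[X] (RatFunc F) P) ≠ 0 := hLF.pi0.ne'
  rw [recN hc2 hLF ι h ha ha0 T n hT]
  have e1 : ∀ c ∈ T, (∏ i ∈ Finset.range P.natDegree,
      nm v (ι (tt F - c ^ (Nat.card F) ^ i))) ^ n c =
      v (algebraMap F[X] (RatFunc F) P) ^ (if P.eval₂ (cF F) c = 0 then n c else 0) := by
    intro c hc
    by_cases hpc : P.eval₂ (cF F) c = 0
    · rw [if_pos hpc]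
      congr 1
      obtain ⟨d1, d2, d3⟩ := c4 P c hmon hirr hpc
      have e2 : ∃ j ∈ Finset.range P.natDegree, c ^ (Nat.card F) ^ j = c₀ := by
        have e3 : (P.map (cF F)).eval c₀ = 0 := by
          rw [eval_map]
          exact hc₀'
        rw [d3, eval_prod, Finset.prod_eq_zero_iff] at e3
        obtain ⟨j, hj, hj'⟩ := e3
        refine ⟨j, hj, ?_⟩
        rw [eval_sub, eval_X, eval_C, sub_eq_zero] at hj'
        exact hj'.symm
      obtain ⟨j, hj, hj'⟩ := e2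
      rw [Finset.prod_eq_single j]
      · rw [hj', hc1]
      · intro b hb hbj
        apply hc3 _ (recCp d1 b)
        intro e
        apply hbj
        exact d2 b (Finset.mem_range.1 hb) j (Finset.mem_range.1 hj) (by rw [e, hj'])
      · intro hne
        exact absurd hj hne
    · rw [if_neg hpc, zpow_zero]
      rw [Finset.prod_eq_one, one_zpow]
      intro i hi
      apply hc3 _ (recCp (hT c hc) i)
      intro e
      apply hpc
      apply c5 P c i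
      rw [e]
      exact hc₀'
  rw [Finset.prod_congr rfl e1, Finset.sum_filter]
  clear e1
  induction T using Finset.induction_on with
  | empty => simp
  | insert c T hc ih =>
    rw [Finset.prod_insert hc, Finset.sum_insert hc, zpow_add₀ hvP,
      ih (fun c' hc' => hT c' (Finset.mem_insert_of_mem hc'))]

private theorem recB (hI : S_LfI) (hc2 : S_Lc2) (hDpl : S_Dpl) {F : Type} [Field F]
    [Finite F] [CharP F 2] {v : AbsoluteValue (RatFunc F) ℝ} (hv : IsPl (none : Option F[X]) v)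
    (ι : Kgs F →ₐ[RatFunc F] Kvs v) {Fr : Gal(Kgs F/RatFunc F)}
    (h : IsFro (Nat.card F) (Nat.card F) Fr) {a : Kgs F} (ha : a ∈ Cst (Nat.card F) (Kgs F))
    (ha0 : a ≠ 0) (T : Finset (Kgs F)) (n : Kgs F → ℤ)
    (hT : ∀ c ∈ T, c ∈ Cst (Nat.card F) (Kgs F)) :
    nm v (∏ i ∈ Finset.range 1, ι ((Fr ^ i) (a * ∏ c ∈ T, (tt F - c) ^ n c))) =
      v (RatFunc.X⁻¹ : RatFunc F) ^ (-∑ c ∈ T, n c) := by
  classical
  obtain ⟨R, hLF⟩ := hI F v hv
  have hvP : v (RatFunc.X⁻¹ : RatFunc F) ≠ 0 := hLF.pi0.ne'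
  have hvX : v (RatFunc.X : RatFunc F) = (v (RatFunc.X⁻¹ : RatFunc F))⁻¹ := by
    rw [map_inv₀, inv_inv]
  rw [recN hc2 hLF ι h ha ha0 T n hT]
  have e1 : ∀ c ∈ T, (∏ i ∈ Finset.range 1,
      nm v (ι (tt F - c ^ (Nat.card F) ^ i))) ^ n c =
      v (RatFunc.X⁻¹ : RatFunc F) ^ (-n c) := by
    intro c hc
    rw [Finset.prod_range_one, pow_zero, pow_one, (hDpl F v ι).1 hv c (hT c hc), hvX, inv_zpow,
      zpow_neg]
  rw [Finset.prod_congr rfl e1, ← Finset.sum_neg_distrib]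
  clear e1
  induction T using Finset.induction_on with
  | empty => simp
  | insert c T hc ih =>
    rw [Finset.prod_insert hc, Finset.sum_insert hc, zpow_add₀ hvP,
      ih (fun c' hc' => hT c' (Finset.mem_insert_of_mem hc'))]

theorem tRec : S_LfP → S_LfI → S_Lc1 → S_Lc2 → S_Cst → S_FrG → S_Gst → S_Rho → S_LvU → S_Val →
    S_Cfr → S_Dpl → S_Rec := by
  intro hP hI hc1 hc2 hCst hFrG hGst hRho hLvU hVal hCfr hDpl F _ _ _ PP hPP k μ hμ hout av hav
    ι g₀ hg₀ x hx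
  classical
  obtain ⟨Fr, hFr⟩ := (hFrG F).2.1
  obtain ⟨Y, ρ, hY, hρ, hρK, hgeo, hfr⟩ := hRho F k μ hμ Fr hFr
  obtain ⟨a, ha, ha0, T, n, hT, hρe⟩ := (hGst F).1 ρ hρK hρ
  obtain ⟨f1, f2, -, -, -⟩ := hCfr F
  -- the sums
  set s : F[X] → ℤ := fun P => ∑ c ∈ T with P.eval₂ (cF F) c = 0, n c with hs
  -- finite places
  have key : ∀ (P : F[X]) (v : AbsoluteValue (RatFunc F) ℝ), IsPl (some P) v →
      ∀ (j : Kgs F →ₐ[RatFunc F] Kvs v) (g : Gal(Kvs v/v.Completion)),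
      IsFro (Nat.card F) (Nat.card F ^ P.natDegree) g → ∀ y : ℤ,
      LV v (2 ^ k) (algebraMap F[X] (RatFunc F) P) g (lcl j μ) y → (2 ^ k : ℤ) ∣ y - s P := by
    intro P v hv j g hg y hy
    obtain ⟨R, hLF⟩ := hP F P v hv
    have h1 := (hVal F k μ hμ v _ _ R hLF j g hg).1 Y ρ Fr hY hρ hρK hFr hgeo hfr (s P) (by
      rw [hρe]
      exact recA hP hc2 hCfr hDpl hv j hFr ha ha0 T n hT)
    exact hLvU F v _ _ R hLF k g (lcl j μ) y (s P) hy h1
  -- infinity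
  have key2 : ∀ (v : AbsoluteValue (RatFunc F) ℝ), IsPl (none : Option F[X]) v →
      ∀ (j : Kgs F →ₐ[RatFunc F] Kvs v) (g : Gal(Kvs v/v.Completion)),
      IsFro (Nat.card F) (Nat.card F ^ 1) g → ∀ y : ℤ,
      LV v (2 ^ k) (RatFunc.X⁻¹ : RatFunc F) g (lcl j μ) y →
      (2 ^ k : ℤ) ∣ y - (-∑ c ∈ T, n c) := by
    intro v hv j g hg y hy
    obtain ⟨R, hLF⟩ := hI F v hv
    have h1 := (hVal F k μ hμ v _ _ R hLF j g hg).1 Y ρ Fr hY hρ hρK hFr hgeo hfr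
      (-∑ c ∈ T, n c) (by
      rw [hρe]
      exact recB hI hc2 hDpl hv j hFr ha ha0 T n hT)
    exact hLvU F v _ _ R hLF k g (lcl j μ) y _ hy h1
  have a1 : (2 ^ k : ℤ) ∣ x none - (-∑ c ∈ T, n c) :=
    key2 (av none) (hav none) (ι none) (g₀ none) (hg₀ none) (x none) (hx none)
  have a2 : ∀ P : PP, (2 ^ k : ℤ) ∣ x (some P) - s P := fun P =>
    key P (av (some P)) (hav (some P)) (ι (some P)) (g₀ (some P)) (hg₀ (some P)) (x (some P))
      (hx (some P))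
  have a3 : ∀ P : F[X], P.Monic → Irreducible P → P ∉ PP → (2 ^ k : ℤ) ∣ s P := by
    intro P h1 h2 h3
    obtain ⟨v, hv, j, g, hg, y, hy, hyd⟩ := hout P h1 h2 h3
    have h4 := key P v hv j g hg y hy
    have h5 := dvd_sub hyd h4
    rwa [sub_sub_cancel] at h5
  -- the polynomials of the elements of `T`
  have hm : ∀ c : Kgs F, ∃ P : F[X], c ∈ T → P.Monic ∧ Irreducible P ∧ P.eval₂ (cF F) c = 0 := by
    intro c
    by_cases hc : c ∈ T
    · obtain ⟨P, h1⟩ := f1 c (hT c hc)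
      exact ⟨P, fun _ => h1⟩
    · exact ⟨0, fun h => absurd h hc⟩
  choose m hm using hm
  set U : Finset F[X] := T.image m ∪ PP with hU
  have hUm : ∀ P ∈ U, P.Monic ∧ Irreducible P := by
    intro P hPU
    rcases Finset.mem_union.1 hPU with h1 | h1
    · obtain ⟨c, hc, rfl⟩ := Finset.mem_image.1 h1
      exact ⟨(hm c hc).1, (hm c hc).2.1⟩
    · exact hPP P h1
  have b1 : ∑ c ∈ T, n c = ∑ P ∈ U, s P := by
    rw [← Finset.sum_fiberwise_of_maps_to (t := U) (g := m) (fun c hc =>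
      Finset.mem_union_left _ (Finset.mem_image_of_mem m hc))]
    apply Finset.sum_congr rfl
    intro P hPU
    rw [hs]
    apply Finset.sum_congr _ fun _ _ => rfl
    ext c
    simp only [Finset.mem_filter]
    constructor
    · rintro ⟨hc, rfl⟩
      exact ⟨hc, (hm c hc).2.2⟩
    · rintro ⟨hc, hc'⟩
      obtain ⟨h1, h2, h3⟩ := hm c hc
      exact ⟨hc, f2 _ _ c h1 h2 (hUm P hPU).1 (hUm P hPU).2 h3 hc'⟩
  have b2 : ∑ P ∈ U, s P = ∑ P ∈ U \ PP, s P + ∑ P ∈ PP, s P :=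
    (Finset.sum_sdiff Finset.subset_union_right).symm
  have b3 : (2 ^ k : ℤ) ∣ ∑ P ∈ U \ PP, s P := by
    apply Finset.dvd_sum
    intro P hPU
    obtain ⟨h1, h2⟩ := Finset.mem_sdiff.1 hPU
    exact a3 P (hUm P h1).1 (hUm P h1).2 h2
  have b4 : (2 ^ k : ℤ) ∣ ∑ P : PP, (x (some P) - s P) := Finset.dvd_sum fun P _ => a2 P
  rw [Finset.sum_sub_distrib, Finset.sum_coe_sort PP s] at b4
  rw [Fintype.sum_option]
  have b5 : x none + ∑ P : PP, x (some P) = (x none - (-∑ c ∈ T, n c)) +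
      (∑ P : PP, x (some P) - ∑ P ∈ PP, s P) - ∑ P ∈ U \ PP, s P := by
    rw [b1, b2]
    ring
  rw [b5]
  exact dvd_sub (dvd_add a1 b4) b3

end Pool.Agent.MP72W
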