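import Pool.Agent.Lib.MP_72e2e6_nt.W2.R.Spec

/-!
# MP_72e2e6_nt, theorem T3, part R: Rgo, the restriction homomorphisms
-/

set_option autoImplicit false

namespace Pool.Agent.MP72W

open Polynomial IntermediateField

theorem tRgo (h2 : S_Twb) (h4 : S_Res) (_h5 : S_Asr) (_h6 : S_Hlo) : S_Rgo := by
  intro F _ _ _ PP hPP
  obtain ⟨-, -, -, -, hgal, -⟩ := h2 (AS PP) (RatFunc F) (Kgs F)
  obtain ⟨r1, r2, -, -⟩ := h4 (RatFunc F) (Om (AS PP) (RatFunc F) (Kgs F)) (RatFunc F) (Kgs F)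
    (Om (AS PP) (RatFunc F) (Kgs F)).val
  have e2 : ∀ (σ : Gal(Kgs F/RatFunc F)) (x : Om (AS PP) (RatFunc F) (Kgs F)),
      σ (x : Kgs F) = ((rG PP σ) x : Om (AS PP) (RatFunc F) (Kgs F)) := fun σ x => r2 σ x
  refine ⟨r1, e2, ?_, ?_⟩
  · intro v ι g
    obtain ⟨-, -, u3, -⟩ := h4 (RatFunc F) (Om (AS PP) (RatFunc F) (Kgs F)) v.Completion (Kvs v)
      (ι.comp (Om (AS PP) (RatFunc F) (Kgs F)).val)
    obtain ⟨-, w2, -, -⟩ := h4 (RatFunc F) (Kgs F) v.Completion (Kvs v) ι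
    refine u3 g _ ?_
    intro x
    have := w2 g (x : Kgs F)
    change g (ι (x : Kgs F)) = ι ((rG PP (rsH (M := v.Completion) ι g)) x :
      Om (AS PP) (RatFunc F) (Kgs F))
    rw [this, e2]
  · intro v ι k u z
    funext g
    obtain ⟨-, -, u3, -⟩ := h4 (RatFunc F) (Om (AS PP) (RatFunc F) (Kgs F)) v.Completion (Kvs v)
      (ι.comp (Om (AS PP) (RatFunc F) (Kgs F)).val)
    obtain ⟨-, w2, -, -⟩ := h4 (RatFunc F) (Kgs F) v.Completion (Kvs v) ι
    have e3 : rG PP (rsH (M := v.Completion) ι g) = rOm (PP := PP) ι g := by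
      refine u3 g _ ?_
      intro x
      have := w2 g (x : Kgs F)
      change g (ι (x : Kgs F)) = ι ((rG PP (rsH (M := v.Completion) ι g)) x :
        Om (AS PP) (RatFunc F) (Kgs F))
      rw [this, e2]
    unfold lcl mz lz
    rw [e3, map_pow]

end Pool.Agent.MP72W
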