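import Pool.Agent.Lib.MP_72e2e6_nt.W2.R.Spec

/-!
# MP_72e2e6_nt, theorem T3, part R: module Rho
-/

namespace Pool.Agent.MP72W

open Polynomial IntermediateField

namespace Rho

private theorem eqN_refl {N : ℕ} {L : Type} [Field L] (a : L) : EqN N a a :=
  ⟨1, one_ne_zero, by simp⟩

private theorem eqN_symm {N : ℕ} {L : Type} [Field L] {a b : L} (h : EqN N a b) : EqN N b a := by
  obtain ⟨s, hs, h⟩ := h
  refine ⟨s⁻¹, inv_ne_zero hs, ?_⟩
  rw [h, mul_assoc, ← mul_pow, mul_inv_cancel₀ hs, one_pow, mul_one]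

private theorem eqN_trans {N : ℕ} {L : Type} [Field L] {a b c : L} (h : EqN N a b)
    (h' : EqN N b c) : EqN N a c := by
  obtain ⟨s, hs, h⟩ := h
  obtain ⟨t, ht, h'⟩ := h'
  exact ⟨t * s, mul_ne_zero ht hs, by rw [h, h', mul_pow, mul_assoc]⟩

private theorem eqN_mul {N : ℕ} {L : Type} [Field L] {a b c d : L} (h : EqN N a b)
    (h' : EqN N c d) : EqN N (a * c) (b * d) := by
  obtain ⟨s, hs, h⟩ := h
  obtain ⟨t, ht, h'⟩ := h'
  exact ⟨s * t, mul_ne_zero hs ht, by rw [h, h', mul_pow]; ring⟩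

private theorem eqN_map {N : ℕ} {K L : Type} [Field K] [Field L] [Algebra K L] {a b : L}
    (σ : Gal(L/K)) (h : EqN N a b) : EqN N (σ a) (σ b) := by
  obtain ⟨s, hs, h⟩ := h
  exact ⟨σ s, by simpa using hs, by rw [h, map_mul, map_pow]⟩

private theorem eqN_cancel {N : ℕ} {L : Type} [Field L] {a b c : L} (hc : c ≠ 0)
    (h : EqN N (a * c) (b * c)) : EqN N a b := by
  obtain ⟨s, hs, h⟩ := h
  refine ⟨s, hs, mul_right_cancel₀ hc ?_⟩
  rw [h]; ring

private theorem lc {K L : Type} [Field K] [Field L] [Algebra K L] [Algebra.IsIntegral K L] (x : L) :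
    IsLocallyConstant fun σ : Gal(L/K) => σ x := by
  haveI : FiniteDimensional K K⟮x⟯ :=
    IntermediateField.adjoin.finiteDimensional (Algebra.IsIntegral.isIntegral x)
  have hop := IntermediateField.fixingSubgroup_isOpen K⟮x⟯ (L := L) (K := K)
  rw [IsLocallyConstant.iff_exists_open]
  intro σ
  refine ⟨(fun τ => σ⁻¹ * τ) ⁻¹' (K⟮x⟯.fixingSubgroup : Set Gal(L/K)),
    hop.preimage (continuous_const_mul _), ?_, ?_⟩
  · simp only [Set.mem_preimage, inv_mul_cancel]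
    exact one_mem K⟮x⟯.fixingSubgroup
  · intro τ hτ
    have h1 : (σ⁻¹ * τ) x = x := by
      have h2 : σ⁻¹ * τ ∈ K⟮x⟯.fixingSubgroup := hτ
      rw [IntermediateField.mem_fixingSubgroup_iff] at h2
      exact h2 x (IntermediateField.mem_adjoin_simple_self K x)
    have h3 : σ ((σ⁻¹ * τ) x) = τ x := by
      rw [← AlgEquiv.mul_apply, mul_inv_cancel_left]
    rw [← h3, h1]

private theorem pow_inj2 {L : Type} [Field L] [CharP L 2] (k : ℕ) {a b : L}
    (h : a ^ 2 ^ k = b ^ 2 ^ k) : a = b := by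
  haveI : ExpChar L 2 := ExpChar.prime Nat.prime_two
  have h1 : (iterateFrobenius L 2 k) a = (iterateFrobenius L 2 k) b := by
    simpa [iterateFrobenius_def] using h
  exact (iterateFrobenius L 2 k).injective h1

end Rho

open Rho in
theorem tRho (hFrG : S_FrG) (hH90 : S_H90) (hTS : S_TS) : S_Rho := by
  intro F _ _ _ k μ hμ Fr hFr
  obtain ⟨-, -, hgeo, -, -⟩ := hFrG F
  haveI : CharP (RatFunc F) 2 := charP_of_injective_algebraMap (algebraMap F (RatFunc F)).injective 2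
  haveI : CharP (Kgs F) 2 :=
    charP_of_injective_algebraMap (algebraMap (RatFunc F) (Kgs F)).injective 2
  set N := 2 ^ k with hN
  -- the fixing subgroup
  have hfix : ∀ g : Gal(Kgs F/RatFunc F), g ∈ (Kgeo F).fixingSubgroup ↔
      IsGeo (Nat.card F) g := by
    intro g
    rw [hgeo g, IntermediateField.mem_fixingSubgroup_iff]
  obtain ⟨Y, hY0, hY⟩ := hTS F k (fun σ : (Kgeo F).fixingSubgroup => μ σ.1)
    (hμ.loc.comp_continuous continuous_subtype_val) (fun σ => hμ.ne σ.1)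
    (fun σ τ => hμ.mul σ.1 τ.1)
  have hFrY : Fr Y ≠ 0 := by simpa using hY0
  set ρ' : Kgs F := μ Fr * Y / Fr Y with hρ'
  have hρ'0 : ρ' ≠ 0 := div_ne_zero (mul_ne_zero (hμ.ne Fr) hY0) hFrY
  have hμFr : μ Fr = ρ' * Fr Y / Y := by
    rw [hρ']; field_simp
  -- the main congruence
  have hmain : ∀ τ : (Kgeo F).fixingSubgroup, EqN N (τ.1 ρ') ρ' := by
    intro τ
    have hτ'' : Fr⁻¹ * τ.1 * Fr ∈ (Kgeo F).fixingSubgroup := by
      rw [hfix]
      intro x hx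
      have h1 : Fr x ∈ Cst (Nat.card F) (Kgs F) := by
        obtain ⟨n, hn, hxn⟩ := hx
        refine ⟨n, hn, ?_⟩
        rw [← map_pow, hxn]
      have h2 : τ.1 (Fr x) = Fr x := (hfix τ.1).1 τ.2 _ h1
      have h3 : (Fr⁻¹ * τ.1 * Fr) x = Fr⁻¹ (τ.1 (Fr x)) := rfl
      rw [h3, h2]
      exact Fr.symm_apply_apply x
    set τ'' : (Kgeo F).fixingSubgroup := ⟨Fr⁻¹ * τ.1 * Fr, hτ''⟩ with hτ''d
    have hcomm : τ.1 * Fr = Fr * τ''.1 := by
      rw [hτ''d]; group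
    have hA : τ.1 (Fr Y) / Y ≠ 0 := div_ne_zero (by simpa using hY0) hY0
    refine eqN_cancel hA ?_
    have hτY : τ.1 Y ≠ 0 := by simpa using hY0
    have e1 : EqN N (μ (τ.1 * Fr)) (τ.1 ρ' * (τ.1 (Fr Y) / Y)) := by
      refine eqN_trans (hμ.mul τ.1 Fr) ?_
      have e2 := eqN_mul (hY τ) (eqN_refl (N := N) (τ.1 (μ Fr)))
      have e3 : τ.1 Y / Y * τ.1 (μ Fr) = τ.1 ρ' * (τ.1 (Fr Y) / Y) := by
        rw [hμFr, map_div₀, map_mul]; field_simp
      rw [← e3]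
      exact e2
    have e4 : EqN N (μ (Fr * τ''.1)) (ρ' * (τ.1 (Fr Y) / Y)) := by
      refine eqN_trans (hμ.mul Fr τ''.1) ?_
      have e5 := eqN_mul (eqN_refl (N := N) (μ Fr)) (eqN_map Fr (hY τ''))
      have e6 : μ Fr * Fr (τ''.1 Y / Y) = ρ' * (τ.1 (Fr Y) / Y) := by
        have e7 : Fr (τ''.1 Y) = τ.1 (Fr Y) := by
          rw [← AlgEquiv.mul_apply, ← hcomm, AlgEquiv.mul_apply]
        rw [hμFr, map_div₀, e7]; field_simp
      rw [← e6]
      exact e5
    rw [hcomm] at e1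
    exact eqN_trans (eqN_symm e1) e4
  classical
  -- the root function
  set f : Kgs F → Kgs F := fun x => if h : ∃ s, x = ρ' * s ^ N then h.choose else 0 with hf
  set s : (Kgeo F).fixingSubgroup → Kgs F := fun τ => f (τ.1 ρ') with hs
  have hs1 : ∀ τ : (Kgeo F).fixingSubgroup, τ.1 ρ' = ρ' * s τ ^ N := by
    intro τ
    obtain ⟨s', -, hs'⟩ := hmain τ
    have hex : ∃ s, τ.1 ρ' = ρ' * s ^ N := ⟨s', hs'⟩
    have h1 : s τ = hex.choose := by
      simp only [hs, hf]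
      rw [dif_pos hex]
    rw [h1]
    exact hex.choose_spec
  have hs0 : ∀ τ, s τ ≠ 0 := by
    intro τ h0
    have h1 := hs1 τ
    rw [h0, zero_pow (by positivity), mul_zero] at h1
    exact hρ'0 (by simpa using h1)
  have hsl : IsLocallyConstant s := by
    have h1 : IsLocallyConstant fun τ : (Kgeo F).fixingSubgroup => τ.1 ρ' :=
      (lc (K := RatFunc F) (L := Kgs F) ρ').comp_continuous continuous_subtype_val
    exact h1.comp f
  have hsm : ∀ σ τ : (Kgeo F).fixingSubgroup, s (σ * τ) = s σ * (σ : Gal(Kgs F/RatFunc F)) (s τ) := by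
    intro σ τ
    apply pow_inj2 k
    apply mul_left_cancel₀ hρ'0
    rw [← hN, ← hs1 (σ * τ), mul_pow, ← mul_assoc, ← hs1 σ, ← map_pow, ← map_mul, ← hs1 τ]
    rfl
  obtain ⟨y, hy0, hy⟩ := (hH90 (RatFunc F) (Kgs F) (Kgeo F)).1 s hsl hs0 hsm
  have hyN : y ^ N ≠ 0 := pow_ne_zero _ hy0
  refine ⟨Y, ρ' / y ^ N, hY0, div_ne_zero hρ'0 hyN, ?_, ?_, ?_⟩
  · rw [← InfiniteGalois.fixedField_fixingSubgroup (Kgeo F)]
    rw [IntermediateField.mem_fixedField_iff]
    intro σ hσ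
    have h1 := hs1 ⟨σ, hσ⟩
    have h2 := hy ⟨σ, hσ⟩
    simp only at h1 h2
    rw [h2] at h1
    have hσy : σ y ≠ 0 := by simpa using hy0
    rw [map_div₀, map_pow, h1, div_pow]
    field_simp
  · intro σ hσ
    exact hY ⟨σ, (hfix σ).2 hσ⟩
  · refine ⟨y, hy0, ?_⟩
    rw [hμFr]
    field_simp

end Pool.Agent.MP72W
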