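import Pool.Agent.Lib.MP_72e2e6_nt.W2.R.Spec

/-!
# MP_72e2e6_nt, theorem T3, part R: module TS
-/

namespace Pool.Agent.MP72W

open Polynomial IntermediateField

namespace TS

private theorem lc {K L : Type} [Field K] [Field L] [Algebra K L] [Algebra.IsIntegral K L] (x : L) :
    IsLocallyConstant fun σ : Gal(L/K) => σ x := by
  haveI : FiniteDimensional K K⟮x⟯ :=
    IntermediateField.adjoin.finiteDimensional (Algebra.IsIntegral.isIntegral x)
  have hop := IntermediateField.fixingSubgroup_isOpen K⟮x⟯ (L := L) (K := K)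
  rw [IsLocallyConstant.iff_exists_open]
  intro σ
  refine ⟨(fun τ => σ⁻¹ * τ) ⁻¹' (K⟮x⟯.fixingSubgroup : Set Gal(L/K)),
    hop.preimage (continuous_const_mul _), ?_, ?_⟩
  · simp only [Set.mem_preimage, inv_mul_cancel]
    exact one_mem K⟮x⟯.fixingSubgroup
  · intro τ hτ
    have h1 : (σ⁻¹ * τ) x = x := by
      have h2 : σ⁻¹ * τ ∈ K⟮x⟯.fixingSubgroup := hτ
      rw [IntermediateField.mem_fixingSubgroup_iff] at h2
      exact h2 x (IntermediateField.mem_adjoin_simple_self K x)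
    have h3 : σ ((σ⁻¹ * τ) x) = τ x := by
      rw [← AlgEquiv.mul_apply, mul_inv_cancel_left]
    rw [← h3, h1]

private theorem pow_inj2 {L : Type} [Field L] [CharP L 2] (k : ℕ) {a b : L}
    (h : a ^ 2 ^ k = b ^ 2 ^ k) : a = b := by
  haveI : ExpChar L 2 := ExpChar.prime Nat.prime_two
  have h1 : (iterateFrobenius L 2 k) a = (iterateFrobenius L 2 k) b := by
    simpa [iterateFrobenius_def] using h
  exact (iterateFrobenius L 2 k).injective h1

end TS

open TS in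
theorem tTS (hH90 : S_H90) (hTb : S_Tb) (hTbG : S_TbG) (hCGe : S_CGe) : S_TS := by
  intro F _ _ _ k
  haveI : CharP (RatFunc F) 2 := charP_of_injective_algebraMap (algebraMap F (RatFunc F)).injective 2
  haveI : CharP (Kgs F) 2 :=
    charP_of_injective_algebraMap (algebraMap (RatFunc F) (Kgs F)).injective 2
  obtain ⟨-, T2, -, T4, T5, T6, T7, T8⟩ := hTb (Kgs F) (tt F) (hTbG F)
  obtain ⟨-, hC⟩ := hCGe F
  have hσt : ∀ σ : Gal(Kgs F/RatFunc F), (σ : Kgs F →+* Kgs F) (tt F) = tt F := by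
    intro σ
    exact σ.commutes _
  have two0 : ∀ x : Kgs F, x + x = 0 := fun x => CharTwo.add_self_eq_zero x
  induction k with
  | zero =>
    intro μ hl h0 hm
    refine ⟨1, one_ne_zero, fun σ => ⟨μ σ, h0 σ, ?_⟩⟩
    simp
  | succ k ih =>
    intro μ hl h0 hm
    set t := tt F with ht
    set a : (Kgeo F).fixingSubgroup → Kgs F := fun σ => Lg t (μ σ) with ha
    have hLsq : ∀ s : Kgs F, s ≠ 0 → Lg t (s ^ 2) = 0 := fun s hs =>
      (T6 _ (pow_ne_zero _ hs)).2 ⟨s, rfl⟩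
    have hLσ : ∀ (σ : Gal(Kgs F/RatFunc F)) (x : Kgs F), Lg t (σ x) = σ (Lg t x) := fun σ x =>
      (T4 (σ : Kgs F →+* Kgs F) (hσt σ) x).2
    have hCσ : ∀ (σ : Gal(Kgs F/RatFunc F)) (x : Kgs F), Cop t (σ x) = σ (Cop t x) := fun σ x =>
      (T4 (σ : Kgs F →+* Kgs F) (hσt σ) x).1
    have hLinv : ∀ u : Kgs F, u ≠ 0 → Lg t u⁻¹ = Lg t u := by
      intro u hu
      have h1 := T5 u u⁻¹ hu (inv_ne_zero hu)
      rw [mul_inv_cancel₀ hu] at h1
      have h2 : Lg t (1 : Kgs F) = 0 := by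
        have := hLsq 1 one_ne_zero
        simpa using this
      rw [h2] at h1
      have h3 := two0 (Lg t u)
      have h4 : Lg t u + Lg t u⁻¹ = Lg t u + Lg t u := by rw [← h1, h3]
      exact add_left_cancel h4
    have haloc : IsLocallyConstant a := hl.comp (Lg t)
    have hacoc : ∀ σ τ : (Kgeo F).fixingSubgroup,
        a (σ * τ) = a σ + (σ : Gal(Kgs F/RatFunc F)) (a τ) := by
      intro σ τ
      obtain ⟨s, hs, h⟩ := hm σ τ
      have hστ : (σ : Gal(Kgs F/RatFunc F)) (μ τ) ≠ 0 := by simpa using h0 τ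
      simp only [ha]
      rw [h, T5 _ _ (mul_ne_zero (h0 σ) hστ) (pow_ne_zero _ hs), T5 _ _ (h0 σ) hστ, hLσ]
      rw [pow_succ, pow_mul, hLsq _ (pow_ne_zero _ hs), add_zero]
    obtain ⟨e, he⟩ := (hH90 (RatFunc F) (Kgs F) (Kgeo F)).2 a haloc hacoc
    have he' : ∀ σ : (Kgeo F).fixingSubgroup, (σ : Gal(Kgs F/RatFunc F)) e = a σ + e := by
      intro σ
      rw [he σ]; ring
    have hCa : ∀ σ, Cop t (a σ) = a σ := fun σ => T7 _ (h0 σ)
    have hmemG : ∀ x : Kgs F, (∀ σ : (Kgeo F).fixingSubgroup,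
        (σ : Gal(Kgs F/RatFunc F)) x = x) → x ∈ Kgeo F := by
      intro x hx
      rw [← InfiniteGalois.fixedField_fixingSubgroup (Kgeo F)]
      rw [IntermediateField.mem_fixedField_iff]
      intro σ hσ
      exact hx ⟨σ, hσ⟩
    have hfixG : ∀ x ∈ Kgeo F, ∀ σ : (Kgeo F).fixingSubgroup,
        (σ : Gal(Kgs F/RatFunc F)) x = x := by
      intro x hx σ
      have := σ.2
      rw [IntermediateField.mem_fixingSubgroup_iff] at this
      exact this x hx
    have heG : Cop t e + e ∈ Kgeo F := by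
      apply hmemG
      intro σ
      rw [map_add, ← hCσ, he' σ, T2, hCa]
      have := two0 (a σ)
      linear_combination this
    obtain ⟨h, hhG, hh⟩ := hC _ heG
    set e₁ := e + h with he₁
    have hCe₁ : Cop t e₁ = e₁ := by
      rw [he₁, T2]
      have h1 := two0 (Cop t e + e)
      have h3 := two0 h
      have h4 := two0 e
      linear_combination hh - h3 + h1 - h4
    have hae₁ : ∀ σ : (Kgeo F).fixingSubgroup,
        a σ = (σ : Gal(Kgs F/RatFunc F)) e₁ + e₁ := by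
      intro σ
      rw [he₁, map_add, hfixG h hhG σ, he' σ]
      have h1 := two0 e
      have h3 := two0 h
      linear_combination -h1 - h3
    obtain ⟨Y₀, hY₀, hLY₀⟩ : ∃ Y₀ : Kgs F, Y₀ ≠ 0 ∧ Lg t Y₀ = e₁ := by
      by_cases h1 : e₁ = 0
      · refine ⟨1, one_ne_zero, ?_⟩
        rw [h1]
        have := hLsq 1 one_ne_zero
        simpa using this
      · exact ⟨1 / e₁, one_div_ne_zero h1, T8 e₁ h1 hCe₁⟩
    have hσY₀ : ∀ σ : (Kgeo F).fixingSubgroup, (σ : Gal(Kgs F/RatFunc F)) Y₀ ≠ 0 := by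
      intro σ
      simpa using hY₀
    set b : (Kgeo F).fixingSubgroup → Kgs F :=
      fun σ => μ σ * Y₀ / (σ : Gal(Kgs F/RatFunc F)) Y₀ with hb
    have hb0 : ∀ σ, b σ ≠ 0 := fun σ => div_ne_zero (mul_ne_zero (h0 σ) hY₀) (hσY₀ σ)
    have hbsq : ∀ σ, ∃ s, b σ = s ^ 2 := by
      intro σ
      rw [← T6 _ (hb0 σ)]
      simp only [hb]
      rw [div_eq_mul_inv, T5 _ _ (mul_ne_zero (h0 σ) hY₀) (inv_ne_zero (hσY₀ σ)),
        T5 _ _ (h0 σ) hY₀, hLinv _ (hσY₀ σ), hLσ, hLY₀]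
      have h1 := hae₁ σ
      simp only [ha] at h1
      rw [h1]
      have h2 := two0 e₁
      have h3 := two0 ((σ : Gal(Kgs F/RatFunc F)) e₁)
      linear_combination h2 + h3
    classical
    set f : Kgs F → Kgs F := fun x => if h : ∃ s, x = s ^ 2 then h.choose else 0 with hf
    set ν : (Kgeo F).fixingSubgroup → Kgs F := fun σ => f (b σ) with hν
    have hν1 : ∀ σ, b σ = ν σ ^ 2 := by
      intro σ
      have hex := hbsq σ
      have h1 : ν σ = hex.choose := by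
        simp only [hν, hf]
        rw [dif_pos hex]
      rw [h1]
      exact hex.choose_spec
    have hν0 : ∀ σ, ν σ ≠ 0 := by
      intro σ h1
      have h2 := hν1 σ
      rw [h1] at h2
      exact hb0 σ (by simpa using h2)
    have hbloc : IsLocallyConstant b := by
      have h1 : IsLocallyConstant fun σ : (Kgeo F).fixingSubgroup =>
          (σ : Gal(Kgs F/RatFunc F)) Y₀ :=
        (lc (K := RatFunc F) (L := Kgs F) Y₀).comp_continuous continuous_subtype_val
      exact hl.comp₂ h1 (fun x y => x * Y₀ / y)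
    have hνloc : IsLocallyConstant ν := hbloc.comp f
    have hνcoc : ∀ σ τ : (Kgeo F).fixingSubgroup,
        EqN (2 ^ k) (ν (σ * τ)) (ν σ * (σ : Gal(Kgs F/RatFunc F)) (ν τ)) := by
      intro σ τ
      obtain ⟨s, hs, h⟩ := hm σ τ
      refine ⟨s, hs, ?_⟩
      apply pow_inj2 1
      rw [pow_one, mul_pow, mul_pow, ← map_pow, ← hν1, ← hν1, ← hν1]
      simp only [hb]
      have h2 : ((σ * τ : (Kgeo F).fixingSubgroup) : Gal(Kgs F/RatFunc F)) Y₀ =
        (σ : Gal(Kgs F/RatFunc F)) ((τ : Gal(Kgs F/RatFunc F)) Y₀) := rfl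
      have h3 : (σ : Gal(Kgs F/RatFunc F)) ((τ : Gal(Kgs F/RatFunc F)) Y₀) ≠ 0 := by
        simpa using hY₀
      have h4 := hσY₀ σ
      rw [h, h2, map_div₀, map_mul, pow_succ (2 : ℕ), pow_mul]
      field_simp
    obtain ⟨Y₁, hY₁, hY₁'⟩ := ih ν hνloc hν0 hνcoc
    refine ⟨Y₀ * Y₁ ^ 2, mul_ne_zero hY₀ (pow_ne_zero _ hY₁), ?_⟩
    intro σ
    obtain ⟨s, hs, h⟩ := hY₁' σ
    refine ⟨s, hs, ?_⟩
    have h1 := hν1 σ
    rw [h] at h1
    simp only [hb] at h1
    have h2 := hσY₀ σ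
    have h3 : (σ : Gal(Kgs F/RatFunc F)) Y₁ ≠ 0 := by simpa using hY₁
    have h4 : μ σ = (σ : Gal(Kgs F/RatFunc F)) Y₀ / Y₀ *
        ((σ : Gal(Kgs F/RatFunc F)) Y₁ / Y₁ * s ^ 2 ^ k) ^ 2 := by
      rw [← h1]; field_simp
    rw [h4, map_mul, map_pow, pow_succ (2 : ℕ), pow_mul]
    field_simp

end Pool.Agent.MP72W
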