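import Pool.Agent.Lib.MP_72e2e6_nt.W2.R.Spec

/-!
# MP_72e2e6_nt, theorem T3, part R: the operator `C` and the logarithmic derivative
-/

namespace Pool.Agent.MP72W

open Polynomial IntermediateField

theorem tTb : S_Tb := by
  intro L _ _ t ht
  have h2 : (2 : L) = 0 := CharTwo.two_eq_zero
  have h1 : ∀ a b : L, Cop t (a ^ 2 + t * b ^ 2) = b := by
    intro a b
    have hex : ∃ b' a' : L, a ^ 2 + t * b ^ 2 = a' ^ 2 + t * b' ^ 2 := ⟨b, a, rfl⟩
    have hC : Cop t (a ^ 2 + t * b ^ 2) = hex.choose := dif_pos hex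
    rw [hC]
    obtain ⟨a', ha'⟩ := hex.choose_spec
    set b' := hex.choose with hb'
    by_contra hne
    have hne' : b - b' ≠ 0 := fun h => hne (sub_eq_zero.1 h).symm
    refine ht.2 ((a - a') / (b - b')) ?_
    rw [div_pow, div_eq_iff (pow_ne_zero 2 hne')]
    linear_combination (-1 : L) * ha' + (a ^ 2 + t * b * b' - a * a' - t * b' ^ 2) * h2
  have hadd : ∀ f g : L, Cop t (f + g) = Cop t f + Cop t g := by
    intro f g
    obtain ⟨a, b, rfl⟩ := ht.1 f
    obtain ⟨c, d, rfl⟩ := ht.1 g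
    have e : a ^ 2 + t * b ^ 2 + (c ^ 2 + t * d ^ 2) = (a + c) ^ 2 + t * (b + d) ^ 2 := by
      linear_combination (-(a * c) - t * b * d) * h2
    rw [e, h1, h1, h1]
  have hmul : ∀ f g : L, Cop t (g ^ 2 * f) = g * Cop t f := by
    intro f g
    obtain ⟨a, b, rfl⟩ := ht.1 f
    have e : g ^ 2 * (a ^ 2 + t * b ^ 2) = (g * a) ^ 2 + t * (g * b) ^ 2 := by ring
    rw [e, h1, h1]
  have hLgm : ∀ u v : L, u ≠ 0 → v ≠ 0 → Lg t (u * v) = Lg t u + Lg t v := by
    intro u v hu hv
    obtain ⟨a, b, hab⟩ := ht.1 u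
    obtain ⟨c, d, hcd⟩ := ht.1 v
    have hCu : Cop t u = b := by rw [hab, h1]
    have hCv : Cop t v = d := by rw [hcd, h1]
    have huv : u * v = (a * c + t * b * d) ^ 2 + t * (a * d + b * c) ^ 2 := by
      rw [hab, hcd]
      linear_combination (-(2 * a * b * c * d * t)) * h2
    have hCuv : Cop t (u * v) = a * d + b * c := by rw [huv, h1]
    unfold Lg
    rw [hCu, hCv, hCuv]
    field_simp
    rw [hab, hcd]
    linear_combination (a * b * c * d - t * b ^ 2 * d ^ 2) * h2
  refine ⟨h1, hadd, hmul, ?_, hLgm, ?_, ?_, ?_⟩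
  · intro σ hσ f
    have hC : Cop t (σ f) = σ (Cop t f) := by
      obtain ⟨a, b, rfl⟩ := ht.1 f
      rw [map_add, map_mul, map_pow, map_pow, hσ, h1, h1]
    refine ⟨hC, ?_⟩
    unfold Lg
    rw [hC, map_div₀, map_pow]
  · intro u hu
    unfold Lg
    rw [div_eq_zero_iff]
    constructor
    · rintro (h | h)
      · obtain ⟨a, b, hab⟩ := ht.1 u
        have hb : b = 0 := by
          rw [hab, h1] at h
          exact pow_eq_zero_iff (two_ne_zero) |>.1 h
        exact ⟨a, by rw [hab, hb]; ring⟩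
      · exact (hu h).elim
    · rintro ⟨s, rfl⟩
      left
      have := h1 s 0
      rw [show s ^ 2 + t * 0 ^ 2 = s ^ 2 by ring] at this
      rw [this]
      ring
  · intro u hu
    have e : Lg t u = (Cop t u / u) ^ 2 * u := by
      unfold Lg
      field_simp
    rw [e, hmul]
    field_simp
  · intro f hf hCf
    have e : (1 : L) / f = (1 / f) ^ 2 * f := by field_simp
    unfold Lg
    rw [e, hmul, hCf, ← e]
    field_simp

end Pool.Agent.MP72W
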