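import Pool.Agent.Lib.MP_72e2e6_nt.W2.R.Spec

/-!
# MP_72e2e6_nt, theorem T3, part R: the 2-basis of the separable closure
-/

namespace Pool.Agent.MP72W

open Polynomial IntermediateField

section
variable {L : Type} [Field L] [CharP L 2] {t : L}

private def tbQ (t x : L) : Prop := ∃ a b : L, x = a ^ 2 + t * b ^ 2

private theorem tbQ_add {x y : L} (hx : tbQ t x) (hy : tbQ t y) : tbQ t (x + y) := by
  obtain ⟨a, b, rfl⟩ := hx
  obtain ⟨c, d, rfl⟩ := hy
  have h2 : (2 : L) = 0 := CharTwo.two_eq_zero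
  exact ⟨a + c, b + d, by linear_combination (-(a * c) - t * b * d) * h2⟩

private theorem tbQ_mul {x y : L} (hx : tbQ t x) (hy : tbQ t y) : tbQ t (x * y) := by
  obtain ⟨a, b, rfl⟩ := hx
  obtain ⟨c, d, rfl⟩ := hy
  have h2 : (2 : L) = 0 := CharTwo.two_eq_zero
  exact ⟨a * c + t * b * d, a * d + b * c, by linear_combination (-(2 * a * b * c * d * t)) * h2⟩

omit [CharP L 2] in
private theorem tbQ_sq (s : L) : tbQ t (s ^ 2) := ⟨s, 0, by ring⟩

private theorem tbQ_div {x y : L} (hx : tbQ t x) (hy : tbQ t y) : tbQ t (x / y) := by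
  by_cases h : y = 0
  · rw [h, div_zero]
    exact ⟨0, 0, by ring⟩
  · have e : x / y = x * y * (y⁻¹) ^ 2 := by field_simp
    rw [e]
    exact tbQ_mul (tbQ_mul hx hy) (tbQ_sq _)

end

/-- The elements of `F(t)`. -/
private theorem tbQ_K {F : Type} [Field F] [Finite F] [CharP F 2] (x : RatFunc F) :
    tbQ (RatFunc.X : RatFunc F) x := by
  have hc : CharP (RatFunc F) 2 := charP_of_injective_algebraMap
    (algebraMap F (RatFunc F)).injective 2
  have hsq : ∀ c : F, ∃ d : F, d ^ 2 = c := by
    intro c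
    obtain ⟨d, hd⟩ := FiniteField.isSquare_of_char_two (F := F) (ringChar.eq F 2) c
    exact ⟨d, by rw [hd]; ring⟩
  have hpoly : ∀ p : F[X], tbQ (RatFunc.X : RatFunc F) (algebraMap F[X] (RatFunc F) p) := by
    intro p
    induction p using Polynomial.induction_on' with
    | add p q hp hq =>
      rw [map_add]
      exact tbQ_add hp hq
    | monomial n c =>
      obtain ⟨d, hd⟩ := hsq c
      rw [← C_mul_X_pow_eq_monomial, map_mul, map_pow, RatFunc.algebraMap_C, RatFunc.algebraMap_X]
      rcases Nat.even_or_odd' n with ⟨m, hm | hm⟩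
      · refine ⟨RatFunc.C d * RatFunc.X ^ m, 0, ?_⟩
        rw [← hd, hm, map_pow]
        ring
      · refine ⟨0, RatFunc.C d * RatFunc.X ^ m, ?_⟩
        rw [← hd, hm, map_pow]
        ring
  rw [← RatFunc.num_div_denom x]
  exact tbQ_div (hpoly _) (hpoly _)

theorem tTbG : S_TbG := by
  intro F _ _ _
  have hc : CharP (RatFunc F) 2 := charP_of_injective_algebraMap
    (algebraMap F (RatFunc F)).injective 2
  have hc2 : CharP (Kgs F) 2 := charP_of_injective_algebraMap
    (algebraMap (RatFunc F) (Kgs F)).injective 2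
  have hexp : ExpChar (RatFunc F) 2 := ExpChar.prime Nat.prime_two
  have hK : ∀ x : RatFunc F, tbQ (tt F) (algebraMap (RatFunc F) (Kgs F) x) := by
    intro x
    obtain ⟨a, b, hab⟩ := tbQ_K x
    refine ⟨algebraMap _ _ a, algebraMap _ _ b, ?_⟩
    rw [hab, map_add, map_mul, map_pow, map_pow]
    rfl
  constructor
  · intro f
    have h1 : f ∈ (RatFunc F)⟮f ^ 2⟯ := by
      rw [← adjoin_simple_eq_adjoin_pow_expChar_of_isSeparable' (RatFunc F) (Kgs F) f 2]
      exact mem_adjoin_simple_self _ _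
    rw [mem_adjoin_simple_iff] at h1
    obtain ⟨r, s, hrs⟩ := h1
    have h2 : ∀ p : (RatFunc F)[X], tbQ (tt F) (aeval (f ^ 2) p) := by
      intro p
      induction p using Polynomial.induction_on' with
      | add p q hp hq =>
        rw [map_add]
        exact tbQ_add hp hq
      | monomial n c =>
        rw [aeval_monomial, ← pow_mul, mul_comm 2 n, pow_mul]
        exact tbQ_mul (hK c) (tbQ_sq _)
    have h3 : tbQ (tt F) f := by
      rw [hrs]
      exact tbQ_div (h2 r) (h2 s)
    exact h3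
  · intro s hs
    have h1 : s ∈ (RatFunc F)⟮s ^ 2⟯ := by
      rw [← adjoin_simple_eq_adjoin_pow_expChar_of_isSeparable' (RatFunc F) (Kgs F) s 2]
      exact mem_adjoin_simple_self _ _
    have h2 : (RatFunc F)⟮s ^ 2⟯ = ⊥ := by
      rw [hs, adjoin_simple_eq_bot_iff]
      exact _root_.algebraMap_mem _ _
    rw [h2, mem_bot] at h1
    obtain ⟨x, rfl⟩ := h1
    have h3 : x ^ 2 = RatFunc.X := by
      apply (algebraMap (RatFunc F) (Kgs F)).injective
      rw [map_pow]
      exact hs
    have hx : x ≠ 0 := by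
      rintro rfl
      rw [zero_pow two_ne_zero] at h3
      exact RatFunc.X_ne_zero h3.symm
    have h4 := congrArg RatFunc.intDegree h3
    rw [pow_two, RatFunc.intDegree_mul hx hx, RatFunc.intDegree_X] at h4
    omega

end Pool.Agent.MP72W
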