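import Pool.Agent.Lib.MP_72e2e6_nt.W2.R.Spec

/-!
# MP_72e2e6_nt, theorem T3, part R: local invariants of a global crossed homomorphism (helper56)
-/

set_option autoImplicit false

namespace Pool.Agent.MP72W

open Polynomial IntermediateField

namespace ValAux

theorem eqn_refl (N : ℕ) {L : Type} [Field L] (a : L) : EqN N a a :=
  ⟨1, one_ne_zero, by simp⟩

theorem eqn_of_eq (N : ℕ) {L : Type} [Field L] {a b : L} (h : a = b) : EqN N a b := by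
  rw [h]
  exact eqn_refl N b

theorem eqn_trans {N : ℕ} {L : Type} [Field L] {a b c : L} (h : EqN N a b) (h' : EqN N b c) :
    EqN N a c := by
  obtain ⟨s, hs, e⟩ := h
  obtain ⟨t, ht, e'⟩ := h'
  exact ⟨t * s, mul_ne_zero ht hs, by rw [e, e', mul_pow]; ring⟩

theorem eqn_mul {N : ℕ} {L : Type} [Field L] {a b a' b' : L} (h : EqN N a b) (h' : EqN N a' b') :
    EqN N (a * a') (b * b') := by
  obtain ⟨s, hs, e⟩ := h
  obtain ⟨t, ht, e'⟩ := h'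
  exact ⟨s * t, mul_ne_zero hs ht, by rw [e, e', mul_pow]; ring⟩

theorem eqn_map {N : ℕ} {L L' : Type} [Field L] [Field L'] (f : L →+* L') {a b : L}
    (h : EqN N a b) : EqN N (f a) (f b) := by
  obtain ⟨s, hs, e⟩ := h
  exact ⟨f s, (map_ne_zero f).2 hs, by rw [e, map_mul, map_pow]⟩

section

variable {F : Type} [Field F] {N : ℕ} {μ : Gal(Kgs F/RatFunc F) → Kgs F}

theorem mu_one (h : NCoc N μ) : EqN N (μ 1) 1 := by
  obtain ⟨s, hs, e⟩ := h.mul 1 1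
  rw [mul_one] at e
  have h1 : (1 : Gal(Kgs F/RatFunc F)) (μ 1) = μ 1 := rfl
  rw [h1] at e
  have h2 : μ 1 * s ^ N = 1 := by
    have h3 := h.ne 1
    have h4 : μ 1 * (μ 1 * s ^ N) = μ 1 * 1 := by
      rw [mul_one]
      conv_rhs => rw [e]
      ring
    exact mul_left_cancel₀ h3 h4
  refine ⟨s⁻¹, inv_ne_zero hs, ?_⟩
  rw [one_mul, inv_pow]
  exact eq_inv_of_mul_eq_one_left h2

theorem mu_pow (h : NCoc N μ) {Y ρ : Kgs F} {Fr : Gal(Kgs F/RatFunc F)} (hY : Y ≠ 0)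
    (hFr : EqN N (μ Fr) (Fr Y / Y * ρ)) (i : ℕ) :
    EqN N (μ (Fr ^ i)) ((Fr ^ i) Y / Y * ∏ j ∈ Finset.range i, (Fr ^ j) ρ) := by
  induction i with
  | zero =>
    rw [pow_zero]
    refine eqn_trans (mu_one h) (eqn_of_eq N ?_)
    have : (1 : Gal(Kgs F/RatFunc F)) Y = Y := rfl
    rw [this, div_self hY]
    simp
  | succ i ih =>
    have h1 : Fr ^ (i + 1) = Fr * Fr ^ i := pow_succ' Fr i
    rw [h1]
    refine eqn_trans (h.mul Fr (Fr ^ i)) ?_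
    have h2 := eqn_map (Fr : Kgs F →+* Kgs F) ih
    refine eqn_trans (eqn_mul hFr h2) (eqn_of_eq N ?_)
    have h3 : (Fr : Kgs F →+* Kgs F) ((Fr ^ i) Y / Y * ∏ j ∈ Finset.range i, (Fr ^ j) ρ) =
        (Fr * Fr ^ i) Y / Fr Y * ∏ j ∈ Finset.range i, (Fr * Fr ^ j) ρ := by
      show Fr ((Fr ^ i) Y / Y * ∏ j ∈ Finset.range i, (Fr ^ j) ρ) = _
      rw [map_mul, map_div₀, map_prod]
      rfl
    rw [h3, Finset.prod_range_succ']
    have h4 : Fr Y ≠ 0 := (map_ne_zero Fr).2 hY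
    have h5 : (Fr ^ 0) ρ = ρ := by rw [pow_zero]; rfl
    rw [h5]
    have h6 : ∀ j, Fr ^ (j + 1) = Fr * Fr ^ j := fun j => pow_succ' Fr j
    simp only [h6]
    field_simp

end

end ValAux

open ValAux in
theorem tVal (_hLc1 : S_Lc1) (_hLc2 : S_Lc2) (hNr : S_Nr) (hFrG : S_FrG) (hRes : S_Res)
    (hRho : S_Rho) : S_Val := by
  intro F _ _ _ k μ hμ v d ϖ R hLF ι g₀ hg₀
  obtain ⟨-, f2, f3, f4, f5⟩ := hFrG F
  obtain ⟨n1, n2, n3, n4, n5, n6, n7⟩ := hNr F v d ϖ R hLF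
  obtain ⟨-, r2, -, -⟩ := hRes (RatFunc F) (Kgs F) v.Completion (Kvs v) ι
  set r : Gal(Kvs v/v.Completion) →* Gal(Kgs F/RatFunc F) := rsH (M := v.Completion) ι with hr
  -- the image of the geometric field
  have hgeo : ∀ z ∈ Kgeo F, ι z ∈ Knr v := by
    intro z hz
    have hsub : Kgeo F ≤ ((Knr v).restrictScalars (RatFunc F)).comap ι := by
      unfold Kgeo
      rw [adjoin_le_iff]
      intro x hx
      exact n4 _ ((f4 (Kvs v) ι).1 x hx)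
    exact hsub hz
  have hFrgeo : ∀ (σ : Gal(Kgs F/RatFunc F)), ∀ z ∈ Kgeo F, σ z ∈ Kgeo F := by
    intro σ z hz
    have hsub : Kgeo F ≤ (Kgeo F).comap (σ : Kgs F →ₐ[RatFunc F] Kgs F) := by
      conv_lhs => unfold Kgeo
      rw [adjoin_le_iff]
      intro x hx
      refine subset_adjoin _ _ ?_
      obtain ⟨n, hn, e⟩ := hx
      refine ⟨n, hn, ?_⟩
      show (σ x) ^ Nat.card F ^ n = σ x
      rw [← map_pow, e]
    exact hsub hz
  have main : ∀ (Y ρ : Kgs F) (Fr : Gal(Kgs F/RatFunc F)), Y ≠ 0 → ρ ≠ 0 → ρ ∈ Kgeo F →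
      IsFro (Nat.card F) (Nat.card F) Fr →
      (∀ σ : Gal(Kgs F/RatFunc F), IsGeo (Nat.card F) σ → EqN (2 ^ k) (μ σ) (σ Y / Y)) →
      EqN (2 ^ k) (μ Fr) (Fr Y / Y * ρ) →
      (∏ i ∈ Finset.range d, ι ((Fr ^ i) ρ) ≠ 0) ∧ (∏ i ∈ Finset.range d, ι ((Fr ^ i) ρ) ∈ Knr v) ∧
      ∀ x : ℤ, nm v (∏ i ∈ Finset.range d, ι ((Fr ^ i) ρ)) = v ϖ ^ x →
        LV v (2 ^ k) ϖ g₀ (lcl ι μ) x := by
    intro Y ρ Fr hY hρ hρK hFr hgeoY hFrY
    have p1 : ∏ i ∈ Finset.range d, ι ((Fr ^ i) ρ) ≠ 0 := by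
      rw [Finset.prod_ne_zero_iff]
      intro i _
      exact (map_ne_zero ι).2 ((map_ne_zero (Fr ^ i)).2 hρ)
    have p2 : ∏ i ∈ Finset.range d, ι ((Fr ^ i) ρ) ∈ Knr v :=
      prod_mem fun i _ => hgeo _ (hFrgeo _ _ hρK)
    refine ⟨p1, p2, fun x hx => ?_⟩
    refine ⟨ι Y, ∏ i ∈ Finset.range d, ι ((Fr ^ i) ρ), (map_ne_zero ι).2 hY, p1, p2, ?_, ?_, hx⟩
    · intro g hg
      have h1 : IsGeo (Nat.card F) (r g) := (f5 (Kvs v) ι g (r g) (r2 g)).1.1 hg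
      have h2 := eqn_map (ι : Kgs F →+* Kvs v) (hgeoY _ h1)
      refine eqn_trans h2 (eqn_of_eq _ ?_)
      show ι ((r g) Y / Y) = g (ι Y) / ι Y
      rw [map_div₀, r2 g Y]
    · set σ := r g₀ with hσ
      have h1 : IsFro (Nat.card F) (Nat.card F ^ d) σ :=
        ((f5 (Kvs v) ι g₀ σ (r2 g₀)).2 _).1 hg₀
      have hfp : ∀ i : ℕ, IsFro (Nat.card F) (Nat.card F ^ i) (Fr ^ i : Gal(Kgs F/RatFunc F)) := by
        intro i c hc
        induction i with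
        | zero =>
          rw [pow_zero, pow_zero, pow_one]
          rfl
        | succ i ih =>
          have e1 : (Fr ^ (i + 1)) c = Fr ((Fr ^ i) c) := by
            rw [pow_succ']
            rfl
          rw [e1, ih, map_pow, hFr c hc, ← pow_mul, pow_succ']
      set τ : Gal(Kgs F/RatFunc F) := (Fr ^ d)⁻¹ * σ with hτ
      have hστ : Fr ^ d * τ = σ := by rw [hτ, mul_inv_cancel_left]
      have h2 : IsGeo (Nat.card F) τ := by
        intro c hc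
        have e1 : (Fr ^ d) (τ c) = σ c := by
          rw [← hστ]
          rfl
        have e2 : (Fr ^ d) c = σ c := by rw [h1 c hc, hfp d c hc]
        exact (Fr ^ d).injective (e1.trans e2.symm)
      have h3 : EqN (2 ^ k) (μ σ) (σ Y / Y * ∏ j ∈ Finset.range d, (Fr ^ j) ρ) := by
        have e1 := hμ.mul (Fr ^ d) τ
        rw [hστ] at e1
        refine eqn_trans e1 ?_
        have e2 := eqn_map ((Fr ^ d : Gal(Kgs F/RatFunc F)) : Kgs F →+* Kgs F) (hgeoY τ h2)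
        refine eqn_trans (eqn_mul (mu_pow hμ hY hFrY d) e2) (eqn_of_eq _ ?_)
        have e3 : ((Fr ^ d : Gal(Kgs F/RatFunc F)) : Kgs F →+* Kgs F) (τ Y / Y) =
            σ Y / (Fr ^ d) Y := by
          show (Fr ^ d) (τ Y / Y) = _
          rw [map_div₀, ← hστ]
          rfl
        rw [e3]
        have e4 : (Fr ^ d) Y ≠ 0 := (map_ne_zero (Fr ^ d)).2 hY
        field_simp
      have h4 := eqn_map (ι : Kgs F →+* Kvs v) h3
      refine eqn_trans h4 (eqn_of_eq _ ?_)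
      show ι (σ Y / Y * ∏ j ∈ Finset.range d, (Fr ^ j) ρ) = _
      rw [map_mul, map_div₀, map_prod, ← r2 g₀ Y]
  refine ⟨fun Y ρ Fr hY hρ hρK hFr hgeoY hFrY x hx =>
    (main Y ρ Fr hY hρ hρK hFr hgeoY hFrY).2.2 x hx, ?_⟩
  obtain ⟨Fr, hFr⟩ := f2
  obtain ⟨Y, ρ, hY, hρ, hρK, hgeoY, hFrY⟩ := hRho F k μ hμ Fr hFr
  obtain ⟨p1, p2, p3⟩ := main Y ρ Fr hY hρ hρK hFr hgeoY hFrY
  obtain ⟨x, hx⟩ := n1 _ p2 p1
  exact ⟨x, p3 x hx⟩

end Pool.Agent.MP72W
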