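import Pool.Agent.Lib.MP_72e2e6_nt.W2.R.Spec
import Pool.Agent.Lib.MP_72e2e6_nt.W2.A.Spec

/-!
# MP_72e2e6_nt, theorem T3, part R: module Zex
-/

namespace Pool.Agent.MP72W

open Polynomial IntermediateField

namespace Zex

private theorem hom2_zero {G : Type*} [Group G] [TopologicalSpace G] :
    Hom2 (fun _ : G => (0 : ZMod 2)) :=
  ⟨IsLocallyConstant.const 0, fun _ _ => by simp⟩

private theorem hom2_add {G : Type*} [Group G] [TopologicalSpace G] {h h' : G → ZMod 2}
    (H : Hom2 h) (H' : Hom2 h') (c : ZMod 2) : Hom2 (fun g => h g + c * h' g) :=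
  ⟨H.loc.comp₂ H'.loc (fun x y => x + c * y), fun a b => by rw [H.add, H'.add]; ring⟩

/-- Local surjectivity. -/
private theorem locSurj {G : Type} [Group G] [TopologicalSpace G]
    {ι : Type} [DecidableEq ι] {X : Type} [AddCommGroup X] (A : Fam G ι X) (hA : A.Good)
    (w : Option ι) (h : A.W w → ZMod 2) (hh : Hom2 h) (c : ZMod 2) :
    ∃ H : G → ZMod 2, Hom2 H ∧ (∀ g : A.W w, H g = h g) ∧ H (A.φ w) = c := by
  classical
  have key : ∀ c', ∃ H : G → ZMod 2, Hom2 H ∧ (∀ g : A.W w, H g = h g) ∧ H (A.φ none) = c' := by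
    intro c'
    obtain ⟨H, ⟨h1, h2, h3⟩, -⟩ := hA.uex
      (Function.update (fun w' => (fun _ : A.W w' => (0 : ZMod 2))) w h)
      (by
        intro w'
        by_cases hw : w' = w
        · subst hw
          rw [Function.update_self]
          exact hh
        · rw [Function.update_of_ne hw]
          exact hom2_zero) c'
    refine ⟨H, h1, ?_, h3⟩
    intro g
    have := h2 w g
    rwa [Function.update_self] at this
  rcases w with _ | v₀
  · exact key c
  · obtain ⟨H, h1, h2, h3⟩ := key 0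
    obtain ⟨e, δ, hδ, hδ1⟩ := hA.ax1 v₀ none (by simp)
    refine ⟨fun g => H g + (c - H (A.φ (some v₀))) * A.h δ g,
      hom2_add h1 (hA.hom δ) _, ?_, ?_⟩
    · intro g
      simp only
      rw [hA.off none e δ hδ (some v₀) (by simp) g g.2, mul_zero, add_zero, h2]
    · simp only
      rw [hδ1 v₀, if_pos rfl]; ring

private theorem two_pow_self (k : ℕ) : (2 : ZMod (2 ^ k)) ^ k = 0 := by
  have h := ZMod.natCast_self (2 ^ k)
  push_cast at h
  exact h

private theorem two_pow_ne (k : ℕ) : (2 : ZMod (2 ^ (k + 1))) ^ k ≠ 0 := by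
  intro h
  have h1 : ((2 ^ k : ℕ) : ZMod (2 ^ (k + 1))) = 0 := by push_cast; exact h
  rw [ZMod.natCast_eq_zero_iff] at h1
  have h2 := Nat.le_of_dvd (by positivity) h1
  have h3 : 2 ^ k < 2 ^ (k + 1) := Nat.pow_lt_pow_right (by norm_num) (by omega)
  omega

/-- The embedding of `ZMod 2`. -/
private def jj (k : ℕ) (c : ZMod 2) : ZMod (2 ^ (k + 1)) := if c = 0 then 0 else 2 ^ k

private theorem jj_zero (k : ℕ) : jj k 0 = 0 := by simp [jj]

private theorem jj_one (k : ℕ) : jj k 1 = 2 ^ k := by simp [jj]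

private theorem jj_two (k : ℕ) (c : ZMod 2) : jj k c + jj k c = 0 := by
  have h : (2 : ZMod (2 ^ (k + 1))) ^ k + 2 ^ k = 0 := by
    rw [← mul_two, ← pow_succ]; exact two_pow_self (k + 1)
  fin_cases c
  · change jj k 0 + jj k 0 = 0
    rw [jj_zero, add_zero]
  · change jj k 1 + jj k 1 = 0
    rw [jj_one, h]

private theorem jj_add (k : ℕ) (a b : ZMod 2) : jj k (a + b) = jj k a + jj k b := by
  have h := jj_two k
  fin_cases a
  · change jj k (0 + b) = jj k 0 + jj k b
    rw [zero_add, jj_zero, zero_add]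
  · fin_cases b
    · change jj k (1 + 0) = jj k 1 + jj k 0
      rw [add_zero, jj_zero, add_zero]
    · change jj k (1 + 1) = jj k 1 + jj k 1
      rw [h]
      have : (1 + 1 : ZMod 2) = 0 := by decide
      rw [this, jj_zero]

private theorem jj_inj (k : ℕ) {a b : ZMod 2} (h : jj k a = jj k b) : a = b := by
  have h0 := two_pow_ne k
  fin_cases a <;> fin_cases b
  · rfl
  · exfalso
    change jj k 0 = jj k 1 at h
    rw [jj_zero, jj_one] at h
    exact h0 h.symm
  · exfalso
    change jj k 1 = jj k 0 at h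
    rw [jj_zero, jj_one] at h
    exact h0 h
  · rfl

private theorem jj_unit (k : ℕ) {u u' : ZMod (2 ^ (k + 1))} (hu : u * u' = 1) (c : ZMod 2) :
    u * jj k c = jj k c := by
  have hpar : u.val % 2 = 1 := by
    by_contra h0
    have h1 : 2 ∣ u.val := by omega
    obtain ⟨m, hm⟩ := h1
    have h2 : (ZMod.castHom (dvd_pow_self 2 (Nat.succ_ne_zero k)) (ZMod 2)) u = 0 := by
      rw [← ZMod.natCast_zmod_val u, map_natCast, hm]
      push_cast
      have : (2 : ZMod 2) = 0 := by decide
      rw [this, zero_mul]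
    have h3 := congrArg (ZMod.castHom (dvd_pow_self 2 (Nat.succ_ne_zero k)) (ZMod 2)) hu
    rw [map_mul, h2, zero_mul, map_one] at h3
    exact absurd h3 (by decide)
  fin_cases c
  · change u * jj k 0 = jj k 0
    rw [jj_zero, mul_zero]
  · change u * jj k 1 = jj k 1
    rw [jj_one]
    have h1 : u = 2 * ((u.val / 2 : ℕ) : ZMod (2 ^ (k + 1))) + 1 := by
      have h2 : u.val = 2 * (u.val / 2) + 1 := by omega
      calc u = ((u.val : ℕ) : ZMod (2 ^ (k + 1))) := (ZMod.natCast_zmod_val u).symm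
        _ = ((2 * (u.val / 2) + 1 : ℕ) : ZMod (2 ^ (k + 1))) := by rw [← h2]
        _ = _ := by push_cast; ring
    have h2 : (2 : ZMod (2 ^ (k + 1))) ^ k * 2 = 0 := by
      rw [← pow_succ]; exact two_pow_self (k + 1)
    rw [h1]
    linear_combination ((u.val / 2 : ℕ) : ZMod (2 ^ (k + 1))) * h2

private theorem jj_ker (k : ℕ) {x : ZMod (2 ^ (k + 1))} (hx : rdK k x = 0) :
    jj k (if x = 0 then 0 else 1) = x := by
  by_cases h0 : x = 0
  · rw [if_pos h0, jj_zero, h0]
  · rw [if_neg h0, jj_one]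
    rw [← ZMod.natCast_zmod_val x, rdK, map_natCast, ZMod.natCast_eq_zero_iff] at hx
    obtain ⟨m, hm⟩ := hx
    have hlt := ZMod.val_lt x
    have h1 : x.val ≠ 0 := by rwa [Ne, ZMod.val_eq_zero]
    have h2 : m = 1 := by
      have h3 : m ≠ 0 := by rintro rfl; omega
      have h4 : m < 2 := by
        by_contra h5
        have h6 : 2 ^ k * 2 ≤ 2 ^ k * m := Nat.mul_le_mul_left _ (by omega)
        rw [← hm, ← pow_succ] at h6
        omega
      omega
    rw [h2, mul_one] at hm
    calc (2 : ZMod (2 ^ (k + 1))) ^ k = ((2 ^ k : ℕ) : ZMod (2 ^ (k + 1))) := by push_cast; rfl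
      _ = ((x.val : ℕ) : ZMod (2 ^ (k + 1))) := by rw [hm]
      _ = x := ZMod.natCast_zmod_val x

/-- Lifting of crossed homomorphisms. -/
private theorem lift {G : Type} [Group G] [TopologicalSpace G] [IsTopologicalGroup G]
    (h2 : H2Z G) (k : ℕ) (χ : G → ZMod (2 ^ (k + 1))) (hχ : Chr χ) (z : G → ZMod (2 ^ k))
    (hz : Coc (fun g x => rdK k (χ g) * x) z) :
    ∃ z' : G → ZMod (2 ^ (k + 1)), Coc (fun g x => χ g * x) z' ∧ ∀ g, rdK k (z' g) = z g := by
  have hu : ∀ g, χ g * χ g⁻¹ = 1 := fun g => by rw [← hχ.mul, mul_inv_cancel, hχ.one]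
  set z₁ : G → ZMod (2 ^ (k + 1)) := fun g => ((z g).val : ZMod (2 ^ (k + 1))) with hz₁
  have hz₁l : IsLocallyConstant z₁ := hz.loc.comp (fun a => ((a.val : ℕ) : ZMod (2 ^ (k + 1))))
  have hz₁r : ∀ g, rdK k (z₁ g) = z g := by
    intro g
    simp only [hz₁]
    rw [map_natCast, ZMod.natCast_zmod_val]
  set D : G → G → ZMod (2 ^ (k + 1)) := fun g h => z₁ (g * h) - z₁ g - χ g * z₁ h with hD
  have hDk : ∀ g h, rdK k (D g h) = 0 := by
    intro g h
    simp only [hD]
    rw [map_sub, map_sub, map_mul, hz₁r, hz₁r, hz₁r, hz.mul]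
    ring
  set c : G → G → ZMod 2 := fun g h => if D g h = 0 then 0 else 1 with hc
  have hjc : ∀ g h, jj k (c g h) = D g h := fun g h => jj_ker k (hDk g h)
  have hcl : IsLocallyConstant (fun p : G × G => c p.1 p.2) := by
    have e1 : IsLocallyConstant (fun p : G × G => z₁ (p.1 * p.2)) :=
      hz₁l.comp_continuous continuous_mul
    have e2 : IsLocallyConstant (fun p : G × G => z₁ p.1) := hz₁l.comp_continuous continuous_fst
    have e3 : IsLocallyConstant (fun p : G × G => z₁ p.2) := hz₁l.comp_continuous continuous_snd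
    have e4 : IsLocallyConstant (fun p : G × G => χ p.1) := hχ.loc.comp_continuous continuous_fst
    have e5 : IsLocallyConstant (fun p : G × G => z₁ (p.1 * p.2) - z₁ p.1) := e1.comp₂ e2 (· - ·)
    have e6 : IsLocallyConstant (fun p : G × G => χ p.1 * z₁ p.2) := e4.comp₂ e3 (· * ·)
    exact e5.comp₂ e6 (fun x y => if x - y = 0 then (0 : ZMod 2) else 1)
  obtain ⟨b, hbl, hb⟩ := h2 c hcl (by
    intro a b d
    apply jj_inj k
    rw [jj_add, jj_add, jj_add, hjc, hjc, hjc, hjc, jj_zero]
    have e1 : χ a * D b d = D b d := by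
      rw [← hjc b d]
      exact jj_unit k (hu a) _
    have e2 : D (a * b) d + D (a * b) d = 0 := by rw [← hjc]; exact jj_two k _
    have e3 : D a b + D a b = 0 := by rw [← hjc]; exact jj_two k _
    have e4 : χ a * D b d - D (a * b) d + D a (b * d) - D a b = 0 := by
      simp only [hD]
      rw [hχ.mul a b, mul_assoc a b d]
      ring
    linear_combination e4 - e1 + e2 + e3)
  refine ⟨fun g => z₁ g + jj k (b g), ⟨hz₁l.comp₂ hbl (fun x y => x + jj k y), ?_⟩, ?_⟩
  · intro g h
    have e1 : D g h = jj k (b g) + jj k (b h) + jj k (b (g * h)) := by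
      rw [← hjc, hb, jj_add, jj_add]
    have e2 := jj_two k (b (g * h))
    have e3 : χ g * jj k (b h) = jj k (b h) := jj_unit k (hu g) _
    simp only [hD] at e1
    linear_combination e1 + e2 - e3
  · intro g
    simp only
    rw [map_add, hz₁r]
    have e1 : rdK k (jj k (b g)) = 0 := by
      unfold jj
      split_ifs
      · rw [map_zero]
      · rw [map_pow, map_ofNat]
        exact two_pow_self k
    rw [e1, add_zero]

end Zex

open Zex in
theorem tZex (_hUni : S_Uni) (_hLin : S_Lin) : S_Zex := by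
  intro G _ _ _ ι _ _ X _ A hA k
  induction k with
  | zero =>
    intro χ hχ w
    haveI : Subsingleton (ZMod (2 ^ 0)) := by
      rw [pow_zero]
      infer_instance
    exact ⟨fun _ => 0, ⟨IsLocallyConstant.const 0, fun _ _ => Subsingleton.elim _ _⟩,
      fun _ _ => rfl, Subsingleton.elim _ _⟩
  | succ k ih =>
    intro χ hχ w
    have hu : ∀ g, χ g * χ g⁻¹ = 1 := fun g => by rw [← hχ.mul, mul_inv_cancel, hχ.one]
    have hχ' : Chr (fun g => rdK k (χ g)) :=
      ⟨hχ.loc.comp (rdK k), by rw [hχ.one, map_one],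
        fun a b => by rw [hχ.mul, map_mul]⟩
    obtain ⟨zb, hz, hzW, hzφ⟩ := ih _ hχ' w
    obtain ⟨z', hz', hz'r⟩ := lift hA.h2 k χ hχ zb hz
    have hjW : ∀ g : A.W w, jj k (if z' g = 0 then 0 else 1) = z' g := by
      intro g
      apply jj_ker k
      rw [hz'r, hzW g g.2]
    have hH : Hom2 (fun g : A.W w => (if z' g = 0 then 0 else 1 : ZMod 2)) := by
      refine ⟨(hz'.loc.comp_continuous continuous_subtype_val).comp
        (fun x => if x = 0 then (0 : ZMod 2) else 1), ?_⟩
      intro a b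
      apply jj_inj k
      rw [jj_add, hjW, hjW, hjW]
      have e1 := hz'.mul (a : G) (b : G)
      rw [Subgroup.coe_mul, e1, ← hjW b, jj_unit k (hu a)]
    have hφ : jj k (if z' (A.φ w) - 1 = 0 then 0 else 1) = z' (A.φ w) - 1 := by
      apply jj_ker k
      rw [map_sub, hz'r, hzφ, map_one, sub_self]
    obtain ⟨H, h1, h2, h3⟩ := locSurj A hA w _ hH (if z' (A.φ w) - 1 = 0 then 0 else 1)
    refine ⟨fun g => z' g - jj k (H g), ⟨hz'.loc.comp₂ h1.loc (fun x y => x - jj k y), ?_⟩, ?_, ?_⟩
    · intro g h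
      have e1 := hz'.mul g h
      have e3 : χ g * jj k (H h) = jj k (H h) := jj_unit k (hu g) _
      rw [e1, h1.add, jj_add]
      linear_combination e3
    · intro g hg
      simp only
      have e1 := h2 ⟨g, hg⟩
      have e2 := hjW ⟨g, hg⟩
      simp only at e1 e2
      rw [e1, e2, sub_self]
    · simp only
      rw [h3, hφ]
      ring

end Pool.Agent.MP72W
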