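import Pool.Agent.Lib.MP_72e2e6_nt.W2.R.Spec

/-!
# MP_72e2e6_nt, theorem T3, R/CGe: the operator `C + 1` is surjective on `F̄(t)`
-/

namespace Pool.Agent.MP72W

open Polynomial IntermediateField

private theorem cge_root {L : Type} [Field L] [CharP L 2] [IsSepClosed L] (a : L) :
    ∃ β : L, β ^ 2 + β = a := by
  have hdeg : (X ^ 2 + X + C a : L[X]).natDegree = 2 := by compute_degree!
  have hsep : (X ^ 2 + X + C a : L[X]).Separable := by
    rw [Polynomial.separable_def]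
    have h1 : derivative (X ^ 2 + X + C a : L[X]) = 1 := by
      rw [derivative_add, derivative_add, derivative_C, derivative_X, derivative_X_pow]
      have h2 : ((2 : ℕ) : L) = 0 := CharP.cast_eq_zero L 2
      rw [h2, C_0, zero_mul, zero_add, add_zero]
    rw [h1]
    exact isCoprime_one_right
  obtain ⟨β, hβ⟩ := IsSepClosed.exists_root (X ^ 2 + X + C a : L[X])
    (fun h => by
      have h3 := Polynomial.natDegree_eq_zero_iff_degree_le_zero.2 (le_of_eq h)
      omega) hsep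
  refine ⟨β, ?_⟩
  rw [IsRoot, eval_add, eval_add, eval_pow, eval_X, eval_C] at hβ
  exact CharTwo.add_eq_zero.1 hβ

theorem tCGe (hC : S_Cst) (_hFr : S_FrG) (hTb : S_Tb) (hTbG : S_TbG) (hG : S_Gst) : S_CGe := by
  intro F _ _ _
  have hK2 : CharP (RatFunc F) 2 := charP_of_injective_algebraMap
    (algebraMap F (RatFunc F)).injective 2
  have hL2 : CharP (Kgs F) 2 := charP_of_injective_algebraMap
    (algebraMap (RatFunc F) (Kgs F)).injective 2
  obtain ⟨tb1, tb2, tb3, tb4, -, -, -, -⟩ := hTb (Kgs F) (tt F) (hTbG F)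
  obtain ⟨r, hr, hq⟩ : ∃ r, 1 ≤ r ∧ Nat.card F = 2 ^ r := by
    have := Fintype.ofFinite F
    obtain ⟨n, -, hn⟩ := FiniteField.card F 2
    exact ⟨n, n.2, by rw [Nat.card_eq_fintype_card, hn]⟩
  obtain ⟨-, -, c3, c4, c5, -⟩ := hC (Nat.card F) r hr hq (Kgs F)
  -- square roots of constants
  have hsq : ∀ a ∈ Cst (Nat.card F) (Kgs F), ∃ b ∈ Cst (Nat.card F) (Kgs F), b ^ 2 = a := by
    rintro a ⟨n, hn, ha⟩
    have hrn : 1 ≤ r * n := Nat.mul_pos hr hn
    have h1 : Nat.card F ^ n = 2 ^ (r * n) := by rw [hq, pow_mul]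
    refine ⟨a ^ 2 ^ (r * n - 1), ⟨n, hn, ?_⟩, ?_⟩
    · rw [← pow_mul, mul_comm, pow_mul, ha]
    · rw [← pow_mul, ← pow_succ, Nat.sub_add_cancel hrn, ← h1, ha]
  have hcst : ∀ a ∈ Cst (Nat.card F) (Kgs F), a ∈ Kgeo F := fun a ha =>
    IntermediateField.subset_adjoin (RatFunc F) _ ha
  have htK : tt F ∈ Kgeo F := (Kgeo F).algebraMap_mem RatFunc.X
  have hCK : ∀ f ∈ Kgeo F, Cop (tt F) f ∈ Kgeo F := by
    intro f hf
    rw [← InfiniteGalois.fixedField_fixingSubgroup (Kgeo F), IntermediateField.mem_fixedField_iff]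
    intro g hg
    have h1 : g f = f := (IntermediateField.mem_fixingSubgroup_iff _ _).1 hg f hf
    have h2 : g (tt F) = tt F := g.commutes _
    have h3 := (tb4 (g : Kgs F →+* Kgs F) h2 f).1
    have h4 : Cop (tt F) (g f) = g (Cop (tt F) f) := h3
    rw [← h4, h1]
  refine ⟨hCK, ?_⟩
  have hC0 : Cop (tt F) (0 : Kgs F) = 0 := by
    have h1 := tb2 0 0
    rw [add_zero] at h1
    exact left_eq_add.1 h1
  let I : AddSubgroup (Kgs F) :=
    { carrier := {e | ∃ h ∈ Kgeo F, Cop (tt F) h + h = e}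
      zero_mem' := ⟨0, zero_mem _, by rw [hC0, add_zero]⟩
      add_mem' := by
        rintro a b ⟨h, hh, h1⟩ ⟨h', hh', h1'⟩
        exact ⟨h + h', add_mem hh hh', by rw [tb2, ← h1, ← h1']; ring⟩
      neg_mem' := by
        rintro a ⟨h, hh, h1⟩
        exact ⟨h, hh, by rw [h1, CharTwo.neg_eq]⟩ }
  have hI1 : ∀ e ∈ Kgeo F, Cop (tt F) e + e ∈ I := fun e he => ⟨e, he, rfl⟩
  have hI2 : ∀ e ∈ Kgeo F, Cop (tt F) e ∈ I → e ∈ I := by
    intro e he h
    have h1 := I.sub_mem (hI1 e he) h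
    rwa [add_sub_cancel_left] at h1
  -- powers of t
  have ha : ∀ n : ℕ, ∀ a ∈ Cst (Nat.card F) (Kgs F), a * tt F ^ n ∈ I := by
    intro n
    induction n using Nat.strong_induction_on with
    | _ n ih =>
      intro a ha
      obtain ⟨b, hb, rfl⟩ := hsq a ha
      refine hI2 _ (mul_mem (hcst _ ha) (pow_mem htK _)) ?_
      rcases Nat.even_or_odd' n with ⟨m, rfl | rfl⟩
      · have h1 : b ^ 2 * tt F ^ (2 * m) = (b * tt F ^ m) ^ 2 + tt F * 0 ^ 2 := by ring
        rw [h1, tb1]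
        exact I.zero_mem
      · have h1 : b ^ 2 * tt F ^ (2 * m + 1) = 0 ^ 2 + tt F * (b * tt F ^ m) ^ 2 := by ring
        rw [h1, tb1]
        exact ih m (by omega) b hb
  -- the formula for C at c
  have hform : ∀ γ A B : Kgs F, Cop (tt F) (A ^ 2 + (tt F - γ ^ 2) * B ^ 2) = B := by
    intro γ A B
    have h2 : (2 : Kgs F) = 0 := CharTwo.two_eq_zero
    have h1 : A ^ 2 + (tt F - γ ^ 2) * B ^ 2 = (A + γ * B) ^ 2 + tt F * B ^ 2 := by
      linear_combination (-(γ ^ 2 * B ^ 2) - A * γ * B) * h2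
    rw [h1, tb1]
  have hb : ∀ i : ℕ, 1 ≤ i → ∀ a ∈ Cst (Nat.card F) (Kgs F), ∀ c ∈ Cst (Nat.card F) (Kgs F),
      a / (tt F - c) ^ i ∈ I := by
    intro i
    induction i using Nat.strong_induction_on with
    | _ i ih =>
      intro hi a ha c hc
      by_cases hτ : tt F - c = 0
      · rw [hτ, zero_pow (by omega), div_zero]
        exact I.zero_mem
      obtain ⟨γ, hγ, rfl⟩ := hsq c hc
      have hτK : tt F - γ ^ 2 ∈ Kgeo F := sub_mem htK (hcst _ hc)
      have hdK : ∀ (b : Kgs F) (j : ℕ), b ∈ Cst (Nat.card F) (Kgs F) →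
          b / (tt F - γ ^ 2) ^ j ∈ Kgeo F := fun b j hb => div_mem (hcst b hb) (pow_mem hτK j)
      rcases Nat.even_or_odd' i with ⟨m, rfl | rfl⟩
      · obtain ⟨b, hb, rfl⟩ := hsq a ha
        refine hI2 _ (hdK _ _ ha) ?_
        have h1 : b ^ 2 / (tt F - γ ^ 2) ^ (2 * m) =
            (b / (tt F - γ ^ 2) ^ m) ^ 2 + (tt F - γ ^ 2) * 0 ^ 2 := by
          rw [div_pow, ← pow_mul, mul_comm m 2]
          ring
        rw [h1, hform]
        exact I.zero_mem
      · rcases Nat.eq_zero_or_pos m with rfl | hm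
        · obtain ⟨β, hβ⟩ := cge_root a
          have hβc : β ∈ Cst (Nat.card F) (Kgs F) := c5 a β ha hβ
          have hb2 : β ^ 2 ∈ Cst (Nat.card F) (Kgs F) := by
            rw [sq]
            exact (c3 β hβc β hβc).2
          refine ⟨β ^ 2 / (tt F - γ ^ 2) ^ 1, hdK _ _ hb2, ?_⟩
          have h1 : β ^ 2 / (tt F - γ ^ 2) ^ 1 =
              0 ^ 2 + (tt F - γ ^ 2) * (β / (tt F - γ ^ 2)) ^ 2 := by
            field_simp
            ring
          have h3 : Cop (tt F) (β ^ 2 / (tt F - γ ^ 2) ^ 1) = β / (tt F - γ ^ 2) := by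
            rw [h1, hform]
          rw [h3, ← hβ, pow_one, add_div, add_comm]
        · obtain ⟨b, hb, rfl⟩ := hsq a ha
          refine hI2 _ (hdK _ _ ha) ?_
          have h1 : b ^ 2 / (tt F - γ ^ 2) ^ (2 * m + 1) =
              0 ^ 2 + (tt F - γ ^ 2) * (b / (tt F - γ ^ 2) ^ (m + 1)) ^ 2 := by
            have h5 : (tt F - γ ^ 2) ^ m ≠ 0 := pow_ne_zero m hτ
            rw [show 2 * m + 1 = m + m + 1 by ring, pow_succ, pow_add, pow_succ]
            field_simp
            ring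
          rw [h1, hform]
          exact ih (m + 1) (by omega) (by omega) b hb (γ ^ 2) hc
  intro e he
  exact (hG F).2 I (fun a ha' n => ha n a ha') (fun a ha' c hc i hi => hb i hi a ha' c hc) e he

end Pool.Agent.MP72W
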