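import Pool.Agent.Lib.MP_72e2e6_nt.W2.C.Defs

/-!
# MP_72e2e6_nt, theorem T3, part R (the reciprocity law): definitions
-/

namespace Pool.Agent.MP72W

open Polynomial IntermediateField

/-- `a` and `b` are equal modulo `N`-th powers. -/
def EqN (N : ℕ) {L : Type} [Field L] (a b : L) : Prop := ∃ s : L, s ≠ 0 ∧ a = b * s ^ N

/-- `t` is a `2`-basis of the field `L` of characteristic two: `L = L² ⊕ t L²`. -/
def TB (L : Type) [Field L] (t : L) : Prop :=
  (∀ f : L, ∃ a b : L, f = a ^ 2 + t * b ^ 2) ∧ ∀ s : L, s ^ 2 ≠ t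

open Classical in
/-- The operator `C (a ^ 2 + t b ^ 2) = b`. -/
noncomputable def Cop {L : Type} [Field L] (t f : L) : L :=
  if h : ∃ b a : L, f = a ^ 2 + t * b ^ 2 then h.choose else 0

/-- The logarithmic derivative `u' / u`. -/
noncomputable def Lg {L : Type} [Field L] (t u : L) : L := Cop t u ^ 2 / u

/-- The element `t` of `K^s`. -/
noncomputable def tt (F : Type) [Field F] : Kgs F := algebraMap (RatFunc F) (Kgs F) RatFunc.X

/-- The embedding of `F` in `K^s`. -/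
noncomputable def cF (F : Type) [Field F] : F →+* Kgs F :=
  (algebraMap (RatFunc F) (Kgs F)).comp RatFunc.C

/-- Locally constant functions which are crossed homomorphisms modulo `N`-th powers. -/
structure NCoc {F : Type} [Field F] (N : ℕ) (μ : Gal(Kgs F/RatFunc F) → Kgs F) : Prop where
  ne : ∀ σ, μ σ ≠ 0
  loc : IsLocallyConstant μ
  mul : ∀ σ τ, EqN N (μ (σ * τ)) (μ σ * σ (μ τ))

/-- `x` is a local invariant of the function `μ` on the local Galois group (`g₀` a Frobenius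
element, `ϖ` a uniformizer). -/
def LV {F : Type} [Field F] (v : AbsoluteValue (RatFunc F) ℝ) (N : ℕ) (ϖ : RatFunc F)
    (g₀ : Gal(Kvs v/v.Completion)) (μ : Gal(Kvs v/v.Completion) → Kvs v) (x : ℤ) : Prop :=
  ∃ y r : Kvs v, y ≠ 0 ∧ r ≠ 0 ∧ r ∈ Knr v ∧
    (∀ g : Gal(Kvs v/v.Completion), IsGeo (Nat.card F) g → EqN N (μ g) (g y / y)) ∧
    EqN N (μ g₀) (g₀ y / y * r) ∧ nm v r = v ϖ ^ x

/-- The restriction of a function on the Galois group of `K^s` to the local Galois group. -/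
noncomputable def lcl {F : Type} [Field F] {v : AbsoluteValue (RatFunc F) ℝ}
    (ι : Kgs F →ₐ[RatFunc F] Kvs v) (μ : Gal(Kgs F/RatFunc F) → Kgs F) :
    Gal(Kvs v/v.Completion) → Kvs v :=
  fun g => ι (μ (rsH (M := v.Completion) ι g))

/-- The restriction homomorphism to `GS PP`. -/
noncomputable def rG {F : Type} [Field F] (PP : Finset F[X]) :
    Gal(Kgs F/RatFunc F) →* GS PP :=
  rsH (M := RatFunc F) (Om (AS PP) (RatFunc F) (Kgs F)).val

/-- The function `u ^ z`. -/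
noncomputable def mz {F : Type} [Field F] {PP : Finset F[X]} {k : ℕ} (u : Kgs F)
    (z : GS PP → ZMod (2 ^ k)) : Gal(Kgs F/RatFunc F) → Kgs F :=
  fun σ => u ^ (z (rG PP σ)).val

/-- The function `u ^ z` on the local Galois group. -/
noncomputable def lz {F : Type} [Field F] {PP : Finset F[X]} {k : ℕ}
    {v : AbsoluteValue (RatFunc F) ℝ} (ι : Kgs F →ₐ[RatFunc F] Kvs v) (u : Kgs F)
    (z : GS PP → ZMod (2 ^ k)) : Gal(Kvs v/v.Completion) → Kvs v :=
  fun g => ι u ^ (z (rOm (PP := PP) ι g)).val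

/-- Half of an even element of `ZMod (2 ^ (K + 1))`. -/
def hf (K : ℕ) (a : ZMod (2 ^ (K + 1))) : ZMod (2 ^ K) := ((a.val / 2 : ℕ) : ZMod (2 ^ K))

/-- The reduction modulo `2 ^ K`. -/
def rdK (K : ℕ) : ZMod (2 ^ (K + 1)) →+* ZMod (2 ^ K) :=
  ZMod.castHom (pow_dvd_pow 2 (Nat.le_succ K)) (ZMod (2 ^ K))

/-- The conditions on `u ∈ K^s` outside `PP` and infinity, and for the Galois action by `χ`. -/
structure Adm {F : Type} [Field F] (PP : Finset F[X]) (K : ℕ) (χ : GS PP → ZMod (2 ^ K))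
    (u : Kgs F) : Prop where
  ne : u ≠ 0
  gal : ∀ σ : Gal(Kgs F/RatFunc F), EqN (2 ^ K) (σ u) (u ^ (χ (rG PP σ)).val)
  unr : ∀ P : F[X], P.Monic → Irreducible P → P ∉ PP →
    ∀ v : AbsoluteValue (RatFunc F) ℝ, IsPl (some P) v → ∀ ι : Kgs F →ₐ[RatFunc F] Kvs v,
      ∃ r ∈ Knr v, r ≠ 0 ∧ EqN (2 ^ K) (ι u) r ∧
        ∃ x : ℤ, nm v r = v (algebraMap F[X] (RatFunc F) P) ^ x ∧ (2 ^ K : ℤ) ∣ x

section

variable {F : Type} [Field F] {PP : Finset F[X]}

/-- Frobenius elements at the places of `PP` and infinity. -/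
def IsG0 (A : Dat F PP) (g₀ : ∀ w, Gal(Kvs (A.av w)/(A.av w).Completion)) : Prop :=
  ∀ w, IsFro (Nat.card F) (Nat.card F ^ dgP (w.map Subtype.val)) (g₀ w)

/-- `x` is a local invariant at `w`. -/
def LVw (A : Dat F PP) (g₀ : ∀ w, Gal(Kvs (A.av w)/(A.av w).Completion)) (K : ℕ) (w : Option PP)
    (μ : Gal(Kvs (A.av w)/(A.av w).Completion) → Kvs (A.av w)) (x : ℤ) : Prop :=
  LV (A.av w) (2 ^ K) (unP (w.map Subtype.val)) (g₀ w) μ x

/-- The isotropy condition at the places of `PP` and infinity: the local invariant of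
`u ^ ((1 - χ) / 2)` is zero. -/
def Iso (A : Dat F PP) (g₀ : ∀ w, Gal(Kvs (A.av w)/(A.av w).Completion)) (K : ℕ)
    (χ : GS PP → ZMod (2 ^ (K + 1))) (u : Kgs F) : Prop :=
  ∀ (w : Option PP) (x : ℤ), LVw A g₀ K w (lz (A.emb w) u fun g => hf K (1 - χ g)) x →
    (2 ^ K : ℤ) ∣ x

/-- The crossed homomorphisms `z w` with `z w = 0` on `W w` and `z w (φ w) = 1`. -/
def IsZw (κ : F) (A : Dat F PP) (K : ℕ) (χ : GS PP → ZMod (2 ^ K))
    (z : Option PP → GS PP → ZMod (2 ^ K)) : Prop :=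
  ∀ w, Coc (fun g x => χ g * x) (z w) ∧ (∀ g ∈ (famC κ A).W w, z w g = 0) ∧
    z w ((famC κ A).φ w) = 1

end

end Pool.Agent.MP72W
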