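import Pool.Agent.Lib.MP_72e2e6_nt.W2.R.Spec

/-!
# MP_72e2e6_nt, theorem T3, part R: rules for local invariants (helper27)
-/

namespace Pool.Agent.MP72W

open Polynomial IntermediateField

private lemma lvA_eqMul {L : Type} [Field L] {N : ℕ} {a b c d : L} (h1 : EqN N a b)
    (h2 : EqN N c d) : EqN N (a * c) (b * d) := by
  obtain ⟨s, hs, e1⟩ := h1
  obtain ⟨t, ht, e2⟩ := h2
  refine ⟨s * t, mul_ne_zero hs ht, ?_⟩
  rw [e1, e2, mul_pow]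
  ring

private lemma lvA_eqInv {L : Type} [Field L] {N : ℕ} {a b : L} (h1 : EqN N a b) :
    EqN N a⁻¹ b⁻¹ := by
  obtain ⟨s, hs, e1⟩ := h1
  refine ⟨s⁻¹, inv_ne_zero hs, ?_⟩
  rw [e1, mul_inv, inv_pow]

private lemma lvA_eqPow {L : Type} [Field L] {N : ℕ} {a b : L} (h1 : EqN N a b) (n : ℕ) :
    EqN N (a ^ n) (b ^ n) := by
  obtain ⟨s, hs, e1⟩ := h1
  refine ⟨s ^ n, pow_ne_zero _ hs, ?_⟩
  rw [e1, mul_pow, ← pow_mul, ← pow_mul, mul_comm n N]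

private lemma lvA_eqTrans {L : Type} [Field L] {N : ℕ} {a b c : L} (h1 : EqN N a b)
    (h2 : EqN N b c) : EqN N a c := by
  obtain ⟨s, hs, e1⟩ := h1
  obtain ⟨t, ht, e2⟩ := h2
  refine ⟨t * s, mul_ne_zero ht hs, ?_⟩
  rw [e1, e2, mul_pow]
  ring

private lemma lvA_eqRefl {L : Type} [Field L] {N : ℕ} (a : L) : EqN N a a :=
  ⟨1, one_ne_zero, by rw [one_pow, mul_one]⟩

private lemma lvA_eqSq {L : Type} [Field L] {k : ℕ} {a b : L} (h1 : EqN (2 ^ k) a b) :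
    EqN (2 ^ (k + 1)) (a ^ 2) (b ^ 2) := by
  obtain ⟨s, hs, e1⟩ := h1
  refine ⟨s, hs, ?_⟩
  rw [e1, mul_pow, ← pow_mul, ← pow_succ]

private lemma lvA_eqRed {L : Type} [Field L] {k j : ℕ} {a b : L} (h1 : EqN (2 ^ (k + j)) a b) :
    EqN (2 ^ k) a b := by
  obtain ⟨s, hs, e1⟩ := h1
  refine ⟨s ^ 2 ^ j, pow_ne_zero _ hs, ?_⟩
  rw [e1, ← pow_mul, ← pow_add, add_comm j k]

/-- **LvA.** Rules for local invariants. -/
theorem tLvA (_h1 : S_Lc1) (h2 : S_Lc2) : S_LvA := by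
  intro F _ _ _ v d ϖ R hLF k g₀ μ μ' x x'
  obtain ⟨hn0, hnz, hnm, -, -, -, -, -, -⟩ := h2 F v d ϖ R hLF
  have hϖ : v ϖ ≠ 0 := hLF.pi0.ne'
  have hn1 : nm v 1 = 1 := by
    have e := hnm 1 1
    rw [one_mul] at e
    have hne : nm v (1 : Kvs v) ≠ 0 := fun h => one_ne_zero ((hnz 1).1 h)
    exact (mul_right_cancel₀ hne (by rw [one_mul]; exact e)).symm
  have hpow : ∀ (r : Kvs v) (n : ℕ), nm v (r ^ n) = nm v r ^ n := by
    intro r n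
    induction n with
    | zero => rw [pow_zero, pow_zero, hn1]
    | succ n ih => rw [pow_succ, pow_succ, hnm, ih]
  have hinv : ∀ r : Kvs v, r ≠ 0 → nm v r⁻¹ = (nm v r)⁻¹ := by
    intro r hr
    have e := hnm r r⁻¹
    rw [mul_inv_cancel₀ hr, hn1] at e
    exact eq_inv_of_mul_eq_one_right e.symm
  have hpowLV : ∀ (N M : ℕ) (n : ℕ) (ν : Gal(Kvs v/v.Completion) → Kvs v) (z : ℤ),
      (∀ a b : Kvs v, EqN N a b → EqN M (a ^ n) (b ^ n)) →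
      LV v N ϖ g₀ ν z → LV v M ϖ g₀ (fun g => ν g ^ n) (n * z) := by
    rintro N M n ν z hNM ⟨y, r, hy, hr, hrK, hg, hg0, hrn⟩
    refine ⟨y ^ n, r ^ n, pow_ne_zero _ hy, pow_ne_zero _ hr, pow_mem hrK n, fun g hgeo => ?_, ?_,
      ?_⟩
    · have e := hNM _ _ (hg g hgeo)
      rw [map_pow, ← div_pow]
      exact e
    · have e := hNM _ _ hg0
      rw [map_pow, ← div_pow, ← mul_pow]
      exact e
    · rw [hpow, hrn, ← zpow_natCast, ← zpow_mul, mul_comm]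
  refine ⟨?_, ?_, ?_, ?_, ?_, ?_, ?_⟩
  · rintro ⟨y, r, hy, hr, hrK, hg, hg0, hrn⟩ ⟨y', r', hy', hr', hrK', hg', hg0', hrn'⟩
    refine ⟨y * y', r * r', mul_ne_zero hy hy', mul_ne_zero hr hr', mul_mem hrK hrK',
      fun g hgeo => ?_, ?_, ?_⟩
    · rw [map_mul, mul_div_mul_comm]
      exact lvA_eqMul (hg g hgeo) (hg' g hgeo)
    · have e := lvA_eqMul hg0 hg0'
      rw [map_mul, mul_div_mul_comm, mul_mul_mul_comm]
      exact e
    · rw [hnm, hrn, hrn', ← zpow_add₀ hϖ]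
  · rintro ⟨y, r, hy, hr, hrK, hg, hg0, hrn⟩
    refine ⟨y⁻¹, r⁻¹, inv_ne_zero hy, inv_ne_zero hr, inv_mem hrK, fun g hgeo => ?_, ?_, ?_⟩
    · rw [map_inv₀, ← inv_div_inv, inv_inv, inv_inv, ← inv_div]
      exact lvA_eqInv (hg g hgeo)
    · rw [map_inv₀, ← inv_div_inv, inv_inv, inv_inv, ← inv_div, ← mul_inv]
      exact lvA_eqInv hg0
    · rw [hinv r hr, hrn, zpow_neg]
  · intro n h
    exact hpowLV _ _ n μ x (fun a b hab => lvA_eqPow hab n) h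
  · rintro h ⟨y, r, hy, hr, hrK, hg, hg0, hrn⟩
    exact ⟨y, r, hy, hr, hrK, fun g hgeo => lvA_eqTrans (h g) (hg g hgeo),
      lvA_eqTrans (h g₀) hg0, hrn⟩
  · intro y hy
    refine ⟨y, 1, hy, one_ne_zero, one_mem _, fun g _ => lvA_eqRefl _, ?_, ?_⟩
    · rw [mul_one]
      exact lvA_eqRefl _
    · rw [hn1, zpow_zero]
  · intro h
    have e := hpowLV (2 ^ k) (2 ^ (k + 1)) 2 μ x (fun a b hab => lvA_eqSq hab) h
    exact_mod_cast e
  · rintro j ⟨y, r, hy, hr, hrK, hg, hg0, hrn⟩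
    exact ⟨y, r, hy, hr, hrK, fun g hgeo => lvA_eqRed (hg g hgeo), lvA_eqRed hg0, hrn⟩

end Pool.Agent.MP72W
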